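import Pool.Agent.P8H6.SS.Stm
import Pool.Agent.Y877.SxB

/-!
# Lower bound for the number of `g` such that two forms have no prime factors in `(y, z]`
-/

set_option autoImplicit false

namespace Pool.Agent.P8H6.SS

open Finset Pool.Agent.H373R2.T7 Pool.Agent.Y877.SX

lemma mid_succ (y z : ℕ) (hyz : y ≤ z) :
    mid y (z + 1) = if (z + 1).Prime then insert (z + 1) (mid y z) else mid y z := by
  ext p
  split_ifs with h
  · rw [mem_insert, mem_mid, mem_mid]
    constructor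
    · rintro ⟨h1, h2, h3⟩
      rcases Nat.lt_or_ge z p with h4 | h4
      · exact Or.inl (by omega)
      · exact Or.inr ⟨h1, h4, h3⟩
    · rintro (h1 | ⟨h1, h2, h3⟩)
      · rw [h1]
        exact ⟨by omega, le_rfl, h⟩
      · exact ⟨h1, by omega, h3⟩
  · rw [mem_mid, mem_mid]
    constructor
    · rintro ⟨h1, h2, h3⟩
      refine ⟨h1, ?_, h3⟩
      rcases Nat.lt_or_ge z p with h4 | h4
      · exfalso
        apply h
        have : p = z + 1 := by omega
        rwa [← this]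
      · exact h4
    · rintro ⟨h1, h2, h3⟩
      exact ⟨h1, by omega, h3⟩

lemma prod_sq_low (y z : ℕ) (hy : 2 ≤ y) (hyz : y ≤ z) :
    (1 - 1 / (y : ℝ)) * (z / ((z : ℝ) - 1)) ≤ ∏ p ∈ mid y z, (1 - 1 / ((p : ℝ) - 1) ^ 2) := by
  have hy2 : (2 : ℝ) ≤ y := by exact_mod_cast hy
  induction z, hyz using Nat.le_induction with
  | base =>
    have h1 : mid y y = ∅ := by
      rw [eq_empty_iff_forall_notMem]
      intro p hp
      rw [mem_mid] at hp
      omega
    rw [h1, prod_empty]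
    have h2 : (y : ℝ) - 1 ≠ 0 := by linarith
    have h3 : (y : ℝ) ≠ 0 := by linarith
    apply le_of_eq
    field_simp
  | succ z hz ih =>
    have hz2 : (2 : ℝ) ≤ z := by exact_mod_cast hy.trans hz
    have hz1 : (0 : ℝ) < z - 1 := by linarith
    have hz0 : (0 : ℝ) < z := by linarith
    have hy1 : 0 ≤ 1 - 1 / (y : ℝ) := by
      rw [sub_nonneg, div_le_one (by linarith)]
      linarith
    push_cast
    rw [mid_succ y z hz, add_sub_cancel_right]
    split_ifs with h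
    · rw [prod_insert (by rw [mem_mid]; omega)]
      push_cast
      rw [add_sub_cancel_right]
      have h4 : 0 ≤ 1 - 1 / (z : ℝ) ^ 2 := by
        rw [sub_nonneg, div_le_one (by positivity)]
        nlinarith
      calc (1 - 1 / (y : ℝ)) * ((z + 1) / z) =
            (1 - 1 / (z : ℝ) ^ 2) * ((1 - 1 / (y : ℝ)) * (z / ((z : ℝ) - 1))) := by
              have h5 : (z : ℝ) ≠ 0 := hz0.ne'
              have h6 : (z : ℝ) - 1 ≠ 0 := hz1.ne'
              have h7 : (1 - 1 / (z : ℝ) ^ 2) * (z / ((z : ℝ) - 1)) = (z + 1) / z := by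
                field_simp
                ring
              rw [mul_left_comm, h7]
        _ ≤ _ := mul_le_mul_of_nonneg_left ih h4
    · refine le_trans ?_ ih
      apply mul_le_mul_of_nonneg_left _ hy1
      rw [div_le_div_iff₀ hz0 hz1]
      nlinarith

lemma prod_two_low (y z : ℕ) (hy : 2 ≤ y) (hyz : y ≤ z) :
    (1 - 1 / (y : ℝ)) * Vm y z ^ 2 ≤ ∏ p ∈ mid y z, (1 - 2 / (p : ℝ)) := by
  have h1 := prod_sq_low y z hy hyz
  have hy2 : (2 : ℝ) ≤ y := by exact_mod_cast hy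
  have hz2 : (2 : ℝ) ≤ z := by exact_mod_cast hy.trans hyz
  have hy1 : 0 ≤ 1 - 1 / (y : ℝ) := by
    rw [sub_nonneg, div_le_one (by linarith)]
    linarith
  have h2 : (1 - 1 / (y : ℝ)) ≤ ∏ p ∈ mid y z, (1 - 1 / ((p : ℝ) - 1) ^ 2) := by
    refine le_trans ?_ h1
    have h3 : (1 : ℝ) ≤ z / ((z : ℝ) - 1) := by
      rw [one_le_div (by linarith)]
      linarith
    calc (1 - 1 / (y : ℝ)) = (1 - 1 / (y : ℝ)) * 1 := (mul_one _).symm
      _ ≤ _ := mul_le_mul_of_nonneg_left h3 hy1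
  calc (1 - 1 / (y : ℝ)) * Vm y z ^ 2 ≤ (∏ p ∈ mid y z, (1 - 1 / ((p : ℝ) - 1) ^ 2)) * Vm y z ^ 2 :=
        mul_le_mul_of_nonneg_right h2 (sq_nonneg _)
    _ = ∏ p ∈ mid y z, (1 - 2 / (p : ℝ)) := by
        unfold Vm
        rw [← prod_pow, ← prod_mul_distrib]
        refine prod_congr rfl fun p hp => ?_
        have h4 := (mem_mid.1 hp).1
        have h5 : (3 : ℝ) ≤ p := by exact_mod_cast (by omega : 3 ≤ p)
        have h6 : (p : ℝ) ≠ 0 := by linarith
        have h7 : (p : ℝ) - 1 ≠ 0 := by linarith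
        field_simp
        ring

open Classical in
lemma rough_pair (E U : ℕ) : ∃ G0 : ℕ, ∀ G : ℕ, G0 ≤ G → ∀ z : ℕ, 1 ≤ z → (z : ℝ) ≤ Real.log G ^ E → ∀ y M v v' : ℕ,
    2 ≤ y → y ≤ z → (∀ p ∈ mid y z, ¬ p ∣ M) →
    G * ((1 - 1 / (y : ℝ)) * Vm y z ^ 2) - G / Real.log G ^ U ≤
      (((Icc 1 G).filter (fun g => (∀ p ∈ mid y z, ¬ p ∣ v + M * g) ∧ (∀ p ∈ mid y z, ¬ p ∣ v' + M * g))).card : ℝ) := by
  obtain ⟨N0, h0⟩ := sys_count 2 E U (by norm_num)
  refine ⟨N0, fun G hG z hz hzE y M v v' hy hyz hM => ?_⟩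
  obtain ⟨Q, hQd⟩ : ∃ Q : ℕ → ℕ → Prop, ∀ p n, Q p n ↔ (p ∈ mid y z ∧ (p ∣ v + M * n ∨ p ∣ v' + M * n)) :=
    ⟨_, fun _ _ => Iff.rfl⟩
  have hQ : PerB Q 2 := by
    refine ⟨fun p n => by rw [hQd, hQd, dvd_mod, dvd_mod p v'], fun p hp => ?_⟩
    unfold nuB
    by_cases h : p ∈ mid y z
    · have h1 := few_one p v M hp (hM p h)
      have h2 := few_one p v' M hp (hM p h)
      refine le_trans (card_le_card (t := (range p).filter (fun r => p ∣ v + M * r) ∪ (range p).filter (fun r => p ∣ v' + M * r)) ?_) ?_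
      · intro r hr
        rw [mem_filter] at hr
        rw [mem_union, mem_filter, mem_filter]
        rcases ((hQd _ _).1 hr.2).2 with h | h
        · exact Or.inl ⟨hr.1, h⟩
        · exact Or.inr ⟨hr.1, h⟩
      · exact (card_union_le _ _).trans (by omega)
    · rw [filter_false_of_mem (fun r _ => by rw [hQd]; tauto), card_empty]
      exact Nat.zero_le _
  have h1 := h0 G hG z hz hzE _ hQ
  have e1 : (Icc 1 G).filter (fun n : ℕ => ∀ p ∈ pz z, ¬ Q p n) =
      (Icc 1 G).filter (fun g => (∀ p ∈ mid y z, ¬ p ∣ v + M * g) ∧ (∀ p ∈ mid y z, ¬ p ∣ v' + M * g)) := by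
    apply filter_congr
    intro n _
    constructor
    · intro h
      exact ⟨fun p hp hd => h p (mem_pz.2 (mem_mid.1 hp).2) ((hQd _ _).2 ⟨hp, Or.inl hd⟩),
        fun p hp hd => h p (mem_pz.2 (mem_mid.1 hp).2) ((hQd _ _).2 ⟨hp, Or.inr hd⟩)⟩
    · rintro ⟨ha, hb⟩ p _ hq
      obtain ⟨hp, hd | hd⟩ := (hQd _ _).1 hq
      · exact ha p hp hd
      · exact hb p hp hd
  rw [e1] at h1
  have h2 := (abs_le.1 h1).1
  have h3 : (1 - 1 / (y : ℝ)) * Vm y z ^ 2 ≤ ∏ p ∈ pz z, (1 - (nuB Q p : ℝ) / p) := by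
    refine (prod_two_low y z hy hyz).trans ?_
    have : ∏ p ∈ mid y z, (1 - 2 / (p : ℝ)) = ∏ p ∈ pz z, (if y < p then (1 - 2 / (p : ℝ)) else 1) := by
      unfold mid
      rw [prod_filter]
    rw [this]
    apply prod_le_prod
    · intro p hp
      split_ifs with h
      · have h5 : (3 : ℝ) ≤ p := by exact_mod_cast (by omega : 3 ≤ p)
        rw [sub_nonneg, div_le_one (by linarith)]
        linarith
      · exact zero_le_one
    · intro p hp
      have hpp := (mem_pz.1 hp).2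
      have hp0 : (0 : ℝ) < p := by exact_mod_cast hpp.pos
      split_ifs with hy
      · have : (nuB Q p : ℝ) ≤ 2 := by exact_mod_cast hQ.few p hpp
        gcongr
      · have : nuB Q p = 0 := by
          unfold nuB
          rw [filter_false_of_mem, card_empty]
          intro r _ hq
          exact hy (mem_mid.1 ((hQd _ _).1 hq).1).1
        rw [this]
        simp
  have h4 : (G : ℝ) * ((1 - 1 / (y : ℝ)) * Vm y z ^ 2) ≤ G * ∏ p ∈ pz z, (1 - (nuB Q p : ℝ) / p) := by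
    gcongr
  linarith

end Pool.Agent.P8H6.SS
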