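import Pool.Agent.P8H6.SS.LamK
import Pool.Agent.P8H6.SS.Rc

/-!
# The first moment: from the von Mangoldt function to its model, with moving windows
-/

set_option autoImplicit false

namespace Pool.Agent.P8H6.SS

open Finset Pool.Agent.H373R2.T7 Pool.Agent.Y877.SX

open Classical in
lemma sum_class (N P u g₀ G : ℕ) (hP : 0 < P) (W : ℕ → Prop)
    (hW : ∀ a, W a → u + P * g₀ < a ∧ a ≤ u + P * (g₀ + G)) (hN : u + P * (g₀ + G) ≤ N) (f : ℕ → ℝ) :
    ∑ a ∈ Icc 1 N, (if W a ∧ a % P = u % P then f a else 0) =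
      ∑ g ∈ Icc 1 G, (if W (u + P * (g₀ + g)) then f (u + P * (g₀ + g)) else 0) := by
  rw [← sum_filter, ← sum_filter]
  symm
  apply sum_bij (fun (g : ℕ) _ => u + P * (g₀ + g))
  · intro g hg
    rw [mem_filter, mem_Icc] at hg
    obtain ⟨⟨h1, h2⟩, h3⟩ := hg
    rw [mem_filter, mem_Icc]
    have h4 := hW _ h3
    refine ⟨⟨by omega, h4.2.trans hN⟩, h3, ?_⟩
    rw [Nat.add_mul_mod_self_left]
  · intro g _ g' _ h
    have h' : u + P * (g₀ + g) = u + P * (g₀ + g') := h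
    have h2 : g₀ + g = g₀ + g' := Nat.eq_of_mul_eq_mul_left hP (by omega)
    omega
  · intro a ha
    rw [mem_filter, mem_Icc] at ha
    obtain ⟨⟨h1, h2⟩, h3, h4⟩ := ha
    obtain ⟨h5, h6⟩ := hW a h3
    have h7 : P ∣ a - u := (Nat.modEq_iff_dvd' (by omega)).1 (h4.symm : u % P = a % P)
    obtain ⟨t, ht⟩ := h7
    have h8 : a = u + P * t := by omega
    have h9 : g₀ < t := by
      by_contra hcon
      have : P * t ≤ P * g₀ := Nat.mul_le_mul_left _ (by omega)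
      omega
    have h10 : t ≤ g₀ + G := by
      by_contra hcon
      have : P * (g₀ + G) < P * t := (Nat.mul_lt_mul_left hP).2 (by omega)
      omega
    have h11 : g₀ + (t - g₀) = t := by omega
    refine ⟨t - g₀, ?_, ?_⟩
    · rw [mem_filter, mem_Icc]
      refine ⟨⟨by omega, by omega⟩, ?_⟩
      rw [h11, ← h8]
      exact h3
    · show u + P * (g₀ + (t - g₀)) = a
      rw [h11, ← h8]
  · intro g _
    rfl

/-- the outer window -/
def W1 (l P g₀ G c a : ℕ) : Prop := (c + 1) * l + P * g₀ < a ∧ a ≤ c * l + P * (g₀ + G)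

/-- the inner window -/
def W2 (l P g₀ G c b : ℕ) : Prop := (c + 2) * l + P * g₀ < b ∧ b + l ≤ c * l + P * (g₀ + G)

lemma cell_low (l a : ℕ) : a / l * l ≤ a := Nat.div_mul_le_self a l

lemma cell_up (l a : ℕ) (hl : 0 < l) : a < (a / l + 1) * l := by
  have := Nat.lt_mul_div_succ a hl
  rw [mul_comm]
  exact this

lemma W1_sub {l P g₀ G u : ℕ} (hl : 0 < l) (a : ℕ) (h : W1 l P g₀ G (u / l) a) :
    u + P * g₀ < a ∧ a ≤ u + P * (g₀ + G) := by
  obtain ⟨h1, h2⟩ := h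
  have h3 := cell_low l u
  have h4 := cell_up l u hl
  constructor
  · omega
  · omega

lemma W2_sub {l P g₀ G u : ℕ} (hl : 0 < l) (b : ℕ) (h : W2 l P g₀ G (u / l) b) :
    u + P * g₀ < b ∧ b ≤ u + P * (g₀ + G) := by
  obtain ⟨h1, h2⟩ := h
  have h3 := cell_low l u
  have h4 := cell_up l u hl
  have h5 : (u / l + 2) * l = (u / l + 1) * l + l := by ring
  constructor
  · omega
  · omega

lemma W2_W1 {l P g₀ G u v : ℕ} (hl : 0 < l) (g : ℕ) (h : W2 l P g₀ G (v / l) (v + P * (g₀ + g))) :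
    W1 l P g₀ G (u / l) (u + P * (g₀ + g)) := by
  obtain ⟨h1, h2⟩ := h
  have h3 := cell_low l u
  have h4 := cell_up l u hl
  have h5 := cell_low l v
  have h6 := cell_up l v hl
  have h7 : (v / l + 2) * l = (v / l + 1) * l + l := by ring
  have h8 : (u / l + 1) * l = u / l * l + l := by ring
  constructor
  · omega
  · omega

lemma W2_in {l P g₀ G v g : ℕ} (hl : 0 < l) (h1 : 2 * l < P * g) (h2 : P * g + 2 * l ≤ P * G) :
    W2 l P g₀ G (v / l) (v + P * (g₀ + g)) := by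
  have h5 := cell_low l v
  have h6 := cell_up l v hl
  have h7 : (v / l + 2) * l = v / l * l + 2 * l := by ring
  have h8 : (v / l + 1) * l = v / l * l + l := by ring
  have h9 : P * (g₀ + g) = P * g₀ + P * g := by ring
  have h10 : P * (g₀ + G) = P * g₀ + P * G := by ring
  constructor
  · omega
  · omega

lemma lamI_nat (m : ℕ) : lamI (m : ℤ) = ArithmeticFunction.vonMangoldt m := by
  unfold lamI
  split_ifs with h
  · rw [Int.toNat_natCast]
  · have : m = 0 := by omega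
    rw [this]
    simp

lemma lamz_nonneg (z m : ℕ) : 0 ≤ lamz z m := by
  unfold lamz
  split_ifs
  · exact inv_nonneg.2 (prod_nonneg fun p hp => (fac_pos (mem_pz.1 hp).2).le)
  · exact le_rfl

lemma Vz_pos' (z : ℕ) : 0 < Vz z := prod_pos fun p hp => fac_pos (mem_pz.1 hp).2

lemma lamz_Vz (z m : ℕ) : lamz z m * Vz z ≤ 1 := by
  unfold lamz
  split_ifs
  · rw [inv_mul_cancel₀ (Vz_pos' z).ne']
  · rw [zero_mul]
    exact zero_le_one

/-- the total of the products of the two values of the von Mangoldt function -/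
noncomputable def LL (K : Finset ℕ) (a b : ℕ → ℕ) (P g₀ G : ℕ) : ℝ :=
  ∑ k ∈ K, ∑ g ∈ Icc 1 G, ArithmeticFunction.vonMangoldt (a k + P * (g₀ + g)) *
    ArithmeticFunction.vonMangoldt (b k + P * (g₀ + g))

open Classical in
/-- the number of good `g` for `k` in the model -/
noncomputable def MM (a b : ℕ → ℕ) (P g₀ g₁ G' y z k : ℕ) : ℕ :=
  ((Icc 1 G').filter (fun g => (∀ p ∈ mid y z, ¬ p ∣ (a k + P * (g₀ + g₁)) + P * g) ∧
    (∀ p ∈ mid y z, ¬ p ∣ (b k + P * (g₀ + g₁)) + P * g))).card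

open Classical in
theorem chain (K : Finset ℕ) (a b : ℕ → ℕ) (N P g₀ G l y z : ℕ) (hP : 0 < P) (hl : 0 < l) (R : ℝ)
    (hN : 3 ≤ N)
    (ha : ∀ k ∈ K, a k + P * (g₀ + G) ≤ N) (hb : ∀ k ∈ K, b k + P * (g₀ + G) ≤ N)
    (hR1 : ∀ F : ℕ → ℝ, (∀ m, |F m| ≤ 1) → ∑ k ∈ K, |∑ m ∈ Icc 1 N, F m *
      (lamI (m + ((b k : ℤ) - a k)) - lamzI z (m + ((b k : ℤ) - a k)))| ≤ R)
    (hR2 : ∀ F : ℕ → ℝ, (∀ m, |F m| ≤ 1) → ∑ k ∈ K, |∑ m ∈ Icc 1 N, F m *
      (lamI (m + ((a k : ℤ) - b k)) - lamzI z (m + ((a k : ℤ) - b k)))| ≤ R)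
    (hay : ∀ k ∈ K, ∀ p : ℕ, p.Prime → p ≤ y → ¬ p ∣ a k) (hby : ∀ k ∈ K, ∀ p : ℕ, p.Prime → p ≤ y → ¬ p ∣ b k)
    (hPy : ∀ p : ℕ, p.Prime → p ≤ y → p ∣ P) (g₁ G' : ℕ) (hg₁ : 2 * l < P * (g₁ + 1))
    (hG' : g₁ + G' + (g₁ + 1) ≤ G) :
    (Vz z)⁻¹ ^ 2 * ∑ k ∈ K, (MM a b P g₀ g₁ G' y z k : ℝ) - (Real.log N + (Vz z)⁻¹) *
      (((N / l + 1) * P : ℕ) * R) ≤ LL K a b P g₀ G := by
  set lN := Real.log N with hlN
  have hNr : (3 : ℝ) ≤ N := by exact_mod_cast hN
  have hl0 : 0 < lN := Real.log_pos (by linarith)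
  have hV := Vz_pos' z
  set Cl : Finset (ℕ × ℕ) := range (N / l + 1) ×ˢ range P with hCl
  have hClc : Cl.card = (N / l + 1) * P := by rw [hCl, card_product, card_range, card_range]
  have hcl : ∀ u : ℕ, u ≤ N → (u / l, u % P) ∈ Cl := by
    intro u hu
    rw [hCl, mem_product, mem_range, mem_range]
    exact ⟨Nat.lt_succ_of_le (Nat.div_le_div_right hu), Nat.mod_lt _ hP⟩
  have haN : ∀ k ∈ K, a k ≤ N := fun k hk => le_trans (Nat.le_add_right _ _) (ha k hk)
  have hbN : ∀ k ∈ K, b k ≤ N := fun k hk => le_trans (Nat.le_add_right _ _) (hb k hk)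
  -- the weights
  set G1 : ℕ × ℕ → ℕ → ℝ := fun c m =>
    if W1 l P g₀ G c.1 m ∧ m % P = c.2 then ArithmeticFunction.vonMangoldt m / lN else 0 with hG1
  set G2 : ℕ × ℕ → ℕ → ℝ := fun c m => if W2 l P g₀ G c.1 m ∧ m % P = c.2 then lamz z m * Vz z else 0 with hG2
  set G1' : ℕ × ℕ → ℕ → ℝ := fun c m => if m ≤ N then G1 c m else 0 with hG1'
  have hG1b : ∀ c m, |G1' c m| ≤ 1 := by
    intro c m
    rw [hG1']
    simp only
    split_ifs with hm
    · rw [hG1]
      simp only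
      split_ifs
      · rw [abs_of_nonneg (div_nonneg ArithmeticFunction.vonMangoldt_nonneg hl0.le), div_le_one hl0]
        rcases Nat.eq_zero_or_pos m with h0 | h0
        · rw [h0]
          simp only [ArithmeticFunction.map_zero]
          exact hl0.le
        · refine ArithmeticFunction.vonMangoldt_le_log.trans ?_
          exact Real.log_le_log (by exact_mod_cast h0) (by exact_mod_cast hm)
      · simp
    · simp
  have hG2b : ∀ c m, |G2 c m| ≤ 1 := by
    intro c m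
    rw [hG2]
    simp only
    split_ifs
    · rw [abs_of_nonneg (mul_nonneg (lamz_nonneg z m) hV.le)]
      exact lamz_Vz z m
    · simp
  -- the class sums
  have e1 := cls_bound K Cl (fun k => (a k / l, a k % P)) (fun k hk => hcl _ (haN k hk))
    (fun c k => ∑ m ∈ Icc 1 N, G1' c m * (lamI (m + ((b k : ℤ) - a k)) - lamzI z (m + ((b k : ℤ) - a k)))) R
    (fun c _ => hR1 (G1' c) (hG1b c))
  have e2 := cls_bound K Cl (fun k => (b k / l, b k % P)) (fun k hk => hcl _ (hbN k hk))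
    (fun c k => ∑ m ∈ Icc 1 N, G2 c m * (lamI (m + ((a k : ℤ) - b k)) - lamzI z (m + ((a k : ℤ) - b k)))) R
    (fun c _ => hR2 (G2 c) (hG2b c))
  rw [hClc] at e1 e2
  -- the four sums
  set X1 : ℕ → ℝ := fun k => ∑ g ∈ Icc 1 G, (if W1 l P g₀ G (a k / l) (a k + P * (g₀ + g)) then
    ArithmeticFunction.vonMangoldt (a k + P * (g₀ + g)) / lN * ArithmeticFunction.vonMangoldt (b k + P * (g₀ + g)) else 0)
    with hX1
  set X2 : ℕ → ℝ := fun k => ∑ g ∈ Icc 1 G, (if W1 l P g₀ G (a k / l) (a k + P * (g₀ + g)) then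
    ArithmeticFunction.vonMangoldt (a k + P * (g₀ + g)) / lN * lamz z (b k + P * (g₀ + g)) else 0) with hX2
  set X3 : ℕ → ℝ := fun k => ∑ g ∈ Icc 1 G, (if W2 l P g₀ G (b k / l) (b k + P * (g₀ + g)) then
    lamz z (b k + P * (g₀ + g)) * Vz z * ArithmeticFunction.vonMangoldt (a k + P * (g₀ + g)) else 0) with hX3
  set X4 : ℕ → ℝ := fun k => ∑ g ∈ Icc 1 G, (if W2 l P g₀ G (b k / l) (b k + P * (g₀ + g)) then
    lamz z (b k + P * (g₀ + g)) * Vz z * lamz z (a k + P * (g₀ + g)) else 0) with hX4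
  have s1 : ∀ k ∈ K, ∀ H : ℤ → ℝ, ∑ m ∈ Icc 1 N, G1' (a k / l, a k % P) m * H (m + ((b k : ℤ) - a k)) =
      ∑ g ∈ Icc 1 G, (if W1 l P g₀ G (a k / l) (a k + P * (g₀ + g)) then
        ArithmeticFunction.vonMangoldt (a k + P * (g₀ + g)) / lN * H ((b k + P * (g₀ + g) : ℕ) : ℤ) else 0) := by
    intro k hk H
    have h1 := sum_class N P (a k) g₀ G hP (W1 l P g₀ G (a k / l)) (fun m hm => W1_sub hl m hm) (ha k hk)
      (fun m => ArithmeticFunction.vonMangoldt m / lN * H (m + ((b k : ℤ) - a k)))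
    have h2 : ∑ m ∈ Icc 1 N, G1' (a k / l, a k % P) m * H (m + ((b k : ℤ) - a k)) =
        ∑ m ∈ Icc 1 N, (if W1 l P g₀ G (a k / l) m ∧ m % P = a k % P then
          ArithmeticFunction.vonMangoldt m / lN * H (m + ((b k : ℤ) - a k)) else 0) := by
      refine sum_congr rfl fun m hm => ?_
      rw [hG1']
      simp only
      rw [if_pos (mem_Icc.1 hm).2, hG1]
      simp only
      split_ifs
      · rfl
      · rw [zero_mul]
    rw [h2, h1]
    refine sum_congr rfl fun g _ => ?_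
    have h3 : (((a k + P * (g₀ + g) : ℕ) : ℤ) + ((b k : ℤ) - a k)) = ((b k + P * (g₀ + g) : ℕ) : ℤ) := by
      push_cast
      ring
    rw [h3]
  have s2 : ∀ k ∈ K, ∀ H : ℤ → ℝ, ∑ m ∈ Icc 1 N, G2 (b k / l, b k % P) m * H (m + ((a k : ℤ) - b k)) =
      ∑ g ∈ Icc 1 G, (if W2 l P g₀ G (b k / l) (b k + P * (g₀ + g)) then
        lamz z (b k + P * (g₀ + g)) * Vz z * H ((a k + P * (g₀ + g) : ℕ) : ℤ) else 0) := by
    intro k hk H
    have h1 := sum_class N P (b k) g₀ G hP (W2 l P g₀ G (b k / l)) (fun m hm => W2_sub hl m hm) (hb k hk)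
      (fun m => lamz z m * Vz z * H (m + ((a k : ℤ) - b k)))
    have h2 : ∑ m ∈ Icc 1 N, G2 (b k / l, b k % P) m * H (m + ((a k : ℤ) - b k)) =
        ∑ m ∈ Icc 1 N, (if W2 l P g₀ G (b k / l) m ∧ m % P = b k % P then
          lamz z m * Vz z * H (m + ((a k : ℤ) - b k)) else 0) := by
      refine sum_congr rfl fun m hm => ?_
      rw [hG2]
      simp only
      split_ifs
      · rfl
      · rw [zero_mul]
    rw [h2, h1]
    refine sum_congr rfl fun g _ => ?_
    have h3 : (((b k + P * (g₀ + g) : ℕ) : ℤ) + ((a k : ℤ) - b k)) = ((a k + P * (g₀ + g) : ℕ) : ℤ) := by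
      push_cast
      ring
    rw [h3]
  have hlamzI : ∀ m : ℕ, 1 ≤ m → lamzI z (m : ℤ) = lamz z m := by
    intro m hm
    unfold lamzI
    rw [if_pos (by exact_mod_cast hm), Int.toNat_natCast]
  have t1 : ∑ k ∈ K, |X1 k - X2 k| ≤ ((N / l + 1) * P : ℕ) * R := by
    refine le_trans (le_of_eq (sum_congr rfl fun k hk => ?_)) e1
    congr 1
    simp only [mul_sub, sum_sub_distrib]
    rw [s1 k hk lamI, s1 k hk (lamzI z), hX1, hX2]
    simp only
    congr 1
    · refine sum_congr rfl fun g _ => ?_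
      rw [lamI_nat]
    · refine sum_congr rfl fun g hg => ?_
      have := (mem_Icc.1 hg).1
      have h5 : 1 ≤ P * (g₀ + g) := Nat.mul_pos hP (by omega)
      rw [hlamzI _ (by omega)]
  have t2 : ∑ k ∈ K, |X3 k - X4 k| ≤ ((N / l + 1) * P : ℕ) * R := by
    refine le_trans (le_of_eq (sum_congr rfl fun k hk => ?_)) e2
    congr 1
    simp only [mul_sub, sum_sub_distrib]
    rw [s2 k hk lamI, s2 k hk (lamzI z), hX3, hX4]
    simp only
    congr 1
    · refine sum_congr rfl fun g _ => ?_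
      rw [lamI_nat]
    · refine sum_congr rfl fun g hg => ?_
      have := (mem_Icc.1 hg).1
      have h5 : 1 ≤ P * (g₀ + g) := Nat.mul_pos hP (by omega)
      rw [hlamzI _ (by omega)]
  -- comparison
  have u1 : ∀ k ∈ K, lN * X1 k ≤ ∑ g ∈ Icc 1 G, ArithmeticFunction.vonMangoldt (a k + P * (g₀ + g)) *
      ArithmeticFunction.vonMangoldt (b k + P * (g₀ + g)) := by
    intro k _
    rw [hX1]
    simp only
    rw [mul_sum]
    refine sum_le_sum fun g _ => ?_
    split_ifs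
    · apply le_of_eq
      field_simp
    · rw [mul_zero]
      exact mul_nonneg ArithmeticFunction.vonMangoldt_nonneg ArithmeticFunction.vonMangoldt_nonneg
  have u2 : ∀ k ∈ K, (Vz z)⁻¹ * X3 k ≤ lN * X2 k := by
    intro k _
    rw [hX2, hX3]
    simp only
    rw [mul_sum, mul_sum]
    refine sum_le_sum fun g _ => ?_
    have h5 : 0 ≤ ArithmeticFunction.vonMangoldt (a k + P * (g₀ + g)) * lamz z (b k + P * (g₀ + g)) :=
      mul_nonneg ArithmeticFunction.vonMangoldt_nonneg (lamz_nonneg _ _)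
    by_cases h : W2 l P g₀ G (b k / l) (b k + P * (g₀ + g))
    · rw [if_pos h, if_pos (W2_W1 hl g h)]
      apply le_of_eq
      field_simp
    · rw [if_neg h, mul_zero]
      split_ifs
      · have h6 : lN * (ArithmeticFunction.vonMangoldt (a k + P * (g₀ + g)) / lN * lamz z (b k + P * (g₀ + g))) =
            ArithmeticFunction.vonMangoldt (a k + P * (g₀ + g)) * lamz z (b k + P * (g₀ + g)) := by
          field_simp
        rw [h6]
        exact h5
      · rw [mul_zero]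
  have u3 : ∀ k ∈ K, (Vz z)⁻¹ ^ 2 * (MM a b P g₀ g₁ G' y z k : ℝ) ≤ (Vz z)⁻¹ * X4 k := by
    intro k hk
    have hrough : ∀ (s w : ℕ), (∀ p : ℕ, p.Prime → p ≤ y → ¬ p ∣ s) → (∀ p ∈ mid y z, ¬ p ∣ s + P * w) →
        lamz z (s + P * w) = (Vz z)⁻¹ := by
      intro s w hs h
      have h1 := lamz_eq 1 y z P s w hs hPy
      rw [pow_one, if_pos h] at h1
      exact h1
    rw [hX4]
    simp only
    rw [mul_sum]
    unfold MM
    have h1 : (Vz z)⁻¹ ^ 2 * (((Icc 1 G').filter (fun g => (∀ p ∈ mid y z, ¬ p ∣ (a k + P * (g₀ + g₁)) + P * g) ∧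
        (∀ p ∈ mid y z, ¬ p ∣ (b k + P * (g₀ + g₁)) + P * g))).card : ℝ) =
        ∑ g ∈ ((Icc 1 G').filter (fun g => (∀ p ∈ mid y z, ¬ p ∣ (a k + P * (g₀ + g₁)) + P * g) ∧
        (∀ p ∈ mid y z, ¬ p ∣ (b k + P * (g₀ + g₁)) + P * g))).image (fun g => g₁ + g), (Vz z)⁻¹ ^ 2 := by
      rw [sum_const, nsmul_eq_mul, card_image_of_injective _ (fun x y h => by
        have h' : g₁ + x = g₁ + y := h
        omega), mul_comm]
    rw [h1]
    refine le_trans (sum_le_sum fun g hg => ?_) (sum_le_sum_of_subset_of_nonneg (t := Icc 1 G) (f := fun g =>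
      (Vz z)⁻¹ * (if W2 l P g₀ G (b k / l) (b k + P * (g₀ + g)) then
      lamz z (b k + P * (g₀ + g)) * Vz z * lamz z (a k + P * (g₀ + g)) else 0)) ?_ ?_)
    · rw [mem_image] at hg
      obtain ⟨g', hg', rfl⟩ := hg
      rw [mem_filter, mem_Icc] at hg'
      obtain ⟨⟨h2, h3⟩, h4, h5⟩ := hg'
      have e3 : ∀ u : ℕ, u + P * (g₀ + (g₁ + g')) = (u + P * (g₀ + g₁)) + P * g' := fun u => by ring
      have h6 : 2 * l < P * (g₁ + g') := lt_of_lt_of_le hg₁ (Nat.mul_le_mul_left _ (by omega))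
      have h7 : P * (g₁ + g') + 2 * l ≤ P * G := by
        have h8 : P * (g₁ + g') + P * (g₁ + 1) ≤ P * G := by
          rw [← mul_add]
          exact Nat.mul_le_mul_left _ (by omega)
        omega
      have e4 : ∀ u : ℕ, u + P * (g₀ + (g₁ + g')) = u + P * (g₀ + g₁ + g') := fun u => by ring
      have r1 : lamz z (a k + P * (g₀ + (g₁ + g'))) = (Vz z)⁻¹ := by
        apply hrough _ _ (hay k hk)
        rw [e3]
        exact h4
      have r2 : lamz z (b k + P * (g₀ + (g₁ + g'))) = (Vz z)⁻¹ := by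
        apply hrough _ _ (hby k hk)
        rw [e3]
        exact h5
      rw [if_pos (W2_in hl h6 h7), r1, r2]
      apply le_of_eq
      field_simp
    · intro g hg
      rw [mem_image] at hg
      obtain ⟨g', hg', rfl⟩ := hg
      rw [mem_filter, mem_Icc] at hg'
      rw [mem_Icc]
      omega
    · intro g _ _
      apply mul_nonneg (inv_nonneg.2 hV.le)
      split_ifs
      · exact mul_nonneg (mul_nonneg (lamz_nonneg _ _) hV.le) (lamz_nonneg _ _)
      · exact le_rfl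
  -- the end
  set Q : ℝ := ((N / l + 1) * P : ℕ) * R with hQ
  have v1 : ∑ k ∈ K, X2 k - Q ≤ ∑ k ∈ K, X1 k := by
    have h1 : ∑ k ∈ K, (X2 k - X1 k) ≤ ∑ k ∈ K, |X1 k - X2 k| :=
      sum_le_sum fun k _ => by rw [abs_sub_comm]; exact le_abs_self _
    rw [sum_sub_distrib] at h1
    linarith
  have v2 : ∑ k ∈ K, X4 k - Q ≤ ∑ k ∈ K, X3 k := by
    have h1 : ∑ k ∈ K, (X4 k - X3 k) ≤ ∑ k ∈ K, |X3 k - X4 k| :=
      sum_le_sum fun k _ => by rw [abs_sub_comm]; exact le_abs_self _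
    rw [sum_sub_distrib] at h1
    linarith
  have v3 : lN * ∑ k ∈ K, X1 k ≤ LL K a b P g₀ G := by
    rw [mul_sum]
    exact sum_le_sum u1
  have v4 : (Vz z)⁻¹ * ∑ k ∈ K, X3 k ≤ lN * ∑ k ∈ K, X2 k := by
    rw [mul_sum, mul_sum]
    exact sum_le_sum u2
  have v5 : (Vz z)⁻¹ ^ 2 * ∑ k ∈ K, (MM a b P g₀ g₁ G' y z k : ℝ) ≤ (Vz z)⁻¹ * ∑ k ∈ K, X4 k := by
    rw [mul_sum, mul_sum]
    exact sum_le_sum u3
  have v6 := mul_le_mul_of_nonneg_left v1 hl0.le
  have v7 := mul_le_mul_of_nonneg_left v2 (inv_nonneg.2 hV.le)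
  have v8 : (lN + (Vz z)⁻¹) * Q = lN * Q + (Vz z)⁻¹ * Q := by ring
  rw [mul_sub] at v6 v7
  linarith

end Pool.Agent.P8H6.SS
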