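import Pool.Agent.P8H6.SS.Pp
import Pool.Agent.Y877.SxH

/-!
# The first moment
-/

set_option autoImplicit false

namespace Pool.Agent.P8H6.SS

open Finset Pool.Agent.H373R2.T7 Pool.Agent.Y877.SX

/-- the scale of the two sequences -/
noncomputable def NN (n : ℕ) : ℕ := ⌈(n : ℝ) * Real.log n ^ 5⌉₊ + n

lemma NN_facts (η : ℝ) (hη : 0 < η) : ∃ n₀ : ℕ, ∀ n : ℕ, n₀ ≤ n →
    (n : ℝ) ≤ NN n ∧ (NN n : ℝ) ≤ 2 * n * Real.log n ^ 5 ∧ Real.log n ≤ Real.log (NN n) ∧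
      Real.log (NN n) ≤ (1 + η) * Real.log n ∧ 2 ≤ Real.log n := by
  obtain ⟨n1, h1⟩ := ev_L' (max 2 ((11 / η) ^ 2 + 1))
  refine ⟨n1 + 2, fun n hn => ?_⟩
  have hL := h1 n (by omega)
  set L := Real.log n with hLd
  have hL2 : 2 ≤ L := (le_max_left _ _).trans hL
  have hL3 : (11 / η) ^ 2 + 1 ≤ L := (le_max_right _ _).trans hL
  have hn0 : (2 : ℝ) ≤ n := by exact_mod_cast (by omega : 2 ≤ n)
  have hL5 : 32 ≤ L ^ 5 := by
    calc (32 : ℝ) = 2 ^ 5 := by norm_num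
      _ ≤ L ^ 5 := pow_le_pow_left₀ (by norm_num) hL2 5
  have hN1 : (n : ℝ) ≤ NN n := by
    unfold NN
    push_cast
    have : (0 : ℝ) ≤ ⌈(n : ℝ) * Real.log n ^ 5⌉₊ := Nat.cast_nonneg _
    linarith
  have hN2 : (NN n : ℝ) ≤ 2 * n * L ^ 5 := by
    unfold NN
    push_cast
    have h2 : (⌈(n : ℝ) * Real.log n ^ 5⌉₊ : ℝ) < n * Real.log n ^ 5 + 1 := Nat.ceil_lt_add_one (by positivity)
    nlinarith
  refine ⟨hN1, hN2, Real.log_le_log (by linarith) hN1, ?_, hL2⟩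
  have h3 : Real.log (NN n) ≤ Real.log (2 * n * L ^ 5) := Real.log_le_log (by linarith) hN2
  have h4 : Real.log (2 * n * L ^ 5) = Real.log 2 + L + 5 * Real.log L := by
    rw [Real.log_mul (by positivity) (by positivity), Real.log_mul (by norm_num) (by linarith), Real.log_pow]
    push_cast
    ring
  have hL0 : 0 < L := by linarith
  have hs0 : 0 < √L := Real.sqrt_pos.2 hL0
  have h5 : Real.log L ≤ 2 * √L := by
    have h6 := Real.log_le_sub_one_of_pos hs0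
    rw [Real.log_sqrt hL0.le] at h6
    linarith
  have h7 : Real.log 2 ≤ 1 := by
    have := Real.log_two_lt_d9
    linarith
  have h8 : √L * √L = L := Real.mul_self_sqrt hL0.le
  have h9 : 11 / η ≤ √L := by
    apply Real.le_sqrt_of_sq_le
    linarith
  have h10 : 11 ≤ η * √L := by
    rw [div_le_iff₀ hη] at h9
    linarith
  have h11 : 1 ≤ √L := by
    apply Real.le_sqrt_of_sq_le
    linarith
  have h12 : 11 * √L ≤ η * L := by
    calc 11 * √L ≤ (η * √L) * √L := mul_le_mul_of_nonneg_right h10 hs0.le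
      _ = η * L := by rw [mul_assoc, h8]
  nlinarith

lemma ax1 (M m G : ℝ) (hM : 64 ≤ M) (h : 64 * (128 * M) ^ 2 + m ^ 2 ≤ G) : 128 * M ≤ G := by
  nlinarith [sq_nonneg m]

lemma ax2 (M m : ℝ) (hM : 64 ≤ M) : 64 ≤ 64 * (128 * M) ^ 2 + m ^ 2 := by
  nlinarith [sq_nonneg m]

lemma ax3 (M m : ℝ) (hM : 64 ≤ M) : m ≤ (64 * (128 * M) ^ 2 + m ^ 2) / 2 := by
  nlinarith [sq_nonneg (m - 1)]

lemma ax4 (M δ : ℝ) (hM : 64 ≤ M) (h : 64 ≤ M * δ) : 32 ≤ (δ / 16) * (64 * (128 * M) ^ 2) := by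
  have h1 : (64 : ℝ) * 64 ≤ (M * δ) * M := mul_le_mul h hM (by norm_num) (by linarith)
  nlinarith

lemma ax5 (δ : ℝ) (hδ : 0 < δ) (hδ1 : δ ≤ 1) : (1 + δ / 16) ^ 2 ≤ 1 + δ / 4 := by nlinarith

lemma ax6 (δ : ℝ) (hδ : 0 < δ) (hδ1 : δ ≤ 1) : (1 - δ) * (1 + δ / 4) ≤ 1 - δ / 2 := by nlinarith

lemma ax7 (δ G : ℝ) (hδ : 0 < δ) (hG : 0 < G) : (1 - δ / 4) * G ≤ ((1 - δ / 8) * G) * (1 - δ / 16) := by
  have h1 : 0 ≤ δ * δ * G := by positivity
  have h2 : 0 ≤ δ * G := by positivity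
  nlinarith

theorem first_moment (A C : ℕ) (δ : ℝ) (hδ : 0 < δ) (hδ1 : δ ≤ 1) : ∃ K₀ : ℕ, 2 ≤ K₀ ∧ ∀ K₁ : ℕ, ∃ n₀ : ℕ,
    ∀ n : ℕ, n₀ ≤ n → ∀ y : ℕ, K₀ ≤ y → (y : ℝ) ≤ K₁ * Real.log (Real.log n) →
    ∀ g₀ G : ℕ, primorial y * (g₀ + G) ≤ n → (n : ℝ) ≤ primorial y * G * Real.log n ^ C →
    ∀ K : Finset ℕ, (n : ℝ) ≤ K.card * Real.log n ^ A → ∀ a b : ℕ → ℕ,
    (∀ k ∈ K, (a k).Prime ∧ y < a k ∧ (a k : ℝ) ≤ n * Real.log n ^ 5) →
    (∀ k ∈ K, (b k).Prime ∧ y < b k ∧ (b k : ℝ) ≤ n * Real.log n ^ 5) →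
    Set.InjOn (fun k => (b k : ℤ) - a k) K →
    (1 - δ) * (K.card * G / (Vz y * Real.log n) ^ 2) ≤
      ∑ g ∈ Icc 1 G, (RR K a b (primorial y * (g₀ + g)) : ℝ) := by
  obtain ⟨M, hM⟩ := exists_nat_ge (64 / δ)
  obtain ⟨Y, hY⟩ := exists_nat_ge (16 / δ)
  have hM64 : (64 : ℝ) ≤ M := by
    refine le_trans ?_ hM
    rw [le_div_iff₀ hδ]
    linarith
  have hM0 : (0 : ℝ) < M := by linarith
  have hMδ : 64 ≤ M * δ := by rwa [div_le_iff₀ hδ] at hM
  refine ⟨Y + 2, by omega, fun K₁ => ?_⟩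
  set U : ℕ := 2 * C + 12 + 4 * K₁ with hU
  obtain ⟨B0, hB0⟩ := lamK (A + 6) U
  obtain ⟨m1, k1⟩ := hB0 (B0 + 3)
  obtain ⟨m2, k2⟩ := NN_facts (δ / 16) (by positivity)
  obtain ⟨m3, k3⟩ := Vz_inv_small (B0 + 3)
  obtain ⟨m4, k4⟩ := rough_pair (B0 + 4) 3
  obtain ⟨m5, k5⟩ := ev_log' (2 * (C + 2 * K₁) + 9) (64 * (128 * M) ^ 2 + m4 ^ 2)
  obtain ⟨m6, k6⟩ := ev_L' (max (320 * M / δ) (max (2 ^ (B0 + 5)) (max (256 / δ) ((2 * (K₁ + 1)) ^ 2 + 1))))
  refine ⟨m1 + m2 + m3 + m5 + m6 + 3, fun n hn y hy1 hy2 g₀ G hg1 hg2 K hK a b ha hb hinj => ?_⟩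
  set L := Real.log n with hLd
  obtain ⟨hN1, hN2, hN3, hN4, hL2⟩ := k2 n (by omega)
  rw [← hLd] at hN2 hN3 hN4 hL2
  set N := NN n with hNd
  set l := Real.log N with hld
  have hLbig := k6 n (by omega)
  rw [← hLd] at hLbig
  have q1 : 320 * M / δ ≤ L := (le_max_left _ _).trans hLbig
  have q2 : (2 : ℝ) ^ (B0 + 5) ≤ L := ((le_max_left _ _).trans (le_max_right _ _)).trans hLbig
  have q3 : 256 / δ ≤ L := (((le_max_left _ _).trans (le_max_right _ _)).trans (le_max_right _ _)).trans hLbig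
  have q4 : (2 * ((K₁ : ℝ) + 1)) ^ 2 + 1 ≤ L := (((le_max_right _ _).trans (le_max_right _ _)).trans (le_max_right _ _)).trans hLbig
  have hnN : n ≤ N := by exact_mod_cast hN1
  have hL0 : 0 < L := by linarith
  have hL1 : 1 ≤ L := by linarith
  have hl2 : 2 ≤ l := hL2.trans hN3
  have hl1 : 1 ≤ l := by linarith
  have hl0 : 0 < l := by linarith
  have hn3 : 3 ≤ n := by omega
  have hn0 : (0 : ℝ) < n := by exact_mod_cast (by omega : 0 < n)
  have hNpos : (0 : ℝ) < N := hn0.trans_le hN1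
  -- the primorial
  set P := primorial y with hPd
  have hP : 0 < P := primorial_pos y
  have hPr : (0 : ℝ) < P := by exact_mod_cast hP
  have hPL : (P : ℝ) ≤ L ^ (2 * K₁) := primorial_le_log K₁ y L (by
    have := Real.exp_one_lt_d9
    have h64 : (64 : ℝ) * 320 ≤ 320 * M / δ := by
      rw [le_div_iff₀ hδ]
      linarith
    linarith) hy2
  have hPl : (P : ℝ) ≤ l ^ (2 * K₁) := hPL.trans (pow_le_pow_left₀ hL0.le hN3 _)
  -- the length
  have hGpos : 0 < G := by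
    rcases Nat.eq_zero_or_pos G with h | h
    · rw [h] at hg2
      norm_num at hg2
      linarith
    · exact h
  have hGr : (0 : ℝ) < G := by exact_mod_cast hGpos
  have hsqrt := k5 n (by omega)
  rw [← hLd] at hsqrt
  have hsn0 : 0 < √(n : ℝ) := Real.sqrt_pos.2 hn0
  have hsn : √(n : ℝ) * √(n : ℝ) = n := Real.mul_self_sqrt hn0.le
  have hlogC : ∀ i j : ℕ, i ≤ j → L ^ i ≤ L ^ j := fun i j h => pow_le_pow_right₀ hL1 h
  -- `G ≥ √n * big`
  have hGbig : √(n : ℝ) * (64 * (128 * M) ^ 2 + m4 ^ 2) * L ^ 9 ≤ G := by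
    have h1 : (n : ℝ) ≤ G * L ^ (C + 2 * K₁) := by
      calc (n : ℝ) ≤ P * G * L ^ C := hg2
        _ ≤ L ^ (2 * K₁) * G * L ^ C := by gcongr
        _ = G * L ^ (C + 2 * K₁) := by ring
    have h2 : √(n : ℝ) * ((64 * (128 * M) ^ 2 + m4 ^ 2) * L ^ (2 * (C + 2 * K₁) + 9)) ≤ G * L ^ (C + 2 * K₁) := by
      calc √(n : ℝ) * ((64 * (128 * M) ^ 2 + m4 ^ 2) * L ^ (2 * (C + 2 * K₁) + 9)) ≤ √(n : ℝ) * √(n : ℝ) :=
            mul_le_mul_of_nonneg_left hsqrt hsn0.le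
        _ = n := hsn
        _ ≤ _ := h1
    have h3 : √(n : ℝ) * ((64 * (128 * M) ^ 2 + m4 ^ 2) * L ^ (2 * (C + 2 * K₁) + 9)) =
        (√(n : ℝ) * (64 * (128 * M) ^ 2 + m4 ^ 2) * L ^ 9 * L ^ (C + 2 * K₁)) * L ^ (C + 2 * K₁) := by ring
    rw [h3] at h2
    have h4 := le_of_mul_le_mul_right h2 (by positivity)
    have h5 : (1 : ℝ) ≤ L ^ (C + 2 * K₁) := one_le_pow₀ hL1
    refine le_trans ?_ h4
    have h6 : 0 ≤ √(n : ℝ) * (64 * (128 * M) ^ 2 + m4 ^ 2) * L ^ 9 := by positivity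
    exact le_mul_of_one_le_right h6 h5
  have hsn1 : 1 ≤ √(n : ℝ) := by
    rw [Real.one_le_sqrt]
    exact_mod_cast (by omega : 1 ≤ n)
  have hL9 : (1 : ℝ) ≤ L ^ 9 := one_le_pow₀ hL1
  have hGM : 64 * (128 * (M : ℝ)) ^ 2 + m4 ^ 2 ≤ G := by
    refine le_trans ?_ hGbig
    have h1 : (0 : ℝ) ≤ 64 * (128 * M) ^ 2 + m4 ^ 2 := by positivity
    calc 64 * (128 * (M : ℝ)) ^ 2 + (m4 : ℝ) ^ 2 = 1 * (64 * (128 * M) ^ 2 + m4 ^ 2) * 1 := by ring
      _ ≤ √(n : ℝ) * (64 * (128 * M) ^ 2 + m4 ^ 2) * L ^ 9 := by gcongr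
  have hG128 : 128 * (M : ℝ) ≤ G := ax1 M m4 G hM64 hGM
  -- the cells
  set ll := P * G / M with hll
  have hMn : 0 < M := by exact_mod_cast hM0
  have hll1 : (ll : ℝ) ≤ P * G / M := by
    have := Nat.cast_div_le (α := ℝ) (m := P * G) (n := M)
    push_cast at this
    exact this
  have hll2 : (P : ℝ) * G / (2 * M) ≤ ll := by
    have h1 : P * G < M * (ll + 1) := Nat.lt_mul_div_succ _ hMn
    have h2 : (P : ℝ) * G < M * (ll + 1) := by exact_mod_cast h1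
    have h3 : (1 : ℝ) ≤ P := by exact_mod_cast hP
    have h4 : 128 * (M : ℝ) ≤ P * G := hG128.trans (le_mul_of_one_le_left hGr.le h3)
    rw [div_le_iff₀ (by positivity)]
    linarith
  have hllp : 0 < ll := by
    have h3 : (1 : ℝ) ≤ P := by exact_mod_cast hP
    have h4 : (0 : ℝ) < P * G / (2 * M) := by positivity
    exact_mod_cast h4.trans_le hll2
  set g₁ := 2 * ll / P with hg₁
  have hg₁1 : 2 * ll < P * (g₁ + 1) := Nat.lt_mul_div_succ _ hP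
  have hg₁2 : (g₁ : ℝ) ≤ 2 * G / M := by
    have h1 : (g₁ : ℝ) ≤ ((2 * ll : ℕ) : ℝ) / P := Nat.cast_div_le
    refine h1.trans ?_
    push_cast
    rw [div_le_div_iff₀ hPr hM0]
    have h2 : (ll : ℝ) * M ≤ P * G := by rwa [le_div_iff₀ hM0] at hll1
    linarith
  set G' := G - (2 * g₁ + 1) with hG'
  have hg₁3 : 2 * (g₁ : ℝ) + 1 ≤ (δ / 8) * G := by
    have h1 : 2 * (2 * (G : ℝ) / M) ≤ (δ / 16) * G := by
      rw [← mul_div_assoc, div_le_iff₀ hM0]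
      have := mul_le_mul_of_nonneg_right hMδ hGr.le
      linarith
    have h2 : 1 ≤ (δ / 16) * G := by
      have := mul_le_mul_of_nonneg_left hG128 hδ.le
      linarith
    linarith
  have hδG : (δ / 8) * G ≤ (1 / 8) * G := mul_le_mul_of_nonneg_right (by linarith) hGr.le
  have hg₁4 : 2 * g₁ + 1 ≤ G := by
    have h1 : ((2 * g₁ + 1 : ℕ) : ℝ) ≤ G := by
      push_cast
      linarith
    exact_mod_cast h1
  have hG'r : (G' : ℝ) = G - (2 * g₁ + 1) := by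
    rw [hG', Nat.cast_sub hg₁4]
    push_cast
    ring
  have hG'1 : (1 - δ / 8) * G ≤ G' := by
    rw [hG'r]
    linarith
  have hG'2 : (G' : ℝ) ≤ G := by
    rw [hG'r]
    have : (0 : ℝ) ≤ g₁ := Nat.cast_nonneg _
    linarith
  have hG'3 : (G : ℝ) / 2 ≤ G' := by
    have : (1 - δ / 8) * (G : ℝ) = G - (δ / 8) * G := by ring
    linarith
  -- `log G' ≥ l / 2`
  have hNsq : (N : ℝ) ≤ (G' : ℝ) ^ 2 := by
    have h1 : (N : ℝ) ≤ 2 * n * L ^ 5 := hN2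
    have h2 : √(n : ℝ) * 64 * L ^ 9 ≤ G := by
      refine le_trans ?_ hGbig
      have h3 : (64 : ℝ) ≤ 64 * (128 * M) ^ 2 + m4 ^ 2 := ax2 M m4 hM64
      gcongr
    have h4 : √(n : ℝ) * 32 * L ^ 9 ≤ G' := by linarith
    have h5 : (√(n : ℝ) * 32 * L ^ 9) ^ 2 ≤ (G' : ℝ) ^ 2 := pow_le_pow_left₀ (by positivity) h4 2
    refine h1.trans (le_trans ?_ h5)
    have h6 : (√(n : ℝ) * 32 * L ^ 9) ^ 2 = 1024 * n * L ^ 18 := by
      calc (√(n : ℝ) * 32 * L ^ 9) ^ 2 = (√(n : ℝ) * √(n : ℝ)) * 1024 * L ^ 18 := by ring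
        _ = _ := by rw [hsn]; ring
    rw [h6]
    have h7 := hlogC 5 18 (by norm_num)
    have h8 : 0 ≤ (n : ℝ) * L ^ 18 := by positivity
    calc 2 * (n : ℝ) * L ^ 5 ≤ 2 * n * L ^ 18 := by gcongr
      _ ≤ _ := by linarith
  have hG'0 : (0 : ℝ) < G' := by linarith
  have hlogG' : l / 2 ≤ Real.log G' := by
    have h1 := Real.log_le_log hNpos hNsq
    rw [Real.log_pow] at h1
    push_cast at h1
    linarith
  have hm4 : m4 ≤ G' := by
    have h1 : (m4 : ℝ) ≤ G' := by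
      have h2 : (m4 : ℝ) ≤ (64 * (128 * M) ^ 2 + m4 ^ 2) / 2 := ax3 M m4 hM64
      linarith
    exact_mod_cast h1
  -- the sieve parameter
  set z := ⌈l ^ (B0 + 1)⌉₊ with hz
  have hz1 : l ^ (B0 + 1) ≤ z := Nat.le_ceil _
  have hz2 : (z : ℝ) ≤ l ^ (B0 + 2) := by
    have h1 : (z : ℝ) < l ^ (B0 + 1) + 1 := Nat.ceil_lt_add_one (by positivity)
    have h2 : 1 ≤ l ^ (B0 + 1) := one_le_pow₀ hl1
    have h3 : l ^ (B0 + 2) = l ^ (B0 + 1) * l := by ring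
    have h4 : l ^ (B0 + 1) * 2 ≤ l ^ (B0 + 1) * l := mul_le_mul_of_nonneg_left hl2 (by positivity)
    linarith
  have hz3 : (z : ℝ) ≤ l ^ (B0 + 3) := hz2.trans (pow_le_pow_right₀ hl1 (by omega))
  have hz0 : l ^ B0 ≤ z := (pow_le_pow_right₀ hl1 (by omega)).trans hz1
  have hz1' : 1 ≤ z := by
    have : (1 : ℝ) ≤ z := (one_le_pow₀ hl1).trans hz1
    exact_mod_cast this
  have hz4 : (z : ℝ) ≤ Real.log G' ^ (B0 + 4) := by
    have h1 : (l / 2) ^ (B0 + 4) ≤ Real.log G' ^ (B0 + 4) := pow_le_pow_left₀ (by positivity) hlogG' _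
    refine hz3.trans (le_trans ?_ h1)
    rw [div_pow, le_div_iff₀ (by positivity)]
    have h2 : (2 : ℝ) ^ (B0 + 4) ≤ l := by
      refine le_trans ?_ (q2.trans hN3)
      exact pow_le_pow_right₀ (by norm_num) (by omega)
    calc l ^ (B0 + 3) * 2 ^ (B0 + 4) ≤ l ^ (B0 + 3) * l := by gcongr
      _ = l ^ (B0 + 4) := by ring
  have hyz : y ≤ z := by
    have h1 : (y : ℝ) ≤ z := by
      have hs0 : 0 < √L := Real.sqrt_pos.2 hL0
      have h5 : Real.log L ≤ 2 * √L := by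
        have h6 := Real.log_le_sub_one_of_pos hs0
        rw [Real.log_sqrt hL0.le] at h6
        linarith
      have h8 : √L * √L = L := Real.mul_self_sqrt hL0.le
      have h9 : 2 * ((K₁ : ℝ) + 1) ≤ √L := by
        apply Real.le_sqrt_of_sq_le
        linarith
      have h10 : (0 : ℝ) ≤ K₁ := Nat.cast_nonneg _
      have h11 : (y : ℝ) ≤ L := by
        calc (y : ℝ) ≤ K₁ * Real.log L := hy2
          _ ≤ K₁ * (2 * √L) := mul_le_mul_of_nonneg_left h5 h10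
          _ = (2 * K₁) * √L := by ring
          _ ≤ √L * √L := mul_le_mul_of_nonneg_right (by linarith) hs0.le
          _ = L := h8
      have h12 : l ≤ l ^ (B0 + 1) := by
        calc l = l ^ 1 := (pow_one l).symm
          _ ≤ l ^ (B0 + 1) := pow_le_pow_right₀ hl1 (by omega)
      linarith
    exact_mod_cast h1
  -- bounds for the sequences
  have haN : ∀ k ∈ K, a k + P * (g₀ + G) ≤ N := by
    intro k hk
    have h1 : a k ≤ ⌈(n : ℝ) * Real.log n ^ 5⌉₊ := Nat.le_of_lt_succ (by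
      have h2 : (a k : ℝ) ≤ ⌈(n : ℝ) * Real.log n ^ 5⌉₊ := (ha k hk).2.2.trans (Nat.le_ceil _)
      exact Nat.lt_succ_of_le (by exact_mod_cast h2))
    rw [hNd]
    unfold NN
    omega
  have hbN : ∀ k ∈ K, b k + P * (g₀ + G) ≤ N := by
    intro k hk
    have h1 : b k ≤ ⌈(n : ℝ) * Real.log n ^ 5⌉₊ := Nat.le_of_lt_succ (by
      have h2 : (b k : ℝ) ≤ ⌈(n : ℝ) * Real.log n ^ 5⌉₊ := (hb k hk).2.2.trans (Nat.le_ceil _)
      exact Nat.lt_succ_of_le (by exact_mod_cast h2))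
    rw [hNd]
    unfold NN
    omega
  have hKN : (N : ℝ) ≤ l ^ (A + 6) * K.card := by
    have h1 : (0 : ℝ) ≤ K.card := Nat.cast_nonneg _
    calc (N : ℝ) ≤ 2 * n * L ^ 5 := hN2
      _ ≤ 2 * (K.card * L ^ A) * L ^ 5 := by gcongr
      _ = 2 * (K.card * L ^ (A + 5)) := by ring
      _ ≤ l * (K.card * l ^ (A + 5)) := by gcongr
      _ = l ^ (A + 6) * K.card := by ring
  -- the chain
  set R : ℝ := N * K.card / l ^ U with hR
  have hdiff : ∀ k ∈ K, |(b k : ℤ) - a k| ≤ N := by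
    intro k hk
    have h1 := haN k hk
    have h2 := hbN k hk
    rw [abs_le]
    constructor
    · omega
    · omega
  have hR1 : ∀ F : ℕ → ℝ, (∀ m, |F m| ≤ 1) → ∑ k ∈ K, |∑ m ∈ Icc 1 N, F m *
      (lamI (m + ((b k : ℤ) - a k)) - lamzI z (m + ((b k : ℤ) - a k)))| ≤ R := fun F hF =>
    k1 N (by omega) K (fun k => (b k : ℤ) - a k) hinj hdiff hKN z hz0 hz3 F hF
  have hR2 : ∀ F : ℕ → ℝ, (∀ m, |F m| ≤ 1) → ∑ k ∈ K, |∑ m ∈ Icc 1 N, F m *
      (lamI (m + ((a k : ℤ) - b k)) - lamzI z (m + ((a k : ℤ) - b k)))| ≤ R := fun F hF =>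
    k1 N (by omega) K (fun k => (a k : ℤ) - b k) (fun k hk k' hk' h => hinj hk hk' (by
      have h' : (a k : ℤ) - b k = (a k' : ℤ) - b k' := h
      show (b k : ℤ) - a k = (b k' : ℤ) - a k'
      linarith)) (fun k hk => by
      have := hdiff k hk
      rwa [abs_sub_comm]) hKN z hz0 hz3 F hF
  have hnd : ∀ s : ℕ, s.Prime → y < s → ∀ p : ℕ, p.Prime → p ≤ y → ¬ p ∣ s := by
    intro s hs hys p hp hpy hd
    have := (Nat.prime_dvd_prime_iff_eq hp hs).1 hd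
    omega
  have hchain := chain K a b N P g₀ G ll y z hP hllp R (by omega) haN hbN hR1 hR2
    (fun k hk => hnd _ (ha k hk).1 (ha k hk).2.1) (fun k hk => hnd _ (hb k hk).1 (hb k hk).2.1)
    (fun p hp hpy => hp.dvd_primorial_iff.2 hpy) g₁ G' hg₁1 (by omega)
  have hLL := LL_le K a b N P g₀ G hP (by omega) haN hbN
  rw [← hld] at hchain hLL
  -- the model
  have hVy := Vz_pos' y
  have hVz := Vz_pos' z
  have hVzi : (Vz z)⁻¹ ≤ l := k3 N (by omega) z hz1' hz3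
  have hMM : ∀ k ∈ K, (G' : ℝ) * ((1 - 1 / (y : ℝ)) * Vm y z ^ 2) - G' / Real.log G' ^ 3 ≤
      (MM a b P g₀ g₁ G' y z k : ℝ) := by
    intro k _
    exact k4 G' hm4 z hz1' hz4 y P _ _ (by omega) hyz (by
      intro p hp hd
      have h1 := mem_mid.1 hp
      have h2 := h1.2.2.dvd_primorial_iff.1 hd
      omega)
  have hsum : K.card * ((G' : ℝ) * ((1 - 1 / (y : ℝ)) * Vm y z ^ 2) - G' / Real.log G' ^ 3) ≤
      ∑ k ∈ K, (MM a b P g₀ g₁ G' y z k : ℝ) := by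
    rw [← nsmul_eq_mul, ← sum_const]
    exact sum_le_sum hMM
  set Sr := ∑ g ∈ Icc 1 G, (RR K a b (P * (g₀ + g)) : ℝ) with hSr
  have hS0 : 0 ≤ Sr := sum_nonneg fun _ _ => Nat.cast_nonneg _
  set κ : ℝ := (K.card : ℝ) with hκ
  have hκ0 : 0 ≤ κ := Nat.cast_nonneg _
  have hVsplit := Vz_split y z hyz
  have hVyle : Vz y ≤ 1 := by
    unfold Vz
    exact prod_le_one (fun p hp => (fac_pos (mem_pz.1 hp).2).le) (fun p _ => fac_le)
  have hW1 : 1 ≤ (Vz y)⁻¹ ^ 2 := one_le_pow₀ ((one_le_inv₀ hVy).2 hVyle)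
  set W : ℝ := (Vz y)⁻¹ ^ 2 with hWd
  -- main term
  have hmain : (Vz z)⁻¹ ^ 2 * (κ * ((G' : ℝ) * ((1 - 1 / (y : ℝ)) * Vm y z ^ 2) - G' / Real.log G' ^ 3)) ≥
      κ * (G * W * (1 - δ / 4) - (δ / 16) * G) := by
    have hVm := Vm_pos y z
    have h1 : (Vz z)⁻¹ ^ 2 * Vm y z ^ 2 = W := by
      rw [hWd, hVsplit]
      field_simp
    have h2 : (Vz z)⁻¹ ^ 2 * (κ * ((G' : ℝ) * ((1 - 1 / (y : ℝ)) * Vm y z ^ 2) - G' / Real.log G' ^ 3)) =
        κ * (G' * (1 - 1 / (y : ℝ)) * ((Vz z)⁻¹ ^ 2 * Vm y z ^ 2) - (Vz z)⁻¹ ^ 2 * (G' / Real.log G' ^ 3)) := by ring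
    rw [h2, h1, ge_iff_le]
    apply mul_le_mul_of_nonneg_left _ hκ0
    have hyr : (16 / δ : ℝ) ≤ y := hY.trans (by exact_mod_cast (by omega : Y ≤ y))
    have hy0 : (0 : ℝ) < y := by exact_mod_cast (by omega : 0 < y)
    have h3 : 1 / (y : ℝ) ≤ δ / 16 := by
      rw [div_le_iff₀ hδ] at hyr
      rw [div_le_div_iff₀ hy0 (by norm_num)]
      linarith
    have h4 : (1 - δ / 4) * G ≤ G' * (1 - 1 / (y : ℝ)) := by
      calc (1 - δ / 4) * (G : ℝ) ≤ ((1 - δ / 8) * G) * (1 - δ / 16) := ax7 δ G hδ hGr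
        _ ≤ G' * (1 - 1 / (y : ℝ)) := mul_le_mul hG'1 (by linarith) (by linarith) hG'0.le
    have h5 : (Vz z)⁻¹ ^ 2 * (G' / Real.log G' ^ 3) ≤ (δ / 16) * G := by
      have h6 : (Vz z)⁻¹ ^ 2 ≤ l ^ 2 := pow_le_pow_left₀ (inv_nonneg.2 hVz.le) hVzi 2
      have h7 : (G' : ℝ) / Real.log G' ^ 3 ≤ G / (l / 2) ^ 3 := by gcongr
      calc (Vz z)⁻¹ ^ 2 * (G' / Real.log G' ^ 3) ≤ l ^ 2 * (G / (l / 2) ^ 3) :=
            mul_le_mul h6 h7 (by positivity) (by positivity)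
        _ = 8 * G / l := by
            field_simp
            ring
        _ ≤ (δ / 16) * G := by
            rw [div_le_iff₀ hl0]
            have h8 : 256 ≤ δ * l := by
              have := q3.trans hN3
              rw [div_le_iff₀ hδ] at this
              linarith
            have h9 := mul_le_mul_of_nonneg_left h8 hGr.le
            linarith
    have h9 : (1 - δ / 4) * G * W ≤ G' * (1 - 1 / (y : ℝ)) * W := mul_le_mul_of_nonneg_right h4 (by linarith)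
    have h10 : G * W * (1 - δ / 4) = (1 - δ / 4) * G * W := by ring
    linarith
  -- the error of the bilinear step
  have herr : (l + (Vz z)⁻¹) * (((N / ll + 1) * P : ℕ) * R) ≤ κ * ((δ / 16) * G) := by
    have hllr : (0 : ℝ) < ll := by exact_mod_cast hllp
    have hn2 : (n : ℝ) ≤ P * G * l ^ C := by
      refine hg2.trans ?_
      gcongr
    have hN5 : (N : ℝ) ≤ 2 * (P * G * l ^ (C + 5)) := by
      calc (N : ℝ) ≤ 2 * n * L ^ 5 := hN2
        _ ≤ 2 * (P * G * l ^ C) * l ^ 5 := by gcongr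
        _ = _ := by ring
    have h1 : ((N / ll : ℕ) : ℝ) ≤ 4 * M * l ^ (C + 5) := by
      refine Nat.cast_div_le.trans ?_
      rw [div_le_iff₀ hllr]
      calc (N : ℝ) ≤ 2 * (P * G * l ^ (C + 5)) := hN5
        _ = 4 * M * l ^ (C + 5) * (P * G / (2 * M)) := by
            field_simp
            ring
        _ ≤ 4 * M * l ^ (C + 5) * ll := by gcongr
    have h2 : (((N / ll + 1) * P : ℕ) : ℝ) ≤ 5 * M * l ^ (C + 5 + 2 * K₁) := by
      push_cast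
      have h3 : (1 : ℝ) ≤ l ^ (C + 5) := one_le_pow₀ hl1
      calc (((N / ll : ℕ) : ℝ) + 1) * P ≤ (4 * M * l ^ (C + 5) + 1) * l ^ (2 * K₁) := by gcongr
        _ ≤ (5 * M * l ^ (C + 5)) * l ^ (2 * K₁) := by
            apply mul_le_mul_of_nonneg_right _ (by positivity)
            have h10 : (1 : ℝ) ≤ M * l ^ (C + 5) := one_le_mul_of_one_le_of_one_le (by linarith) h3
            linarith
        _ = _ := by ring
    have h4 : R ≤ 2 * G * l ^ (C + 5 + 2 * K₁) * κ / l ^ U := by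
      rw [hR]
      apply div_le_div_of_nonneg_right _ (by positivity)
      apply mul_le_mul_of_nonneg_right _ hκ0
      calc (N : ℝ) ≤ 2 * (P * G * l ^ (C + 5)) := hN5
        _ ≤ 2 * (l ^ (2 * K₁) * G * l ^ (C + 5)) := by gcongr
        _ = _ := by ring
    have hR0 : 0 ≤ R := by
      rw [hR]
      positivity
    calc (l + (Vz z)⁻¹) * (((N / ll + 1) * P : ℕ) * R)
        ≤ (2 * l) * ((5 * M * l ^ (C + 5 + 2 * K₁)) * (2 * G * l ^ (C + 5 + 2 * K₁) * κ / l ^ U)) := by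
          apply mul_le_mul (by linarith) _ (by positivity) (by positivity)
          exact mul_le_mul h2 h4 hR0 (by positivity)
      _ = 20 * M * G * κ * (l ^ (2 * C + 11 + 4 * K₁) / l ^ U) := by ring
      _ = 20 * M * G * κ * (1 / l) := by
          congr 1
          rw [hU, div_eq_div_iff (by positivity) hl0.ne']
          ring
      _ ≤ κ * ((δ / 16) * G) := by
          have h8 : 320 * M ≤ δ * l := by
            have := q1.trans hN3
            rw [div_le_iff₀ hδ] at this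
            linarith
          have h9 : 20 * (M : ℝ) * (1 / l) ≤ δ / 16 := by
            rw [mul_one_div, div_le_iff₀ hl0]
            linarith
          calc 20 * M * G * κ * (1 / l) = (20 * M * (1 / l)) * (G * κ) := by ring
            _ ≤ (δ / 16) * (G * κ) := mul_le_mul_of_nonneg_right h9 (by positivity)
            _ = _ := by ring
  -- prime powers
  have hpp : κ * (4 * √(N : ℝ) * l ^ 2) ≤ κ * ((δ / 16) * G) := by
    apply mul_le_mul_of_nonneg_left _ hκ0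
    have h1 : √(N : ℝ) ≤ √(n : ℝ) * (2 * L ^ 5) := by
      rw [Real.sqrt_le_left (by positivity)]
      calc (N : ℝ) ≤ 2 * n * L ^ 5 := hN2
        _ ≤ n * (4 * L ^ 10) := by
            have h3 := hlogC 5 10 (by norm_num)
            have h4 : 0 ≤ (n : ℝ) * L ^ 10 := by positivity
            calc 2 * (n : ℝ) * L ^ 5 ≤ 2 * n * L ^ 10 := by gcongr
              _ ≤ _ := by linarith
        _ = (√(n : ℝ) * (2 * L ^ 5)) ^ 2 := by
            rw [mul_pow, sq (√(n : ℝ)), hsn]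
            ring
    have h2 : l ≤ 2 * L := by
      have : (1 + δ / 16) * L ≤ 2 * L := mul_le_mul_of_nonneg_right (by linarith) hL0.le
      linarith
    have h5 : 64 * (128 * (M : ℝ)) ^ 2 * √(n : ℝ) * L ^ 9 ≤ G := by
      refine le_trans ?_ hGbig
      have : 64 * (128 * (M : ℝ)) ^ 2 ≤ 64 * (128 * M) ^ 2 + m4 ^ 2 := le_add_of_nonneg_right (sq_nonneg (m4 : ℝ))
      calc 64 * (128 * (M : ℝ)) ^ 2 * √(n : ℝ) * L ^ 9 = √(n : ℝ) * (64 * (128 * (M : ℝ)) ^ 2) * L ^ 9 := by ring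
        _ ≤ _ := by gcongr
    calc 4 * √(N : ℝ) * l ^ 2 ≤ 4 * (√(n : ℝ) * (2 * L ^ 5)) * (2 * L) ^ 2 := by gcongr
      _ = 32 * √(n : ℝ) * L ^ 7 := by ring
      _ ≤ 32 * √(n : ℝ) * L ^ 9 := by
          have h3 := hlogC 7 9 (by norm_num)
          gcongr
      _ ≤ (δ / 16) * (64 * (128 * M) ^ 2 * √(n : ℝ) * L ^ 9) := by
          have h6 : 0 ≤ √(n : ℝ) * L ^ 9 := by positivity
          have h7 : 32 ≤ (δ / 16) * (64 * (128 * (M : ℝ)) ^ 2) := ax4 M δ hM64 hMδ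
          calc 32 * √(n : ℝ) * L ^ 9 = 32 * (√(n : ℝ) * L ^ 9) := by ring
            _ ≤ ((δ / 16) * (64 * (128 * (M : ℝ)) ^ 2)) * (√(n : ℝ) * L ^ 9) := mul_le_mul_of_nonneg_right h7 h6
            _ = _ := by ring
      _ ≤ (δ / 16) * G := mul_le_mul_of_nonneg_left h5 (by positivity)
  -- the end
  have hfin : κ * G * W * (1 - δ / 2) ≤ l ^ 2 * Sr := by
    have h1 := mul_le_mul_of_nonneg_left hsum (by positivity : 0 ≤ (Vz z)⁻¹ ^ 2)
    have h2 : κ * G ≤ κ * G * W := le_mul_of_one_le_right (by positivity) hW1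
    have h3 : κ * (G * W * (1 - δ / 4) - (δ / 16) * G) - κ * ((δ / 16) * G) - κ * ((δ / 16) * G) ≤ l ^ 2 * Sr := by
      linarith
    have h4 : δ * (κ * G) ≤ δ * (κ * G * W) := mul_le_mul_of_nonneg_left h2 hδ.le
    have h5 : 0 ≤ δ * (κ * G * W) := by positivity
    have h6 : κ * (G * W * (1 - δ / 4) - (δ / 16) * G) - κ * ((δ / 16) * G) - κ * ((δ / 16) * G) =
        κ * G * W - (1 / 4) * (δ * (κ * G * W)) - (3 / 16) * (δ * (κ * G)) := by ring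
    have h7 : κ * G * W * (1 - δ / 2) = κ * G * W - (1 / 2) * (δ * (κ * G * W)) := by ring
    rw [h6] at h3
    rw [h7]
    linarith
  have hl2L : l ^ 2 ≤ (1 + δ / 4) * L ^ 2 := by
    have h1 : l ^ 2 ≤ ((1 + δ / 16) * L) ^ 2 := pow_le_pow_left₀ hl0.le hN4 2
    refine h1.trans ?_
    rw [mul_pow]
    exact mul_le_mul_of_nonneg_right (ax5 δ hδ hδ1) (by positivity)
  have h1 : κ * G * W * (1 - δ / 2) ≤ (1 + δ / 4) * L ^ 2 * Sr := hfin.trans (mul_le_mul_of_nonneg_right hl2L hS0)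
  have h2 : (1 - δ) * (κ * G * W) * (1 + δ / 4) ≤ κ * G * W * (1 - δ / 2) := by
    have h3 : 0 ≤ κ * G * W := by positivity
    have h4 := mul_le_mul_of_nonneg_left (ax6 δ hδ hδ1) h3
    linarith
  have h3 : (1 - δ) * (κ * G * W) ≤ L ^ 2 * Sr := by
    have h4 : 0 < 1 + δ / 4 := by linarith
    have h5 : (1 - δ) * (κ * G * W) * (1 + δ / 4) ≤ (L ^ 2 * Sr) * (1 + δ / 4) := by linarith
    exact le_of_mul_le_mul_right h5 h4
  have h4 : κ * G / (Vz y * L) ^ 2 = κ * G * W / L ^ 2 := by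
    rw [hWd, mul_pow, inv_pow]
    field_simp
  rw [h4, ← mul_div_assoc, div_le_iff₀ (by positivity)]
  linarith

end Pool.Agent.P8H6.SS
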