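import Pool.Agent.P8H6.SS.Stm
import Pool.Agent.Y877.SxE
import Pool.Agent.Y877.SxB
import Pool.Agent.H560R3.GB.LamE

/-!
# The von Mangoldt function minus its model along dense injective families, with weights depending on a class
-/

set_option autoImplicit false

namespace Pool.Agent.P8H6.SS

open Finset Pool.Agent.H373R2.T7 Pool.Agent.Y877.SX

lemma energy_one (x : ℕ) (s : ℕ → ℤ) (hs : Set.InjOn s (Icc 1 x : Finset ℕ)) : energy 1 x s ≤ x := by
  unfold energy
  calc _ ≤ (Icc 1 x).card := by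
        refine card_le_card_of_injOn (fun q => q.1 0) ?_ ?_
        · intro q hq
          rw [mem_coe, mem_filter, mem_product, Fintype.mem_piFinset, Fintype.mem_piFinset] at hq
          exact mem_coe.2 (hq.1.1 0)
        · intro q hq q' hq' h
          rw [mem_coe, mem_filter, mem_product, Fintype.mem_piFinset, Fintype.mem_piFinset] at hq hq'
          obtain ⟨⟨h1, h2⟩, h3⟩ := hq
          obtain ⟨⟨h1', h2'⟩, h3'⟩ := hq'
          rw [Fin.sum_univ_one, Fin.sum_univ_one] at h3 h3'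
          have h4 : q.1 0 = q'.1 0 := h
          have h5 : q.2 0 = q'.2 0 := by
            apply hs (mem_coe.2 (h2 0)) (mem_coe.2 (h2' 0))
            rw [← h3, ← h3', h4]
          apply Prod.ext
          · funext i
            rw [Fin.fin_one_eq_zero i, h4]
          · funext i
            rw [Fin.fin_one_eq_zero i, h5]
    _ = x := by rw [Nat.card_Icc]; omega

/-- the first moment over a dense injective family -/
lemma lamK (C U : ℕ) :
    ∃ B0 : ℕ, ∀ E : ℕ, ∃ N0 : ℕ, ∀ N : ℕ, N0 ≤ N → ∀ (K : Finset ℕ) (s : ℕ → ℤ), Set.InjOn s K →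
    (∀ k ∈ K, |s k| ≤ N) → (N : ℝ) ≤ Real.log N ^ C * K.card →
    ∀ z : ℕ, Real.log N ^ B0 ≤ z → (z : ℝ) ≤ Real.log N ^ E →
    ∀ G : ℕ → ℝ, (∀ a, |G a| ≤ 1) →
    ∑ k ∈ K, |∑ a ∈ Icc 1 N, G a * (lamI (a + s k) - lamzI z (a + s k))| ≤ N * K.card / Real.log N ^ U := by
  obtain ⟨B0, h0⟩ := Pool.Agent.H560R3.GB.lam_e 1 1 C U
  refine ⟨B0, fun E => ?_⟩
  obtain ⟨N0, h1⟩ := h0 E
  refine ⟨N0, fun N hN K s hinj hs hK z hz1 hz2 G hG => ?_⟩
  set x := K.card with hx
  set e := K.equivFin with he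
  set s' : ℕ → ℤ := fun m => if h : 1 ≤ m ∧ m ≤ x then s (e.symm ⟨m - 1, by omega⟩) else 0 with hs'
  have hs'e : ∀ i : Fin x, s' (i + 1) = s (e.symm i) := by
    intro i
    have h := i.2
    rw [hs']
    simp only
    rw [dif_pos ⟨by omega, by omega⟩]
    congr 3
  have hmem : ∀ m ∈ Icc 1 x, ∃ i : Fin x, m = i + 1 := by
    intro m hm
    rw [mem_Icc] at hm
    exact ⟨⟨m - 1, by omega⟩, by simp; omega⟩
  have hinj' : Set.InjOn s' (Icc 1 x : Finset ℕ) := by
    intro m hm m' hm' h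
    obtain ⟨i, rfl⟩ := hmem m (mem_coe.1 hm)
    obtain ⟨i', rfl⟩ := hmem m' (mem_coe.1 hm')
    rw [hs'e, hs'e] at h
    have h2 := hinj (mem_coe.2 (e.symm i).2) (mem_coe.2 (e.symm i').2) h
    have h3 : e.symm i = e.symm i' := Subtype.ext h2
    rw [e.symm.injective h3]
  have h2 := h1 N hN x s' (fun m hm => by
    obtain ⟨i, rfl⟩ := hmem m hm
    rw [hs'e]
    have := hs _ (e.symm i).2
    push_cast
    linarith) (by
    have h3 : (energy 1 x s' : ℝ) ≤ x := by exact_mod_cast energy_one x s' hinj'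
    have h4 : (0 : ℝ) ≤ N := Nat.cast_nonneg N
    calc (energy 1 x s' : ℝ) * N ≤ x * N := mul_le_mul_of_nonneg_right h3 h4
      _ ≤ x * (Real.log N ^ C * x) := mul_le_mul_of_nonneg_left hK (Nat.cast_nonneg x)
      _ = Real.log N ^ C * (x : ℝ) ^ (2 * 1) := by ring) N (by omega) z hz1 hz2 (fun a => (G a : ℂ)) (fun a => by
    rw [Complex.norm_real]
    exact hG a)
  refine le_trans (le_of_eq ?_) h2
  have e1 : ∀ F : ℤ → ℝ, ∑ m ∈ Icc 1 x, F (s' m) = ∑ k ∈ K, F (s k) := by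
    intro F
    have e2 : ∑ m ∈ Icc 1 x, F (s' m) = ∑ i : Fin x, F (s' (i + 1)) := by
      rw [← Finset.sum_range (fun i => F (s' (i + 1)))]
      have e0 : Icc 1 x = (range x).image (fun i => i + 1) := by
        ext m
        rw [mem_Icc, mem_image]
        constructor
        · intro h
          exact ⟨m - 1, by rw [mem_range]; omega, by omega⟩
        · rintro ⟨i, hi, rfl⟩
          rw [mem_range] at hi
          omega
      rw [e0, sum_image (fun a _ b _ h => by
        have h' : a + 1 = b + 1 := h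
        omega)]
    rw [e2]
    have e3 : ∑ i : Fin x, F (s' (i + 1)) = ∑ i : Fin x, F (s (e.symm i)) := sum_congr rfl fun i _ => by rw [hs'e]
    have e4 : ∑ i : Fin x, F (s (e.symm i)) = ∑ k : K, F (s k) := Equiv.sum_comp e.symm (fun k : K => F (s k))
    rw [e3, e4]
    exact Finset.sum_coe_sort K (fun k => F (s k))
  rw [← e1 (fun u => |∑ a ∈ Icc 1 N, G a * (lamI (a + u) - lamzI z (a + u))|)]
  refine sum_congr rfl fun m _ => ?_
  rw [← Real.norm_eq_abs, ← Complex.norm_real]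
  congr 1
  push_cast
  rfl

/-- weights which depend on a class -/
lemma cls_bound {ι κ : Type*} (K : Finset ι) (Cl : Finset κ) (cls : ι → κ) (h : ∀ k ∈ K, cls k ∈ Cl)
    (F : κ → ι → ℝ) (R : ℝ) (hF : ∀ c ∈ Cl, ∑ k ∈ K, |F c k| ≤ R) : ∑ k ∈ K, |F (cls k) k| ≤ Cl.card * R := by
  calc ∑ k ∈ K, |F (cls k) k| ≤ ∑ k ∈ K, ∑ c ∈ Cl, |F c k| :=
        sum_le_sum fun k hk => single_le_sum (f := fun c => |F c k|) (fun _ _ => abs_nonneg _) (h k hk)
    _ = ∑ c ∈ Cl, ∑ k ∈ K, |F c k| := sum_comm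
    _ ≤ ∑ _c ∈ Cl, R := sum_le_sum hF
    _ = Cl.card * R := by rw [sum_const, nsmul_eq_mul]

end Pool.Agent.P8H6.SS
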