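import Pool.Agent.P8H6.SS.Stm

/-! # The mean of `fd ^ j` over a dense image (package MOM, helper93) -/

set_option autoImplicit false

namespace Pool.Agent.P8H6.SS

open Finset Pool.Agent.H373R2.T7 Pool.Agent.Y877.SX

theorem mom_thm : S_MOM := by
  intro ι T f N y z j m hinj hf hm hy hjm hN
  classical
  obtain ⟨n, rfl⟩ : ∃ n, m = n + 1 := ⟨m - 1, by omega⟩
  rcases T.eq_empty_or_nonempty with rfl | hT
  · simp
  have hTc : (0 : ℝ) < T.card := by exact_mod_cast hT.card_pos
  have h0 : ∀ t ∈ T, 0 ≤ fd y z (f t).natAbs ^ j := fun t _ => pow_nonneg (fd_one' _ _ _) _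
  have h2 := pow_sum_div_card_le_sum_pow h0 n
  rw [div_le_iff₀ (by positivity)] at h2
  -- the two signs
  have h3 : ∑ t ∈ T, (fd y z (f t).natAbs ^ j) ^ (n + 1) ≤
      2 * ∑ d ∈ Icc 1 N, fd y z d ^ (j * (n + 1)) := by
    have e : ∑ t ∈ T, (fd y z (f t).natAbs ^ j) ^ (n + 1) =
        ∑ d ∈ Icc 1 N, ∑ t ∈ T.filter (fun t => (f t).natAbs = d), fd y z d ^ (j * (n + 1)) := by
      rw [← sum_fiberwise_of_maps_to (g := fun t => (f t).natAbs) (t := Icc 1 N)]
      · apply sum_congr rfl
        intro d _
        apply sum_congr rfl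
        intro t ht
        rw [(mem_filter.1 ht).2, pow_mul]
      · intro t ht
        rw [mem_Icc]
        exact ⟨Int.natAbs_pos.2 (hf t ht).1, (hf t ht).2⟩
    rw [e, mul_sum]
    apply sum_le_sum
    intro d _
    rw [sum_const, nsmul_eq_mul]
    apply mul_le_mul_of_nonneg_right _ (pow_nonneg (fd_one' _ _ _) _)
    have hc : (T.filter (fun t => (f t).natAbs = d)).card ≤ 2 := by
      calc (T.filter (fun t => (f t).natAbs = d)).card
          ≤ ({(d : ℤ), -(d : ℤ)} : Finset ℤ).card := by
            apply card_le_card_of_injOn f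
            · intro t ht
              rw [mem_coe, mem_filter] at ht
              have := Int.natAbs_eq (f t)
              rw [ht.2] at this
              simp only [coe_insert, coe_singleton, Set.mem_insert_iff, Set.mem_singleton_iff]
              exact this
            · exact hinj.mono (by intro t ht; exact (mem_filter.1 (mem_coe.1 ht)).1)
        _ ≤ 2 := card_le_two
    exact_mod_cast hc
  have h4 := fd_moment y z (j * (n + 1)) N hy hjm
  have hN' : 4 * (N : ℝ) ≤ 2 ^ (n + 1) * T.card := by exact_mod_cast hN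
  have h5 : (∑ t ∈ T, fd y z (f t).natAbs ^ j) ^ (n + 1) ≤ (2 * (T.card : ℝ)) ^ (n + 1) := by
    refine h2.trans ?_
    calc (∑ t ∈ T, (fd y z (f t).natAbs ^ j) ^ (n + 1)) * (T.card : ℝ) ^ n
        ≤ (2 ^ (n + 1) * T.card) * (T.card : ℝ) ^ n := by
          apply mul_le_mul_of_nonneg_right _ (by positivity)
          linarith
      _ = _ := by ring
  exact le_of_pow_le_pow_left₀ (by omega) (by positivity) h5

end Pool.Agent.P8H6.SS
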