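import Pool.Agent.P8H6.SS.Stm
import Pool.Agent.H378R2.PS.P0

/-! # Upper bound sieve for four forms `v i + P (u + g)` (package S4, helper93) -/

set_option autoImplicit false

namespace Pool.Agent.P8H6.SS

open Finset Pool.Agent.H373R2.T7 Pool.Agent.Y877.SX

/-- `fd` of a product -/
theorem fd_prod (y z : ℕ) {ι : Type} [DecidableEq ι] (s : Finset ι) (a : ι → ℕ) :
    fd y z (∏ i ∈ s, a i) ≤ ∏ i ∈ s, fd y z (a i) := by
  induction s using Finset.induction_on with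
  | empty =>
    rw [prod_empty, prod_empty]
    unfold fd
    rw [filter_false_of_mem]
    · simp
    · intro p hp h1
      exact (mem_mid.1 hp).2.2.one_lt.ne' (Nat.dvd_one.1 h1)
  | insert i s hi ih =>
    rw [prod_insert hi, prod_insert hi]
    exact (fd_mul y z _ _).trans (mul_le_mul_of_nonneg_left ih (fd_one' _ _ _))

/-- `M / φ(M)` for `M = primorial y * D` -/
theorem ratio_le (y Z : ℕ) {ι : Type} [DecidableEq ι] (s : Finset ι) (a : ι → ℕ) (ha0 : ∀ i ∈ s, a i ≠ 0)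
    (haZ : ∀ i ∈ s, a i ≤ Z) :
    ((primorial y * ∏ i ∈ s, a i : ℕ) : ℝ) / ((primorial y * ∏ i ∈ s, a i).totient : ℝ) ≤
      (Vz y)⁻¹ * ∏ i ∈ s, fd y Z (a i) := by
  obtain ⟨D, hD⟩ : ∃ D, D = ∏ i ∈ s, a i := ⟨_, rfl⟩
  have hD0 : D ≠ 0 := by rw [hD]; exact prod_ne_zero_iff.2 ha0
  have hP0 : primorial y ≠ 0 := (primorial_pos y).ne'
  rw [← hD]
  obtain ⟨M, hM⟩ : ∃ M, M = primorial y * D := ⟨_, rfl⟩
  have hM0 : M ≠ 0 := by rw [hM]; exact mul_ne_zero hP0 hD0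
  rw [← hM]
  have hMr : (M : ℝ) ≠ 0 := by exact_mod_cast hM0
  have e1 : (M.totient : ℝ) = M * ∏ p ∈ M.primeFactors, (1 - 1 / (p : ℝ)) := by
    have := Nat.totient_eq_mul_prod_factors M
    have h2 : ((M.totient : ℚ) : ℝ) = ((M * ∏ p ∈ M.primeFactors, (1 - (p : ℚ)⁻¹) : ℚ) : ℝ) := by rw [this]
    push_cast at h2
    rw [h2]
    simp only [one_div]
  have e2 : (M : ℝ) / (M.totient : ℝ) = ∏ p ∈ M.primeFactors, (1 - 1 / (p : ℝ))⁻¹ := by
    rw [e1, prod_inv_distrib, div_mul_eq_div_div, div_self hMr, one_div]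
  rw [e2]
  have e3 : M.primeFactors ⊆ pz y ∪ (mid y Z).filter (fun p => p ∣ D) := by
    intro p hp
    have hpp := Nat.prime_of_mem_primeFactors hp
    have hpM := Nat.dvd_of_mem_primeFactors hp
    rw [mem_union, mem_pz, mem_filter, mem_mid]
    by_cases h : p ≤ y
    · exact Or.inl ⟨h, hpp⟩
    · right
      have hpD : p ∣ D := by
        rw [hM] at hpM
        rcases (hpp.dvd_mul).1 hpM with h1 | h1
        · exact absurd (hpp.dvd_primorial_iff.1 h1) h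
        · exact h1
      refine ⟨⟨by omega, ?_, hpp⟩, hpD⟩
      rw [hD] at hpD
      obtain ⟨i, hi, hpi⟩ := (hpp.prime.dvd_finsetProd_iff _).1 hpD
      exact (Nat.le_of_dvd (Nat.pos_of_ne_zero (ha0 i hi)) hpi).trans (haZ i hi)
  have hdis : Disjoint (pz y) ((mid y Z).filter (fun p => p ∣ D)) := by
    rw [disjoint_left]
    intro p hp hp2
    have h1 := (mem_pz.1 hp).1
    have h2 := (mem_mid.1 (mem_filter.1 hp2).1).1
    omega
  have hprime : ∀ p ∈ pz y ∪ (mid y Z).filter (fun p => p ∣ D), p.Prime := by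
    intro p hp
    rcases mem_union.1 hp with h | h
    · exact (mem_pz.1 h).2
    · exact (mem_mid.1 (mem_filter.1 h).1).2.2
  calc ∏ p ∈ M.primeFactors, (1 - 1 / (p : ℝ))⁻¹
      ≤ ∏ p ∈ pz y ∪ (mid y Z).filter (fun p => p ∣ D), (1 - 1 / (p : ℝ))⁻¹ := by
        rw [← prod_sdiff e3]
        apply le_mul_of_one_le_left
        · exact prod_nonneg fun p hp => zero_le_one.trans (fac_inv_one (Nat.prime_of_mem_primeFactors hp))
        · apply one_le_prodR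
          intro p hp
          exact fac_inv_one (hprime p (mem_sdiff.1 hp).1)
    _ = (Vz y)⁻¹ * fd y Z D := by
        rw [prod_union hdis]
        unfold Vz fd
        rw [prod_inv_distrib]
    _ ≤ _ := by
        rw [hD]
        exact mul_le_mul_of_nonneg_left (fd_prod y Z s a) (inv_nonneg.2 (Vz_pos y).le)

/-- the root modulo `p` of `a + P (u + g)` -/
def rt (P u p a : ℕ) : ℕ := (-(a : ZMod p) * (P : ZMod p)⁻¹ - (u : ZMod p)).val

theorem rt_dvd (P u p a g : ℕ) (hp : p.Prime) (hP : ¬ p ∣ P) (h : g % p = rt P u p a) :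
    p ∣ a + P * (u + g) := by
  have : Fact p.Prime := ⟨hp⟩
  have hP0 : (P : ZMod p) ≠ 0 := by
    intro h0
    exact hP ((ZMod.natCast_eq_zero_iff _ _).1 h0)
  have h1 : (g : ZMod p) = -(a : ZMod p) * (P : ZMod p)⁻¹ - (u : ZMod p) := by
    have : ((g % p : ℕ) : ZMod p) = ((rt P u p a : ℕ) : ZMod p) := by rw [h]
    rw [ZMod.natCast_mod] at this
    rw [this]
    unfold rt
    rw [ZMod.natCast_zmod_val]
  rw [← ZMod.natCast_eq_zero_iff]
  push_cast
  rw [h1]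
  field_simp
  ring

theorem rt_inj (P u p a b : ℕ) (hp : p.Prime) (hP : ¬ p ∣ P) (h : rt P u p a = rt P u p b) :
    p ∣ Nat.dist a b := by
  have : Fact p.Prime := ⟨hp⟩
  have hP0 : (P : ZMod p) ≠ 0 := by
    intro h0
    exact hP ((ZMod.natCast_eq_zero_iff _ _).1 h0)
  have h1 := ZMod.val_injective p h
  have h2 : (a : ZMod p) = b := by
    have h3 : -(a : ZMod p) * (P : ZMod p)⁻¹ = -(b : ZMod p) * (P : ZMod p)⁻¹ := sub_left_injective h1
    have h4 := mul_right_cancel₀ (inv_ne_zero hP0) h3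
    exact neg_injective h4
  rcases le_total a b with hab | hab
  · rw [Nat.dist_eq_sub_of_le hab, ← ZMod.natCast_eq_zero_iff, Nat.cast_sub hab, h2, sub_self]
  · rw [Nat.dist_eq_sub_of_le_right hab, ← ZMod.natCast_eq_zero_iff, Nat.cast_sub hab, h2, sub_self]

theorem s4_thm : S_S4 := by
  classical
  obtain ⟨C, hC, hs⟩ := Pool.Agent.H378R2.PS.sieve_gen 2 (Or.inr rfl)
  refine ⟨C * 128 ^ 2 + 1, by positivity, 2 ^ 128, ?_⟩
  intro G Z y u hG hy v hv hvZ
  -- the size of `G`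
  have hGr : (2 : ℝ) ^ (128 : ℕ) ≤ G := by exact_mod_cast hG
  have hG0 : (0 : ℝ) < G := lt_of_lt_of_le (by positivity) hGr
  have hG1 : (1 : ℝ) ≤ G := le_trans (one_le_pow₀ (by norm_num)) hGr
  have hG128 : (2 : ℝ) ≤ (G : ℝ) ^ ((1 : ℝ) / 128) := by
    have h1 : ((2 : ℝ) ^ (128 : ℕ)) ^ ((1 : ℝ) / 128) = 2 := by
      rw [← Real.rpow_natCast, ← Real.rpow_mul (by norm_num)]
      norm_num
    rw [← h1]
    exact Real.rpow_le_rpow (by positivity) hGr (by norm_num)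
  obtain ⟨w, hw⟩ : ∃ w : ℕ, w = ⌊(G : ℝ) ^ ((1 : ℝ) / 64)⌋₊ := ⟨_, rfl⟩
  have hwle : (w : ℝ) ≤ (G : ℝ) ^ ((1 : ℝ) / 64) := by rw [hw]; exact Nat.floor_le (by positivity)
  have hwlt : (G : ℝ) ^ ((1 : ℝ) / 64) < w + 1 := by rw [hw]; exact Nat.lt_floor_add_one _
  have hsq : (G : ℝ) ^ ((1 : ℝ) / 64) = (G : ℝ) ^ ((1 : ℝ) / 128) * (G : ℝ) ^ ((1 : ℝ) / 128) := by
    rw [← Real.rpow_add hG0]; norm_num
  have hwge : (G : ℝ) ^ ((1 : ℝ) / 128) ≤ w := by
    rw [hsq] at hwlt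
    nlinarith
  have hw2 : 2 ≤ w := by exact_mod_cast hG128.trans hwge
  have hlogG : 0 < Real.log G := Real.log_pos (lt_of_lt_of_le (by norm_num) hGr)
  have hlogw : Real.log G / 128 ≤ Real.log w := by
    have := Real.log_le_log (by positivity) hwge
    rw [Real.log_rpow hG0] at this
    linarith
  have hlog4 : (G : ℝ) ^ ((1 : ℝ) / 8) ≤ G / Real.log G ^ 4 := by
    rw [le_div_iff₀ (by positivity)]
    have g2 : Real.log G ≤ 8 * (G : ℝ) ^ ((1 : ℝ) / 8) := by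
      have g1 : Real.log G ≤ (G : ℝ) ^ ((1 : ℝ) / 8) / (1 / 8) :=
        Real.log_le_rpow_div hG0.le (by norm_num)
      linarith
    have g3 : (4096 : ℝ) ≤ (G : ℝ) ^ ((3 : ℝ) / 8) := by
      calc (4096 : ℝ) ≤ ((2 : ℝ) ^ (128 : ℕ)) ^ ((3 : ℝ) / 8) := by
            rw [← Real.rpow_natCast, ← Real.rpow_mul (by norm_num)]
            norm_num
        _ ≤ _ := Real.rpow_le_rpow (by positivity) hGr (by norm_num)
    calc (G : ℝ) ^ ((1 : ℝ) / 8) * Real.log G ^ 4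
        ≤ (G : ℝ) ^ ((1 : ℝ) / 8) * (8 * (G : ℝ) ^ ((1 : ℝ) / 8)) ^ 4 := by gcongr
      _ = 4096 * ((G : ℝ) ^ ((1 : ℝ) / 8)) ^ 5 := by ring
      _ = 4096 * (G : ℝ) ^ ((5 : ℝ) / 8) := by
          rw [← Real.rpow_natCast, ← Real.rpow_mul hG0.le]; norm_num
      _ ≤ (G : ℝ) ^ ((3 : ℝ) / 8) * (G : ℝ) ^ ((5 : ℝ) / 8) := by gcongr
      _ = G := by rw [← Real.rpow_add hG0]; norm_num
  -- the modulus
  obtain ⟨I, hI⟩ : ∃ I, I = (univ : Finset (Fin 4 × Fin 4)).filter (fun x => x.1 < x.2) := ⟨_, rfl⟩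
  obtain ⟨a, ha⟩ : ∃ a : Fin 4 × Fin 4 → ℕ, a = fun x => Nat.dist (v x.1) (v x.2) := ⟨_, rfl⟩
  have ha0 : ∀ x ∈ I, a x ≠ 0 := by
    intro x hx h0
    rw [hI, mem_filter] at hx
    rw [ha] at h0
    exact hx.2.ne (hv (Nat.eq_of_dist_eq_zero h0))
  have haZ : ∀ x ∈ I, a x ≤ Z := by
    intro x _
    rw [ha]
    have h1 := hvZ x.1
    have h2 := hvZ x.2
    simp only [Nat.dist]
    omega
  have hratio := ratio_le y Z I a ha0 haZ
  obtain ⟨P, hP⟩ : ∃ P, P = primorial y := ⟨_, rfl⟩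
  obtain ⟨M, hM⟩ : ∃ M, M = primorial y * ∏ x ∈ I, a x := ⟨_, rfl⟩
  have hP0 : P ≠ 0 := by rw [hP]; exact primorial_ne_zero y
  have hM0 : M ≠ 0 := by
    rw [hM]; exact mul_ne_zero (primorial_ne_zero y) (prod_ne_zero_iff.2 ha0)
  rw [← hM] at hratio
  rw [← hP]
  have hpM : ∀ p, p.Prime → ¬ p ∣ M → 17 ≤ p ∧ ¬ p ∣ P ∧ ∀ i j, i ≠ j → ¬ p ∣ Nat.dist (v i) (v j) := by
    intro p hp hpM
    have h1 : ¬ p ∣ primorial y := fun h => hpM (hM ▸ h.mul_right _)
    refine ⟨?_, hP ▸ h1, ?_⟩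
    · rw [hp.dvd_primorial_iff] at h1
      omega
    · intro i j hij h2
      apply hpM
      rw [hM]
      apply Dvd.dvd.mul_left
      rcases lt_or_gt_of_ne hij with h | h
      · have h3 : a (i, j) ∣ ∏ x ∈ I, a x := dvd_prod_of_mem _ (by rw [hI, mem_filter]; exact ⟨mem_univ _, h⟩)
        exact (by rw [ha]; exact h2 : p ∣ a (i, j)).trans h3
      · have h3 : a (j, i) ∣ ∏ x ∈ I, a x := dvd_prod_of_mem _ (by rw [hI, mem_filter]; exact ⟨mem_univ _, h⟩)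
        exact (by rw [ha]; simp only; rw [Nat.dist_comm]; exact h2 : p ∣ a (j, i)).trans h3
  -- the classes
  obtain ⟨E, hE⟩ : ∃ E : ℕ → Finset ℕ, E = fun p =>
      (univ.filter (fun i : Fin 4 => p ≤ w ∨ i < 2)).image (fun i => rt P u p (v i)) := ⟨_, rfl⟩
  have hinj : ∀ p, p.Prime → ¬ p ∣ M → Function.Injective (fun i => rt P u p (v i)) := by
    intro p hp h i j hij
    by_contra hne
    exact (hpM p hp h).2.2 i j hne (rt_inj P u p _ _ hp (hpM p hp h).2.1 hij)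
  obtain ⟨S, hS⟩ : ∃ S, S = (Icc 1 G).filter (fun g => (∀ i, (v i + P * (u + g)).Prime) ∧
      ∀ i, (G : ℝ) ^ (1 / 8 : ℝ) < ((v i + P * (u + g) : ℕ) : ℝ)) := ⟨_, rfl⟩
  have key := hs G M w E S hM0 (by
    intro p hp h
    refine ⟨(hpM p hp h).1, ?_, ?_, ?_⟩
    · intro x hx
      rw [hE, mem_image] at hx
      obtain ⟨i, _, rfl⟩ := hx
      have : Fact p.Prime := ⟨hp⟩
      rw [mem_range]
      exact ZMod.val_lt _
    · intro hpw
      rw [hE]
      simp only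
      rw [card_image_of_injective _ (hinj p hp h)]
      simp [hpw]
    · intro hpw
      rw [hE]
      simp only
      rw [card_image_of_injective _ (hinj p hp h)]
      have : ¬ p ≤ w := by omega
      simp only [this, false_or]
      decide) hw2 hwle (by rw [hS]; exact filter_subset _ _) (by
    intro l hl p hp h hple hmem
    rw [hE, mem_image] at hmem
    obtain ⟨i, _, hi⟩ := hmem
    rw [hS, mem_filter] at hl
    have h1 := rt_dvd P u p (v i) l hp (hpM p hp h).2.1 hi.symm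
    have h2 := (Nat.prime_dvd_prime_iff_eq hp (hl.2.1 i)).1 h1
    have h3 := hl.2.2 i
    rw [← h2] at h3
    linarith)
  obtain ⟨K, hK⟩ : ∃ K : ℝ, K = (Vz y)⁻¹ * ∏ x ∈ I, fd y Z (a x) := ⟨_, rfl⟩
  rw [← hK] at hratio
  have hK1 : 1 ≤ K := by
    rw [hK]
    apply one_le_mul_of_one_le_of_one_le
    · exact (one_le_inv₀ (Vz_pos y)).2 (Vz_le_one y)
    · have := prod_le_prod (s := I) (f := fun _ => (1 : ℝ)) (g := fun x => fd y Z (a x))
        (fun _ _ => zero_le_one) (fun _ _ => fd_one _ _ _)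
      rwa [prod_const_one] at this
  have hfin : (S.card : ℝ) ≤ C * 128 ^ 2 * (K ^ 4 * (G / Real.log G ^ 4)) := by
    refine key.trans ?_
    have h0 : (0 : ℝ) ≤ (M : ℝ) / (M.totient : ℝ) := by positivity
    calc C * ((M : ℝ) / (M.totient : ℝ)) ^ 4 * G / (Real.log G ^ 2 * Real.log w ^ 2)
        ≤ C * K ^ 4 * G / (Real.log G ^ 2 * (Real.log G / 128) ^ 2) := by
          gcongr
      _ = _ := by
          field_simp
  have hsub : (Icc 1 G).filter (fun g => ∀ i, (v i + P * (u + g)).Prime) ⊆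
      S ∪ Icc 1 ⌊(G : ℝ) ^ ((1 : ℝ) / 8)⌋₊ := by
    intro g hg
    rw [mem_filter] at hg
    rw [mem_union, hS, mem_filter]
    by_cases h : ∀ i, (G : ℝ) ^ (1 / 8 : ℝ) < ((v i + P * (u + g) : ℕ) : ℝ)
    · exact Or.inl ⟨hg.1, hg.2, h⟩
    · right
      push Not at h
      obtain ⟨i, hi⟩ := h
      rw [mem_Icc] at hg ⊢
      refine ⟨hg.1.1, Nat.le_floor (le_trans ?_ hi)⟩
      have : g ≤ v i + P * (u + g) := by
        have h1 : 1 ≤ P := Nat.pos_of_ne_zero hP0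
        nlinarith [Nat.zero_le (v i), Nat.zero_le (P * u), Nat.mul_le_mul_right g h1]
      exact_mod_cast this
  have hcard : (((Icc 1 G).filter (fun g => ∀ i, (v i + P * (u + g)).Prime)).card : ℝ) ≤
      S.card + (G : ℝ) ^ ((1 : ℝ) / 8) := by
    have h1 := (card_le_card hsub).trans (card_union_le _ _)
    rw [Nat.card_Icc, Nat.add_sub_cancel] at h1
    have h2 : (((Icc 1 G).filter (fun g => ∀ i, (v i + P * (u + g)).Prime)).card : ℝ) ≤
        S.card + ⌊(G : ℝ) ^ ((1 : ℝ) / 8)⌋₊ := by exact_mod_cast h1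
    have h3 := Nat.floor_le (show (0 : ℝ) ≤ (G : ℝ) ^ ((1 : ℝ) / 8) by positivity)
    linarith
  have hpos : 0 ≤ G / Real.log G ^ 4 := by positivity
  have hK4 : 1 ≤ K ^ 4 := one_le_pow₀ hK1
  calc (((Icc 1 G).filter (fun g => ∀ i, (v i + P * (u + g)).Prime)).card : ℝ)
      ≤ C * 128 ^ 2 * (K ^ 4 * (G / Real.log G ^ 4)) + 1 * (K ^ 4 * (G / Real.log G ^ 4)) := by
        refine hcard.trans (add_le_add hfin ?_)
        rw [one_mul]
        exact hlog4.trans (le_mul_of_one_le_left hpos hK4)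
    _ = (C * 128 ^ 2 + 1) * (G / (Vz y * Real.log G) ^ 4) * ∏ x ∈ I, fd y Z (a x) ^ 4 := by
        rw [hK, prod_pow]
        have := (Vz_pos y).ne'
        field_simp
    _ = _ := by rw [hI, ha]

end Pool.Agent.P8H6.SS
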