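import Pool.Agent.P8H6.SS.Sec2
import Pool.Agent.P8H6.SS.S4
import Pool.Agent.P8H6.SS.Mom

/-!
# The same shift for two sequences of primes
-/

set_option autoImplicit false

namespace Pool.Agent.P8H6.SS

open Finset Pool.Agent.H373R2.T7 Pool.Agent.Y877.SX

lemma RR_mono (K' K : Finset ℕ) (h : K' ⊆ K) (a b : ℕ → ℕ) (s : ℕ) : RR K' a b s ≤ RR K a b s := by
  unfold RR
  exact card_le_card (filter_subset_filter _ h)

lemma small_card (K : Finset ℕ) (a : ℕ → ℕ) (ha : Set.InjOn a K) (y : ℕ) : (K.filter (fun k => a k ≤ y)).card ≤ y + 1 := by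
  have h1 : ((K.filter (fun k => a k ≤ y)).image a).card = (K.filter (fun k => a k ≤ y)).card := by
    apply card_image_of_injOn
    intro i hi j hj hij
    rw [mem_coe, mem_filter] at hi hj
    exact ha hi.1 hj.1 hij
  rw [← h1]
  have h2 : (K.filter (fun k => a k ≤ y)).image a ⊆ range (y + 1) := by
    intro x hx
    rw [mem_image] at hx
    obtain ⟨k, hk, rfl⟩ := hx
    rw [mem_filter] at hk
    rw [mem_range]
    omega
  exact (card_le_card h2).trans (by simp)

lemma keep_card (K : Finset ℕ) (a b : ℕ → ℕ) (ha : Set.InjOn a K) (hb : Set.InjOn b K)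
    (hD : Set.InjOn (fun k => (b k : ℤ) - a k) K) (y : ℕ) :
    K.card ≤ (K.filter (fun k => y < a k ∧ y < b k ∧ a k ≠ b k)).card + (2 * y + 3) := by
  classical
  have h0 := card_filter_add_card_filter_not (s := K) (fun k => y < a k ∧ y < b k ∧ a k ≠ b k)
  have h1 : K.filter (fun k => ¬ (y < a k ∧ y < b k ∧ a k ≠ b k)) ⊆
      (K.filter (fun k => a k ≤ y) ∪ K.filter (fun k => b k ≤ y)) ∪ K.filter (fun k => a k = b k) := by
    intro k hk
    rw [mem_filter] at hk
    simp only [mem_union, mem_filter]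
    by_cases c1 : a k ≤ y
    · exact Or.inl (Or.inl ⟨hk.1, c1⟩)
    · by_cases c2 : b k ≤ y
      · exact Or.inl (Or.inr ⟨hk.1, c2⟩)
      · by_cases c3 : a k = b k
        · exact Or.inr ⟨hk.1, c3⟩
        · exact absurd ⟨not_le.1 c1, not_le.1 c2, c3⟩ hk.2
  have h2 := small_card K a ha y
  have h3 := small_card K b hb y
  have h4 : (K.filter (fun k => a k = b k)).card ≤ 1 := by
    rw [card_le_one]
    intro i hi j hj
    rw [mem_filter] at hi hj
    apply hD hi.1 hj.1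
    show (b i : ℤ) - a i = b j - a j
    rw [hi.2, hj.2]
    ring
  have h5 := card_le_card h1
  have h6 := card_union_le (K.filter (fun k => a k ≤ y) ∪ K.filter (fun k => b k ≤ y)) (K.filter (fun k => a k = b k))
  have h7 := card_union_le (K.filter (fun k => a k ≤ y)) (K.filter (fun k => b k ≤ y))
  omega

/-- the same shift for two injective sequences of primes with injective difference -/
theorem same_shift : ∃ c : ℝ, 0 < c ∧ ∀ (A C : ℕ) (ε : ℝ), 0 < ε → ε ≤ 1 → ∃ K₀ : ℕ, ∀ K₁ : ℕ, ∃ n₀ : ℕ, ∀ n : ℕ, n₀ ≤ n →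
    ∀ y : ℕ, K₀ ≤ y → (y : ℝ) ≤ K₁ * Real.log (Real.log n) →
    ∀ g₀ G : ℕ, primorial y * (g₀ + G) ≤ n → (n : ℝ) ≤ primorial y * G * Real.log n ^ C →
    ∀ K : Finset ℕ, (n : ℝ) ≤ K.card * Real.log n ^ A → ∀ a b : ℕ → ℕ,
    (∀ k ∈ K, (a k).Prime ∧ (a k : ℝ) ≤ n * Real.log n ^ 5) → (∀ k ∈ K, (b k).Prime ∧ (b k : ℝ) ≤ n * Real.log n ^ 5) →
    Set.InjOn a K → Set.InjOn b K → Set.InjOn (fun k => (b k : ℤ) - a k) K →
      (1 - ε) * (K.card / (Vz y * Real.log n) ^ 2) * G ≤ ∑ g ∈ Icc 1 G, (RR K a b (primorial y * (g₀ + g)) : ℝ) ∧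
      (K₀ * Real.log (Real.log n) ≤ y → c * G ≤ (((Icc 1 G).filter (fun g =>
        c * (K.card / (Vz y * Real.log n) ^ 2) ≤ (RR K a b (primorial y * (g₀ + g)) : ℝ))).card : ℝ)) := by
  classical
  obtain ⟨C', hC', hsec⟩ := second_moment s4_thm mom_thm
  refine ⟨min (1 / 8) (1 / (4 * C')), by positivity, fun A C ε hε hε1 => ?_⟩
  obtain ⟨k0, hk0, f1⟩ := first_moment (A + 1) C (ε / 4) (by linarith) (by linarith)
  obtain ⟨k0', hk0', f2⟩ := first_moment (A + 1) C (1 / 4) (by norm_num) (by norm_num)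
  obtain ⟨k0'', f3⟩ := hsec (A + 1) C
  refine ⟨k0 + k0' + k0'', fun K₁ => ?_⟩
  obtain ⟨n1, g1⟩ := f1 K₁
  obtain ⟨n2, g2⟩ := f2 K₁
  obtain ⟨n3, g3⟩ := f3 K₁
  obtain ⟨n4, g4⟩ := ev_log' (2 * (A + 1)) (4 * (2 * K₁ + 3) / ε)
  obtain ⟨n5, g5⟩ := ev_L' 4
  refine ⟨n1 + n2 + n3 + n4 + n5 + 3, fun n hn y hy1 hy2 g₀ G hg1 hg2 K hK a b ha hb hai hbi hD => ?_⟩
  set L := Real.log n with hLd
  have hL4 : 4 ≤ L := g5 n (by omega)
  have hL0 : 0 < L := by linarith
  have hL1 : 1 ≤ L := by linarith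
  have hlogL0 : 0 ≤ Real.log L := Real.log_nonneg hL1
  have hlogL : Real.log L ≤ L := (Real.log_le_sub_one_of_pos hL0).trans (by linarith)
  have hn0 : (0 : ℝ) < n := by exact_mod_cast (by omega : 0 < n)
  have hsn0 : 0 < √(n : ℝ) := Real.sqrt_pos.2 hn0
  have hsn : √(n : ℝ) * √(n : ℝ) = n := Real.mul_self_sqrt hn0.le
  set K' := K.filter (fun k => y < a k ∧ y < b k ∧ a k ≠ b k) with hK'
  have hsub : K' ⊆ K := filter_subset _ _
  have hcard := keep_card K a b hai hbi hD y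
  rw [← hK'] at hcard
  have hcard' : (K.card : ℝ) ≤ K'.card + (2 * y + 3) := by exact_mod_cast hcard
  -- few indices are discarded
  have hfew : 2 * (y : ℝ) + 3 ≤ (ε / 4) * K.card := by
    have h2 := g4 n (by omega)
    rw [← hLd] at h2
    have hLA : (1 : ℝ) ≤ L ^ (A + 1) := one_le_pow₀ hL1
    have h3 : (4 * (2 * (K₁ : ℝ) + 3) / ε) * L ^ (A + 1) ≤ √(n : ℝ) := by
      refine le_trans ?_ h2
      apply mul_le_mul_of_nonneg_left _ (by positivity)
      exact pow_le_pow_right₀ hL1 (by omega)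
    have h3' : L ^ A ≤ √(n : ℝ) := by
      have h5 : 1 ≤ 4 * (2 * (K₁ : ℝ) + 3) / ε := by
        rw [le_div_iff₀ hε]
        have : (0 : ℝ) ≤ K₁ := Nat.cast_nonneg _
        linarith
      calc L ^ A ≤ L ^ (A + 1) := pow_le_pow_right₀ hL1 (by omega)
        _ = 1 * L ^ (A + 1) := (one_mul _).symm
        _ ≤ _ := mul_le_mul_of_nonneg_right h5 (by positivity)
        _ ≤ _ := h3
    have h6 : √(n : ℝ) ≤ K.card := by
      have h7 : √(n : ℝ) * √(n : ℝ) ≤ K.card * √(n : ℝ) := by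
        rw [hsn]
        exact hK.trans (mul_le_mul_of_nonneg_left h3' (Nat.cast_nonneg _))
      exact le_of_mul_le_mul_right h7 hsn0
    have h8 : (4 * (2 * (K₁ : ℝ) + 3) / ε) * L ≤ √(n : ℝ) := by
      refine le_trans ?_ h3
      apply mul_le_mul_of_nonneg_left _ (by positivity)
      calc L = L ^ 1 := (pow_one L).symm
        _ ≤ L ^ (A + 1) := pow_le_pow_right₀ hL1 (by omega)
    have h9 : 4 * (2 * (K₁ : ℝ) + 3) * L ≤ ε * √(n : ℝ) := by
      have h10 : (4 * (2 * (K₁ : ℝ) + 3) / ε) * L = (4 * (2 * (K₁ : ℝ) + 3) * L) / ε := by ring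
      rw [h10, div_le_iff₀ hε] at h8
      linarith
    have h11 : (y : ℝ) ≤ K₁ * L := hy2.trans (mul_le_mul_of_nonneg_left hlogL (Nat.cast_nonneg _))
    have h12 := mul_le_mul_of_nonneg_left h6 hε.le
    linarith
  have hK'1 : (1 - ε / 4) * K.card ≤ K'.card := by linarith
  have hKc0 : (0 : ℝ) ≤ K.card := Nat.cast_nonneg _
  have hK'2 : (K.card : ℝ) / 2 ≤ K'.card := by
    refine le_trans ?_ hK'1
    have := mul_le_mul_of_nonneg_right (show (1 / 2 : ℝ) ≤ 1 - ε / 4 by linarith) hKc0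
    linarith
  have hK'n : (n : ℝ) ≤ K'.card * L ^ (A + 1) := by
    calc (n : ℝ) ≤ K.card * L ^ A := hK
      _ = (K.card / 2) * (2 * L ^ A) := by ring
      _ ≤ K'.card * (L * L ^ A) := by
          apply mul_le_mul hK'2 _ (by positivity) (Nat.cast_nonneg _)
          exact mul_le_mul_of_nonneg_right (by linarith) (by positivity)
      _ = _ := by ring
  have hmem : ∀ k ∈ K', k ∈ K ∧ y < a k ∧ y < b k ∧ a k ≠ b k := by
    intro k hk
    rwa [hK', mem_filter] at hk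
  have ha' : ∀ k ∈ K', (a k).Prime ∧ y < a k ∧ (a k : ℝ) ≤ n * L ^ 5 := fun k hk =>
    ⟨(ha k (hmem k hk).1).1, (hmem k hk).2.1, (ha k (hmem k hk).1).2⟩
  have hb' : ∀ k ∈ K', (b k).Prime ∧ y < b k ∧ (b k : ℝ) ≤ n * L ^ 5 := fun k hk =>
    ⟨(hb k (hmem k hk).1).1, (hmem k hk).2.2.1, (hb k (hmem k hk).1).2⟩
  have hD' : Set.InjOn (fun k => (b k : ℤ) - a k) K' := hD.mono (by exact_mod_cast hsub)
  have hV0 := Vz_pos' y
  have hVL : 0 < (Vz y * L) ^ 2 := by positivity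
  refine ⟨?_, fun hy3 => ?_⟩
  · have h1 := g1 n (by omega) y (by omega) hy2 g₀ G hg1 hg2 K' hK'n a b ha' hb' hD'
    have h2 : ∑ g ∈ Icc 1 G, (RR K' a b (primorial y * (g₀ + g)) : ℝ) ≤
        ∑ g ∈ Icc 1 G, (RR K a b (primorial y * (g₀ + g)) : ℝ) := by
      apply sum_le_sum
      intro g _
      exact_mod_cast RR_mono K' K hsub a b _
    refine le_trans ?_ (h1.trans h2)
    rw [← hLd]
    have h3 : (1 - ε) * (K.card : ℝ) ≤ (1 - ε / 4) * K'.card := by
      have h4 := mul_le_mul_of_nonneg_left hK'1 (show 0 ≤ 1 - ε / 4 by linarith)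
      refine le_trans ?_ h4
      rw [← mul_assoc]
      apply mul_le_mul_of_nonneg_right _ hKc0
      nlinarith
    calc (1 - ε) * ((K.card : ℝ) / (Vz y * L) ^ 2) * G = ((1 - ε) * (K.card : ℝ)) * (G / (Vz y * L) ^ 2) := by ring
      _ ≤ ((1 - ε / 4) * K'.card) * (G / (Vz y * L) ^ 2) := mul_le_mul_of_nonneg_right h3 (by positivity)
      _ = _ := by ring
  · have h1 := g2 n (by omega) y (by omega) hy2 g₀ G hg1 hg2 K' hK'n a b ha' hb' hD'
    have hy3' : (k0'' : ℝ) * Real.log L ≤ y := by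
      refine le_trans ?_ hy3
      apply mul_le_mul_of_nonneg_right _ hlogL0
      push_cast
      have e1 : (0 : ℝ) ≤ k0 := Nat.cast_nonneg _
      have e2 : (0 : ℝ) ≤ k0' := Nat.cast_nonneg _
      linarith
    have h2 := g3 n (by omega) y hy3' hy2 g₀ G hg1 hg2 K' hK'n a b (fun k hk => (ha' k hk).2.2)
      (fun k hk => (hb' k hk).2.2) (hai.mono (by exact_mod_cast hsub)) (hbi.mono (by exact_mod_cast hsub))
      (fun k hk => (hmem k hk).2.2.2) hD'
    rw [← hLd] at h1 h2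
    have hK'pos : (0 : ℝ) < K'.card := by
      have h5 : (0 : ℝ) < K'.card * L ^ (A + 1) := hn0.trans_le hK'n
      by_contra h6
      have h7 : (K'.card : ℝ) = 0 := le_antisymm (not_lt.1 h6) (Nat.cast_nonneg _)
      rw [h7, zero_mul] at h5
      exact lt_irrefl _ h5
    have h3 := pz G (fun g => (RR K' a b (primorial y * (g₀ + g)) : ℝ)) (K'.card / (Vz y * L) ^ 2) C' (by positivity) hC'
      (by
        refine le_trans (le_of_eq ?_) h1
        ring)
      (by
        refine h2.trans (le_of_eq ?_)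
        rw [div_pow, ← pow_mul]
        ring)
    have hG0 : (0 : ℝ) ≤ G := Nat.cast_nonneg _
    calc min (1 / 8) (1 / (4 * C')) * (G : ℝ) ≤ (1 / (4 * C')) * G := mul_le_mul_of_nonneg_right (min_le_right _ _) hG0
      _ = G / (4 * C') := by ring
      _ ≤ _ := h3
      _ ≤ _ := by
          have h4 : (Icc 1 G).filter (fun g => K'.card / (Vz y * L) ^ 2 / 4 ≤ (RR K' a b (primorial y * (g₀ + g)) : ℝ)) ⊆
              (Icc 1 G).filter (fun g => min (1 / 8) (1 / (4 * C')) * (K.card / (Vz y * L) ^ 2) ≤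
                (RR K a b (primorial y * (g₀ + g)) : ℝ)) := by
            intro g hg
            rw [mem_filter] at hg ⊢
            refine ⟨hg.1, ?_⟩
            have h5 : (RR K' a b (primorial y * (g₀ + g)) : ℝ) ≤ RR K a b (primorial y * (g₀ + g)) := by
              exact_mod_cast RR_mono K' K hsub a b _
            refine le_trans ?_ (hg.2.trans h5)
            calc min (1 / 8) (1 / (4 * C')) * ((K.card : ℝ) / (Vz y * L) ^ 2) ≤ (1 / 8) * (K.card / (Vz y * L) ^ 2) :=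
                  mul_le_mul_of_nonneg_right (min_le_left _ _) (by positivity)
              _ = (K.card / 2) / (Vz y * L) ^ 2 / 4 := by ring
              _ ≤ _ := by gcongr
          exact_mod_cast card_le_card h4

end Pool.Agent.P8H6.SS
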