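import Pool.Agent.P8H6.SS.Chain

/-!
# From the von Mangoldt function to primes
-/

set_option autoImplicit false

namespace Pool.Agent.P8H6.SS

open Finset Pool.Agent.H373R2.T7 Pool.Agent.Y877.SX

lemma pp_one (N P u g₀ G : ℕ) (hP : 0 < P) (hN : 1 ≤ N) (h : u + P * (g₀ + G) ≤ N) :
    ∑ g ∈ Icc 1 G, (if (u + P * (g₀ + g)).Prime then (0 : ℝ) else ArithmeticFunction.vonMangoldt (u + P * (g₀ + g))) ≤
      2 * √(N : ℝ) * Real.log N := by
  have h2 := Chebyshev.psi_sub_theta_le (x := (N : ℝ)) (by exact_mod_cast hN)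
  rw [Chebyshev.psi_sub_theta_eq_sum_not_prime, Nat.floor_natCast, sum_filter] at h2
  refine le_trans ?_ h2
  have e1 : ∑ g ∈ Icc 1 G, (if (u + P * (g₀ + g)).Prime then (0 : ℝ) else
      ArithmeticFunction.vonMangoldt (u + P * (g₀ + g))) =
      ∑ n ∈ (Icc 1 G).image (fun g => u + P * (g₀ + g)), (if ¬ n.Prime then ArithmeticFunction.vonMangoldt n else (0 : ℝ)) := by
    rw [sum_image]
    · apply sum_congr rfl
      intro g _
      by_cases hp : (u + P * (g₀ + g)).Prime
      · rw [if_pos hp, if_neg (not_not.2 hp)]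
      · rw [if_neg hp, if_pos hp]
    · intro a _ b _ hab
      have hab' : u + P * (g₀ + a) = u + P * (g₀ + b) := hab
      have h3 : g₀ + a = g₀ + b := Nat.eq_of_mul_eq_mul_left hP (by omega)
      omega
  rw [e1]
  apply sum_le_sum_of_subset_of_nonneg
  · intro n hn
    rw [mem_image] at hn
    obtain ⟨g, hg, rfl⟩ := hn
    rw [mem_Icc] at hg
    rw [mem_Ioc]
    have h3 : 1 ≤ P * (g₀ + g) := Nat.mul_pos hP (by omega)
    have h4 : P * (g₀ + g) ≤ P * (g₀ + G) := Nat.mul_le_mul_left _ (by omega)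
    exact ⟨by omega, by omega⟩
  · intro n _ _
    split_ifs
    · exact le_rfl
    · exact ArithmeticFunction.vonMangoldt_nonneg

open Classical in
/-- the number of the `k ∈ K` for which both values are prime -/
noncomputable def RR (K : Finset ℕ) (a b : ℕ → ℕ) (h : ℕ) : ℕ :=
  (K.filter (fun k => (a k + h).Prime ∧ (b k + h).Prime)).card

lemma LL_le (K : Finset ℕ) (a b : ℕ → ℕ) (N P g₀ G : ℕ) (hP : 0 < P) (hN : 1 ≤ N)
    (ha : ∀ k ∈ K, a k + P * (g₀ + G) ≤ N) (hb : ∀ k ∈ K, b k + P * (g₀ + G) ≤ N) :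
    LL K a b P g₀ G ≤ Real.log N ^ 2 * ∑ g ∈ Icc 1 G, (RR K a b (P * (g₀ + g)) : ℝ) +
      K.card * (4 * √(N : ℝ) * Real.log N ^ 2) := by
  classical
  have hl0 : 0 ≤ Real.log N := Real.log_natCast_nonneg N
  have hlam : ∀ m : ℕ, m ≤ N → ArithmeticFunction.vonMangoldt m ≤ Real.log N := by
    intro m hm
    rcases Nat.eq_zero_or_pos m with h0 | h0
    · rw [h0]
      simp only [ArithmeticFunction.map_zero]
      exact hl0
    · exact ArithmeticFunction.vonMangoldt_le_log.trans (Real.log_le_log (by exact_mod_cast h0) (by exact_mod_cast hm))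
  have hterm : ∀ A B : ℕ, A ≤ N → B ≤ N → ArithmeticFunction.vonMangoldt A * ArithmeticFunction.vonMangoldt B ≤
      (if A.Prime ∧ B.Prime then Real.log N ^ 2 else 0) +
      Real.log N * ((if A.Prime then (0 : ℝ) else ArithmeticFunction.vonMangoldt A) +
        (if B.Prime then (0 : ℝ) else ArithmeticFunction.vonMangoldt B)) := by
    intro A B hA hB
    have h1 := hlam A hA
    have h2 := hlam B hB
    have h3 : 0 ≤ ArithmeticFunction.vonMangoldt A := ArithmeticFunction.vonMangoldt_nonneg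
    have h4 : 0 ≤ ArithmeticFunction.vonMangoldt B := ArithmeticFunction.vonMangoldt_nonneg
    by_cases hAp : A.Prime
    · by_cases hBp : B.Prime
      · rw [if_pos ⟨hAp, hBp⟩, if_pos hAp, if_pos hBp]
        nlinarith
      · rw [if_neg (fun h => hBp h.2), if_pos hAp, if_neg hBp]
        nlinarith
    · rw [if_neg (fun h => hAp h.1), if_neg hAp]
      split_ifs
      · nlinarith
      · nlinarith
  unfold LL
  have h1 : ∀ k ∈ K, ∑ g ∈ Icc 1 G, ArithmeticFunction.vonMangoldt (a k + P * (g₀ + g)) *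
      ArithmeticFunction.vonMangoldt (b k + P * (g₀ + g)) ≤
      ∑ g ∈ Icc 1 G, (if (a k + P * (g₀ + g)).Prime ∧ (b k + P * (g₀ + g)).Prime then Real.log N ^ 2 else 0) +
      4 * √(N : ℝ) * Real.log N ^ 2 := by
    intro k hk
    have h2 := pp_one N P (a k) g₀ G hP hN (ha k hk)
    have h3 := pp_one N P (b k) g₀ G hP hN (hb k hk)
    have hle : ∀ g ∈ Icc 1 G, a k + P * (g₀ + g) ≤ N ∧ b k + P * (g₀ + g) ≤ N := by
      intro g hg
      rw [mem_Icc] at hg
      have h4 : P * (g₀ + g) ≤ P * (g₀ + G) := Nat.mul_le_mul_left _ (by omega)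
      have := ha k hk
      have := hb k hk
      omega
    refine (sum_le_sum fun g hg => hterm _ _ (hle g hg).1 (hle g hg).2).trans ?_
    rw [sum_add_distrib, ← mul_sum, sum_add_distrib]
    have h5 := mul_le_mul_of_nonneg_left (add_le_add h2 h3) hl0
    have h6 : Real.log N * (2 * √(N : ℝ) * Real.log N + 2 * √(N : ℝ) * Real.log N) = 4 * √(N : ℝ) * Real.log N ^ 2 := by
      ring
    rw [h6] at h5
    exact add_le_add le_rfl h5
  refine (sum_le_sum h1).trans ?_
  rw [sum_add_distrib, sum_const, nsmul_eq_mul, sum_comm, mul_sum]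
  refine add_le_add (le_of_eq (sum_congr rfl fun g _ => ?_)) le_rfl
  unfold RR
  rw [← sum_filter, sum_const, nsmul_eq_mul, mul_comm]

end Pool.Agent.P8H6.SS
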