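import Pool.Agent.Y877.SxA

/-!
# The same shift for two dense sequences of primes: statements of the packages (helper6)

`Vz y` is the product of `1 - 1/p` over the primes `p ≤ y`, `fd y z d` the product of `(1 - 1/p)⁻¹` over the primes
`y < p ≤ z` dividing `d` (`Pool.Agent.Y877.SxA`, `Pool.Agent.H373R2.T7.LamZ`).
-/

set_option autoImplicit false

namespace Pool.Agent.P8H6.SS

open Finset Pool.Agent.H373R2.T7 Pool.Agent.Y877.SX

/-- package S4: upper bound sieve for four forms `v i + P (u + g)`, `P` the product of the primes up to `y` -/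
def S_S4 : Prop := ∃ C : ℝ, 0 < C ∧ ∃ G₀ : ℕ, ∀ G Z y u : ℕ, G₀ ≤ G → 17 ≤ y → ∀ v : Fin 4 → ℕ,
  Function.Injective v → (∀ i, v i ≤ Z) →
    (((Icc 1 G).filter (fun g => ∀ i, (v i + primorial y * (u + g)).Prime)).card : ℝ) ≤
      C * (G / (Vz y * Real.log G) ^ 4) *
        ∏ x ∈ (univ : Finset (Fin 4 × Fin 4)).filter (fun x => x.1 < x.2), fd y Z (Nat.dist (v x.1) (v x.2)) ^ 4

/-- package MOM: the mean of `fd ^ j` over the values of an injective function with dense image -/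
def S_MOM : Prop := ∀ (ι : Type) (T : Finset ι) (f : ι → ℤ) (N y z j m : ℕ), Set.InjOn f T →
  (∀ t ∈ T, f t ≠ 0 ∧ (f t).natAbs ≤ N) → 1 ≤ m → 1 ≤ y → 3 * (j * m) ≤ y → 4 * N ≤ 2 ^ m * T.card →
    ∑ t ∈ T, fd y z (f t).natAbs ^ j ≤ 2 * T.card

end Pool.Agent.P8H6.SS
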