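import Pool.Agent.P8H6.SS.First
import Pool.Agent.P8H6.SS.Stm

/-!
# The second moment: algebra
-/

set_option autoImplicit false

namespace Pool.Agent.P8H6.SS

open Finset Pool.Agent.H373R2.T7 Pool.Agent.Y877.SX

open Classical in
/-- the number of `g` for which all four values are prime -/
noncomputable def QQ (a b : ℕ → ℕ) (P g₀ G k k' : ℕ) : ℕ :=
  ((Icc 1 G).filter (fun g => (a k + P * (g₀ + g)).Prime ∧ (b k + P * (g₀ + g)).Prime ∧
    (a k' + P * (g₀ + g)).Prime ∧ (b k' + P * (g₀ + g)).Prime)).card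

lemma sum_RR_sq (K : Finset ℕ) (a b : ℕ → ℕ) (P g₀ G : ℕ) :
    ∑ g ∈ Icc 1 G, (RR K a b (P * (g₀ + g)) : ℝ) ^ 2 = ∑ k ∈ K, ∑ k' ∈ K, (QQ a b P g₀ G k k' : ℝ) := by
  classical
  have h1 : ∀ g, (RR K a b (P * (g₀ + g)) : ℝ) ^ 2 = ∑ k ∈ K, ∑ k' ∈ K,
      (if (a k + P * (g₀ + g)).Prime ∧ (b k + P * (g₀ + g)).Prime ∧
        (a k' + P * (g₀ + g)).Prime ∧ (b k' + P * (g₀ + g)).Prime then (1 : ℝ) else 0) := by
    intro g
    have h2 : (RR K a b (P * (g₀ + g)) : ℝ) =
        ∑ k ∈ K, (if (a k + P * (g₀ + g)).Prime ∧ (b k + P * (g₀ + g)).Prime then (1 : ℝ) else 0) := by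
      unfold RR
      rw [← natCast_card_filter]
    rw [h2, sq, sum_mul_sum]
    apply sum_congr rfl
    intro k _
    apply sum_congr rfl
    intro k' _
    by_cases c1 : (a k + P * (g₀ + g)).Prime ∧ (b k + P * (g₀ + g)).Prime
    · by_cases c2 : (a k' + P * (g₀ + g)).Prime ∧ (b k' + P * (g₀ + g)).Prime
      · rw [if_pos c1, if_pos c2, if_pos ⟨c1.1, c1.2, c2.1, c2.2⟩, one_mul]
      · rw [if_pos c1, if_neg c2, if_neg (fun h => c2 ⟨h.2.2.1, h.2.2.2⟩), mul_zero]
    · rw [if_neg c1, zero_mul, if_neg (fun h => c1 ⟨h.1, h.2.1⟩)]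
  rw [sum_congr rfl (fun g _ => h1 g), sum_comm]
  apply sum_congr rfl
  intro k _
  rw [sum_comm]
  apply sum_congr rfl
  intro k' _
  unfold QQ
  rw [natCast_card_filter]

lemma QQ_le (a b : ℕ → ℕ) (P g₀ G k k' : ℕ) : QQ a b P g₀ G k k' ≤ G := by
  unfold QQ
  exact (card_filter_le _ _).trans (by simp)

/-- product at most the sum of the powers -/
lemma prod_le_sum_pow {ι : Type*} (s : Finset ι) (hs : s.Nonempty) (f : ι → ℝ) (h : ∀ i ∈ s, 0 ≤ f i) :
    ∏ i ∈ s, f i ≤ ∑ i ∈ s, f i ^ s.card := by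
  obtain ⟨j, hj, hmax⟩ := s.exists_max_image f hs
  calc ∏ i ∈ s, f i ≤ ∏ _i ∈ s, f j := prod_le_prod h (fun i hi => hmax i hi)
    _ = f j ^ s.card := by rw [prod_const]
    _ ≤ _ := single_le_sum (f := fun i => f i ^ s.card) (fun i hi => pow_nonneg (h i hi) _) hj

lemma filt_six : (univ : Finset (Fin 4 × Fin 4)).filter (fun x => x.1 < x.2) =
    {((0 : Fin 4), (1 : Fin 4)), (0, 2), (0, 3), (1, 2), (1, 3), (2, 3)} := by decide

/-- the six terms -/
noncomputable def SIX (y z p q r s : ℕ) : ℝ :=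
  fd y z (Nat.dist p q) ^ 24 + fd y z (Nat.dist p r) ^ 24 + fd y z (Nat.dist p s) ^ 24 + fd y z (Nat.dist q r) ^ 24 +
    fd y z (Nat.dist q s) ^ 24 + fd y z (Nat.dist r s) ^ 24

lemma prod_six (y z p q r s : ℕ) :
    ∏ x ∈ (univ : Finset (Fin 4 × Fin 4)).filter (fun x => x.1 < x.2),
      fd y z (Nat.dist (![p, q, r, s] x.1) (![p, q, r, s] x.2)) ^ 4 ≤ SIX y z p q r s := by
  refine (prod_le_sum_pow _ (by rw [filt_six]; exact ⟨(0, 1), by simp⟩) _ (fun i _ => pow_nonneg (fd_one' _ _ _) _)).trans ?_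
  have hc : ((univ : Finset (Fin 4 × Fin 4)).filter (fun x => x.1 < x.2)).card = 6 := by decide
  rw [hc, filt_six]
  have e : ∀ x : Fin 4 × Fin 4, (fd y z (Nat.dist (![p, q, r, s] x.1) (![p, q, r, s] x.2)) ^ 4) ^ 6 =
      fd y z (Nat.dist (![p, q, r, s] x.1) (![p, q, r, s] x.2)) ^ 24 := by
    intro x
    rw [← pow_mul]
  simp only [e]
  rw [sum_insert (by decide), sum_insert (by decide), sum_insert (by decide), sum_insert (by decide),
    sum_insert (by decide), sum_singleton]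
  unfold SIX
  apply le_of_eq
  simp only [Matrix.cons_val_zero, Matrix.cons_val_one, Matrix.cons_val]
  ring

lemma SIX_nonneg (y z p q r s : ℕ) : 0 ≤ SIX y z p q r s := by
  unfold SIX
  have := fun d => pow_nonneg (fd_one' y z d) 24
  have h1 := this (Nat.dist p q)
  have h2 := this (Nat.dist p r)
  have h3 := this (Nat.dist p s)
  have h4 := this (Nat.dist q r)
  have h5 := this (Nat.dist q s)
  have h6 := this (Nat.dist r s)
  positivity

lemma natAbs_sub_dist (p q : ℕ) : ((p : ℤ) - q).natAbs = Nat.dist p q := by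
  unfold Nat.dist
  omega

/-- the moment bound for an injective function on `K`, zeros discarded -/
lemma mom_inj (hM : S_MOM) (K : Finset ℕ) (f : ℕ → ℤ) (hf : Set.InjOn f K) (N y z m : ℕ) (h1 : ∀ k ∈ K, (f k).natAbs ≤ N)
    (hm : 1 ≤ m) (hy : 72 * m ≤ y) (hK : 2 ≤ K.card) (hN : 8 * N ≤ 2 ^ m * K.card) :
    ∑ k ∈ K.filter (fun k => f k ≠ 0), fd y z (f k).natAbs ^ 24 ≤ 2 * K.card := by
  classical
  have hT : K.card ≤ (K.filter (fun k => f k ≠ 0)).card + 1 := by
    have h2 := card_filter_add_card_filter_not (s := K) (fun k => f k ≠ 0)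
    have h3 : (K.filter (fun k => ¬ f k ≠ 0)).card ≤ 1 := by
      rw [card_le_one]
      intro i hi j hj
      rw [mem_filter, not_not] at hi hj
      exact hf hi.1 hj.1 (hi.2.trans hj.2.symm)
    omega
  have hle : ((K.filter (fun k => f k ≠ 0)).card : ℝ) ≤ K.card := by
    exact_mod_cast card_filter_le _ _
  refine (hM ℕ (K.filter (fun k => f k ≠ 0)) f N y z 24 m ?_ ?_ hm (by omega) (by omega) ?_).trans (by linarith)
  · intro i hi j hj hij
    rw [mem_coe, mem_filter] at hi hj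
    exact hf hi.1 hj.1 hij
  · intro k hk
    rw [mem_filter] at hk
    exact ⟨hk.2, h1 k hk.1⟩
  · have h4 : K.card ≤ 2 * (K.filter (fun k => f k ≠ 0)).card := by omega
    have h5 : 2 ^ m * K.card ≤ 2 ^ m * (2 * (K.filter (fun k => f k ≠ 0)).card) := Nat.mul_le_mul_left _ h4
    have h6 : 8 * N ≤ 2 * (2 ^ m * (K.filter (fun k => f k ≠ 0)).card) := by
      calc 8 * N ≤ 2 ^ m * K.card := hN
        _ ≤ 2 ^ m * (2 * (K.filter (fun k => f k ≠ 0)).card) := h5
        _ = _ := by ring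
    omega

lemma inj4 (p q r s : ℕ) (h1 : p ≠ q) (h2 : p ≠ r) (h3 : p ≠ s) (h4 : q ≠ r) (h5 : q ≠ s) (h6 : r ≠ s) :
    Function.Injective ![p, q, r, s] := by
  intro i j hij
  fin_cases i <;> fin_cases j <;> simp_all

lemma bad_card (K : Finset ℕ) (a b : ℕ → ℕ) (ha : Set.InjOn a K) (hb : Set.InjOn b K) (k : ℕ) :
    (K.filter (fun k' => ¬ (k' ≠ k ∧ b k' ≠ a k ∧ a k' ≠ b k))).card ≤ 3 := by
  classical
  have h1 : K.filter (fun k' => ¬ (k' ≠ k ∧ b k' ≠ a k ∧ a k' ≠ b k)) ⊆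
      (K.filter (fun k' => k' = k) ∪ K.filter (fun k' => b k' = a k)) ∪ K.filter (fun k' => a k' = b k) := by
    intro k' hk'
    rw [mem_filter] at hk'
    simp only [mem_union, mem_filter]
    by_cases c1 : k' = k
    · exact Or.inl (Or.inl ⟨hk'.1, c1⟩)
    · by_cases c2 : b k' = a k
      · exact Or.inl (Or.inr ⟨hk'.1, c2⟩)
      · by_cases c3 : a k' = b k
        · exact Or.inr ⟨hk'.1, c3⟩
        · exact absurd ⟨c1, c2, c3⟩ hk'.2
  have h2 : (K.filter (fun k' => k' = k)).card ≤ 1 := by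
    rw [card_le_one]
    intro i hi j hj
    rw [mem_filter] at hi hj
    exact hi.2.trans hj.2.symm
  have h3 : (K.filter (fun k' => b k' = a k)).card ≤ 1 := by
    rw [card_le_one]
    intro i hi j hj
    rw [mem_filter] at hi hj
    exact hb hi.1 hj.1 (hi.2.trans hj.2.symm)
  have h4 : (K.filter (fun k' => a k' = b k)).card ≤ 1 := by
    rw [card_le_one]
    intro i hi j hj
    rw [mem_filter] at hi hj
    exact ha hi.1 hj.1 (hi.2.trans hj.2.symm)
  have h5 := card_le_card h1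
  have h6 := card_union_le (K.filter (fun k' => k' = k) ∪ K.filter (fun k' => b k' = a k)) (K.filter (fun k' => a k' = b k))
  have h7 := card_union_le (K.filter (fun k' => k' = k)) (K.filter (fun k' => b k' = a k))
  omega

/-- one difference, `k` fixed -/
lemma one_diff (hM : S_MOM) (K : Finset ℕ) (c : ℕ → ℕ) (hc : Set.InjOn c K) (w N y m : ℕ) (h1 : ∀ k ∈ K, c k ≤ N)
    (hw : w ≤ N) (hm : 1 ≤ m) (hy : 72 * m ≤ y) (hK : 2 ≤ K.card) (hN : 8 * N ≤ 2 ^ m * K.card) (T : Finset ℕ) (hT : T ⊆ K)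
    (hTw : ∀ k ∈ T, w ≠ c k) : ∑ k ∈ T, fd y N (Nat.dist w (c k)) ^ 24 ≤ 2 * K.card := by
  classical
  have h2 := mom_inj hM K (fun k => (w : ℤ) - c k) (by
    intro i hi j hj hij
    exact hc hi hj (by
      have : (w : ℤ) - c i = w - c j := hij
      omega)) N y N m (by
    intro k hk
    have := h1 k hk
    show ((w : ℤ) - c k).natAbs ≤ N
    omega) hm hy hK hN
  refine le_trans ?_ h2
  calc ∑ k ∈ T, fd y N (Nat.dist w (c k)) ^ 24 = ∑ k ∈ T, fd y N ((w : ℤ) - c k).natAbs ^ 24 := by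
        apply sum_congr rfl
        intro k _
        rw [natAbs_sub_dist]
    _ ≤ _ := by
        apply sum_le_sum_of_subset_of_nonneg
        · intro k hk
          rw [mem_filter]
          refine ⟨hT hk, ?_⟩
          have := hTw k hk
          show (w : ℤ) - c k ≠ 0
          omega
        · intro k _ _
          exact pow_nonneg (fd_one' _ _ _) _

lemma sec_alg (h4 : S_S4) (hM : S_MOM) : ∃ C₀ : ℝ, 0 < C₀ ∧ ∃ G₁ : ℕ, ∀ (K : Finset ℕ) (a b : ℕ → ℕ) (N y g₀ G m : ℕ),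
    G₁ ≤ G → 17 ≤ y → Set.InjOn a K → Set.InjOn b K → (∀ k ∈ K, a k ≤ N) → (∀ k ∈ K, b k ≤ N) →
    (∀ k ∈ K, a k ≠ b k) → Set.InjOn (fun k => (b k : ℤ) - a k) K → 1 ≤ m → 72 * m ≤ y → 2 ≤ K.card →
    8 * N ≤ 2 ^ m * K.card →
    ∑ g ∈ Icc 1 G, (RR K a b (primorial y * (g₀ + g)) : ℝ) ^ 2 ≤
      3 * (K.card * G) + C₀ * (K.card ^ 2 * (G / (Vz y * Real.log G) ^ 4)) := by
  classical
  obtain ⟨C, hC, G₀, hS⟩ := h4
  refine ⟨12 * C, by positivity, G₀, fun K a b N y g₀ G m hG hy ha hb haN hbN hab hD hm hmy hK hN => ?_⟩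
  set E : ℝ := G / (Vz y * Real.log G) ^ 4 with hE
  have hE0 : 0 ≤ E := div_nonneg (Nat.cast_nonneg _) (by positivity)
  rw [sum_RR_sq]
  have hg : ∀ k ∈ K, ∀ k' ∈ K, (k' ≠ k ∧ b k' ≠ a k ∧ a k' ≠ b k) →
      (QQ a b (primorial y) g₀ G k k' : ℝ) ≤ C * E * SIX y N (a k) (b k) (a k') (b k') := by
    intro k hk k' hk' hkk
    have h1 := hS G N y g₀ hG hy ![a k, b k, a k', b k'] (inj4 _ _ _ _ (hab k hk)
      (fun h => hkk.1 (ha hk' hk h.symm)) (fun h => hkk.2.1 h.symm) (fun h => hkk.2.2 h.symm)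
      (fun h => hkk.1 (hb hk' hk h.symm)) (hab k' hk')) (by
        intro i
        fin_cases i
        · exact haN k hk
        · exact hbN k hk
        · exact haN k' hk'
        · exact hbN k' hk')
    have h2 : QQ a b (primorial y) g₀ G k k' ≤
        ((Icc 1 G).filter (fun g => ∀ i, (![a k, b k, a k', b k'] i + primorial y * (g₀ + g)).Prime)).card := by
      unfold QQ
      apply card_le_card
      intro g hg
      rw [mem_filter] at hg ⊢
      refine ⟨hg.1, fun i => ?_⟩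
      fin_cases i
      · exact hg.2.1
      · exact hg.2.2.1
      · exact hg.2.2.2.1
      · exact hg.2.2.2.2
    calc (QQ a b (primorial y) g₀ G k k' : ℝ) ≤
        (((Icc 1 G).filter (fun g => ∀ i, (![a k, b k, a k', b k'] i + primorial y * (g₀ + g)).Prime)).card : ℝ) := by
          exact_mod_cast h2
      _ ≤ C * E * ∏ x ∈ (univ : Finset (Fin 4 × Fin 4)).filter (fun x => x.1 < x.2),
          fd y N (Nat.dist (![a k, b k, a k', b k'] x.1) (![a k, b k, a k', b k'] x.2)) ^ 4 := h1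
      _ ≤ _ := mul_le_mul_of_nonneg_left (prod_six _ _ _ _ _ _) (by positivity)
  have hDsum : ∀ T ⊆ K, ∑ k ∈ T, fd y N (Nat.dist (a k) (b k)) ^ 24 ≤ 2 * K.card := by
    intro T hT
    have h2 := mom_inj hM K (fun k => (b k : ℤ) - a k) hD N y N m (by
      intro k hk
      have h1 := haN k hk
      have h2 := hbN k hk
      show ((b k : ℤ) - a k).natAbs ≤ N
      omega) hm hmy hK hN
    refine le_trans ?_ h2
    calc ∑ k ∈ T, fd y N (Nat.dist (a k) (b k)) ^ 24 = ∑ k ∈ T, fd y N ((b k : ℤ) - a k).natAbs ^ 24 := by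
          apply sum_congr rfl
          intro k _
          rw [natAbs_sub_dist, Nat.dist_comm]
      _ ≤ _ := by
          apply sum_le_sum_of_subset_of_nonneg
          · intro k hk
            rw [mem_filter]
            refine ⟨hT hk, ?_⟩
            have := hab k (hT hk)
            show (b k : ℤ) - a k ≠ 0
            omega
          · intro k _ _
            exact pow_nonneg (fd_one' _ _ _) _
  have hone : ∀ k ∈ K, ∑ k' ∈ K, (QQ a b (primorial y) g₀ G k k' : ℝ) ≤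
      3 * G + C * E * (K.card * fd y N (Nat.dist (a k) (b k)) ^ 24 + 10 * K.card) := by
    intro k hk
    rw [← sum_filter_add_sum_filter_not K (fun k' => k' ≠ k ∧ b k' ≠ a k ∧ a k' ≠ b k)]
    set T := K.filter (fun k' => k' ≠ k ∧ b k' ≠ a k ∧ a k' ≠ b k) with hTd
    have hTK : T ⊆ K := filter_subset _ _
    have hTm : ∀ k' ∈ T, k' ∈ K ∧ k' ≠ k ∧ b k' ≠ a k ∧ a k' ≠ b k := by
      intro k' hk'
      rw [hTd, mem_filter] at hk'
      exact hk'
    have b1 : ∑ k' ∈ K.filter (fun k' => ¬ (k' ≠ k ∧ b k' ≠ a k ∧ a k' ≠ b k)), (QQ a b (primorial y) g₀ G k k' : ℝ) ≤ 3 * G := by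
      calc ∑ k' ∈ K.filter (fun k' => ¬ (k' ≠ k ∧ b k' ≠ a k ∧ a k' ≠ b k)), (QQ a b (primorial y) g₀ G k k' : ℝ) ≤
          ∑ _k' ∈ K.filter (fun k' => ¬ (k' ≠ k ∧ b k' ≠ a k ∧ a k' ≠ b k)), (G : ℝ) := by
            apply sum_le_sum
            intro k' _
            exact_mod_cast QQ_le a b _ _ _ _ _
        _ = ((K.filter (fun k' => ¬ (k' ≠ k ∧ b k' ≠ a k ∧ a k' ≠ b k))).card : ℝ) * G := by
            rw [sum_const, nsmul_eq_mul]
        _ ≤ 3 * G := by
            apply mul_le_mul_of_nonneg_right _ (Nat.cast_nonneg _)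
            exact_mod_cast bad_card K a b ha hb k
    have b2 : ∑ k' ∈ T, (QQ a b (primorial y) g₀ G k k' : ℝ) ≤
        C * E * ∑ k' ∈ T, SIX y N (a k) (b k) (a k') (b k') := by
      rw [mul_sum]
      apply sum_le_sum
      intro k' hk'
      exact hg k hk k' (hTm k' hk').1 (hTm k' hk').2
    have b3 : ∑ k' ∈ T, SIX y N (a k) (b k) (a k') (b k') ≤
        K.card * fd y N (Nat.dist (a k) (b k)) ^ 24 + 10 * K.card := by
      unfold SIX
      rw [sum_add_distrib, sum_add_distrib, sum_add_distrib, sum_add_distrib, sum_add_distrib, sum_const, nsmul_eq_mul]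
      have c0 : (T.card : ℝ) * fd y N (Nat.dist (a k) (b k)) ^ 24 ≤ K.card * fd y N (Nat.dist (a k) (b k)) ^ 24 := by
        apply mul_le_mul_of_nonneg_right _ (pow_nonneg (fd_one' _ _ _) _)
        exact_mod_cast card_le_card hTK
      have c1 := one_diff hM K a ha (a k) N y m haN (haN k hk) hm hmy hK hN T hTK
        (fun k' hk' h => (hTm k' hk').2.1 (ha (hTm k' hk').1 hk h.symm))
      have c2 := one_diff hM K b hb (a k) N y m hbN (haN k hk) hm hmy hK hN T hTK
        (fun k' hk' h => (hTm k' hk').2.2.1 h.symm)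
      have c3 := one_diff hM K a ha (b k) N y m haN (hbN k hk) hm hmy hK hN T hTK
        (fun k' hk' h => (hTm k' hk').2.2.2 h.symm)
      have c4 := one_diff hM K b hb (b k) N y m hbN (hbN k hk) hm hmy hK hN T hTK
        (fun k' hk' h => (hTm k' hk').2.1 (hb (hTm k' hk').1 hk h.symm))
      have c5 := hDsum T hTK
      linarith
    have b4 := mul_le_mul_of_nonneg_left b3 (show 0 ≤ C * E by positivity)
    linarith
  calc ∑ k ∈ K, ∑ k' ∈ K, (QQ a b (primorial y) g₀ G k k' : ℝ) ≤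
      ∑ k ∈ K, (3 * G + C * E * (K.card * fd y N (Nat.dist (a k) (b k)) ^ 24 + 10 * K.card)) := sum_le_sum hone
    _ = 3 * (K.card * G) + C * E * (K.card * ∑ k ∈ K, fd y N (Nat.dist (a k) (b k)) ^ 24 + 10 * K.card ^ 2) := by
        simp only [sum_add_distrib, ← mul_sum, sum_const, nsmul_eq_mul]
        ring
    _ ≤ 3 * (K.card * G) + C * E * (K.card * (2 * K.card) + 10 * K.card ^ 2) := by
        have h1 := hDsum K (Subset.refl _)
        have h2 : (0 : ℝ) ≤ K.card := Nat.cast_nonneg _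
        have h3 := mul_le_mul_of_nonneg_left h1 h2
        have h4 : 0 ≤ C * E := by positivity
        have h5 := mul_le_mul_of_nonneg_left h3 h4
        nlinarith
    _ = _ := by ring

end Pool.Agent.P8H6.SS
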