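import Pool.Agent.P8H6.SS.Sec2
import Mathlib.Combinatorics.Additive.Energy

/-!
# The same shift: the additive energy of the two sets of indices
-/

set_option autoImplicit false

namespace Pool.Agent.P8H6.SS

open Finset Pool.Agent.H373R2.T7 Pool.Agent.Y877.SX
open scoped Pointwise Combinatorics.Additive

lemma mom_any (hM : S_MOM) (T : Finset ℕ) (f : ℕ → ℤ) (hf : Set.InjOn f T) (N y z m W : ℕ)
    (h1 : ∀ k ∈ T, f k ≠ 0 ∧ (f k).natAbs ≤ N) (hm : 1 ≤ m) (hy : 72 * m ≤ y) (hT : T.card ≤ W) (hW : W ≤ 2 * N)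
    (hN : 4 * N ≤ 2 ^ m * W) : ∑ k ∈ T, fd y z (f k).natAbs ^ 24 ≤ 2 * W := by
  classical
  have hS : T.image f ⊆ (Icc (-(N : ℤ)) N).erase 0 := by
    intro x hx
    rw [mem_image] at hx
    obtain ⟨k, hk, rfl⟩ := hx
    rw [mem_erase, mem_Icc]
    have := h1 k hk
    exact ⟨this.1, by omega, by omega⟩
  have hc : ((Icc (-(N : ℤ)) N).erase 0).card = 2 * N := by
    rw [card_erase_of_mem (by rw [mem_Icc]; omega), Int.card_Icc]
    omega
  have hi : (T.image f).card = T.card := card_image_of_injOn hf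
  obtain ⟨u, hu1, hu2, hu3⟩ := exists_subsuperset_card_eq (n := W) hS (by rw [hi]; exact hT) (by rw [hc]; exact hW)
  have h2 := hM ℤ u id N y z 24 m (Function.injective_id.injOn) (by
    intro t ht
    have h3 := hu2 ht
    rw [mem_erase, mem_Icc] at h3
    show t ≠ 0 ∧ t.natAbs ≤ N
    exact ⟨h3.1, by omega⟩) hm (by omega) (by omega) (by rw [hu3]; exact hN)
  rw [hu3] at h2
  refine le_trans ?_ h2
  calc ∑ k ∈ T, fd y z (f k).natAbs ^ 24 = ∑ x ∈ T.image f, fd y z x.natAbs ^ 24 := by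
        rw [sum_image hf]
    _ ≤ ∑ x ∈ u, fd y z (id x).natAbs ^ 24 :=
        sum_le_sum_of_subset_of_nonneg hu1 (fun _ _ _ => pow_nonneg (fd_one' _ _ _) _)

lemma mom_dist (hM : S_MOM) (T : Finset ℕ) (u v : ℕ → ℕ) (hf : Set.InjOn (fun k => (u k : ℤ) - v k) T) (N y m W : ℕ)
    (hu : ∀ k ∈ T, u k ≤ N) (hv : ∀ k ∈ T, v k ≤ N) (hne : ∀ k ∈ T, u k ≠ v k)
    (hm : 1 ≤ m) (hy : 72 * m ≤ y) (hT : T.card ≤ W) (hW : W ≤ 2 * N) (hN : 4 * N ≤ 2 ^ m * W) :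
    ∑ k ∈ T, fd y N (Nat.dist (u k) (v k)) ^ 24 ≤ 2 * W := by
  refine le_trans (le_of_eq ?_) (mom_any hM T (fun k => (u k : ℤ) - v k) hf N y N m W ?_ hm hy hT hW hN)
  · apply sum_congr rfl
    intro k _
    rw [natAbs_sub_dist]
  · intro k hk
    have h1 := hu k hk
    have h2 := hv k hk
    have h3 := hne k hk
    show (u k : ℤ) - v k ≠ 0 ∧ ((u k : ℤ) - v k).natAbs ≤ N
    omega

/-- the additive quadruples -/
def Q (A B : Finset ℕ) : Finset ((ℕ × ℕ) × (ℕ × ℕ)) :=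
  ((A ×ˢ B) ×ˢ (A ×ˢ B)).filter (fun x => x.1.1 + x.1.2 = x.2.1 + x.2.2)

lemma mem_Q (A B : Finset ℕ) (x : (ℕ × ℕ) × (ℕ × ℕ)) : x ∈ Q A B ↔
    ((x.1.1 ∈ A ∧ x.1.2 ∈ B) ∧ (x.2.1 ∈ A ∧ x.2.2 ∈ B)) ∧ x.1.1 + x.1.2 = x.2.1 + x.2.2 := by
  unfold Q
  rw [mem_filter, mem_product, mem_product, mem_product]

lemma fib (A B : Finset ℕ) (R : (ℕ × ℕ) × (ℕ × ℕ) → Prop) [DecidablePred R] (F : (ℕ × ℕ) × (ℕ × ℕ) → ℝ) :
    ∑ x ∈ (Q A B).filter R, F x = ∑ p ∈ A ×ˢ B, ∑ k ∈ A.filter (fun k => k ≤ p.1 + p.2 ∧ p.1 + p.2 - k ∈ B ∧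
      R (p, (k, p.1 + p.2 - k))), F (p, (k, p.1 + p.2 - k)) := by
  rw [sum_sigma']
  have key : ∀ x ∈ (Q A B).filter R, (x.1, (x.2.1, x.1.1 + x.1.2 - x.2.1)) = x := by
    intro x hx
    rw [mem_filter, mem_Q] at hx
    have h1 : x.1.1 + x.1.2 - x.2.1 = x.2.2 := by omega
    rw [h1]
  refine sum_bij' (fun x _ => (⟨x.1, x.2.1⟩ : Sigma fun _ : ℕ × ℕ => ℕ)) (fun s _ => (s.1, (s.2, s.1.1 + s.1.2 - s.2)))
    ?_ ?_ ?_ ?_ ?_
  · intro x hx
    have h0 := key x hx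
    rw [mem_filter, mem_Q] at hx
    have h1 : x.1.1 + x.1.2 - x.2.1 = x.2.2 := by omega
    rw [mem_sigma, mem_product, mem_filter]
    refine ⟨hx.1.1.1, hx.1.1.2.1, by show x.2.1 ≤ x.1.1 + x.1.2; omega, ?_, ?_⟩
    · show x.1.1 + x.1.2 - x.2.1 ∈ B
      rw [h1]
      exact hx.1.1.2.2
    · show R (x.1, (x.2.1, x.1.1 + x.1.2 - x.2.1))
      rw [h0]
      exact hx.2
  · rintro ⟨p, k⟩ hs
    rw [mem_sigma, mem_product, mem_filter] at hs
    rw [mem_filter, mem_Q]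
    have h2 : k ≤ p.1 + p.2 := hs.2.2.1
    refine ⟨⟨⟨hs.1, hs.2.1, hs.2.2.2.1⟩, ?_⟩, hs.2.2.2.2⟩
    show p.1 + p.2 = k + (p.1 + p.2 - k)
    omega
  · intro x hx
    exact key x hx
  · rintro ⟨p, k⟩ _
    rfl
  · intro x hx
    show F x = F (x.1, (x.2.1, x.1.1 + x.1.2 - x.2.1))
    rw [key x hx]

lemma Q_swap (A B : Finset ℕ) (R : (ℕ × ℕ) × (ℕ × ℕ) → Prop) [DecidablePred R] (F : (ℕ × ℕ) × (ℕ × ℕ) → ℝ) :
    ∑ x ∈ (Q A B).filter R, F x = ∑ x ∈ (Q A B).filter (fun x => R (x.2, x.1)), F (x.2, x.1) := by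
  refine sum_bij' (fun x _ => (x.2, x.1)) (fun x _ => (x.2, x.1)) ?_ ?_ ?_ ?_ ?_
  · intro x hx
    rw [mem_filter, mem_Q] at hx ⊢
    exact ⟨⟨⟨hx.1.1.2, hx.1.1.1⟩, hx.1.2.symm⟩, hx.2⟩
  · intro x hx
    rw [mem_filter, mem_Q] at hx ⊢
    exact ⟨⟨⟨hx.1.1.2, hx.1.1.1⟩, hx.1.2.symm⟩, hx.2⟩
  · intro x _
    rfl
  · intro x _
    rfl
  · intro x _
    rfl

/-- nondegenerate quadruples -/
def Gd (a b : ℕ → ℕ) (x : (ℕ × ℕ) × (ℕ × ℕ)) : Prop :=
  x.2.1 ≠ x.1.1 ∧ a x.1.1 ≠ b x.1.2 ∧ a x.1.1 ≠ b x.2.2 ∧ a x.2.1 ≠ b x.1.2 ∧ a x.2.1 ≠ b x.2.2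

instance (a b : ℕ → ℕ) : DecidablePred (Gd a b) := fun x => by unfold Gd; infer_instance

section six

variable (hM : S_MOM) (A B : Finset ℕ) (a b : ℕ → ℕ) (N y m : ℕ)
include hM

/-- the moment over the pairs `(k, m)` -/
lemma pair_sum (ha : ∀ k ∈ A, a k ≤ N) (hb : ∀ k ∈ B, b k ≤ N) (hbi : Set.InjOn b B)
    (hm : 1 ≤ m) (hy : 72 * m ≤ y) (hBN : B.card ≤ 2 * N) (hN : 4 * N ≤ 2 ^ m * B.card) :
    ∑ p ∈ (A ×ˢ B).filter (fun p => a p.1 ≠ b p.2), fd y N (Nat.dist (a p.1) (b p.2)) ^ 24 ≤ A.card * (2 * B.card) := by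
  rw [sum_filter, sum_product]
  calc ∑ k ∈ A, ∑ l ∈ B, (if a k ≠ b l then fd y N (Nat.dist (a k) (b l)) ^ 24 else 0) ≤ ∑ _k ∈ A, 2 * (B.card : ℝ) := by
        apply sum_le_sum
        intro k hk
        rw [← sum_filter]
        refine mom_dist hM (B.filter (fun l => a k ≠ b l)) (fun _ => a k) b ?_ N y m B.card ?_ ?_ ?_ hm hy
          (card_filter_le _ _) hBN hN
        · intro i hi j hj hij
          rw [mem_coe, mem_filter] at hi hj
          apply hbi hi.1 hj.1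
          have : ((a k : ℤ) - b i) = a k - b j := hij
          omega
        · intro l _
          exact ha k hk
        · intro l hl
          exact hb l (mem_filter.1 hl).1
        · intro l hl
          exact (mem_filter.1 hl).2
    _ = _ := by rw [sum_const, nsmul_eq_mul]

lemma six_sum (ha : ∀ k ∈ A, a k ≤ N) (hb : ∀ k ∈ B, b k ≤ N) (hai : Set.InjOn a A) (hbi : Set.InjOn b B)
    (hm : 1 ≤ m) (hy : 72 * m ≤ y) (hAB : A.card ≤ B.card) (hBN : B.card ≤ 2 * N) (hN : 4 * N ≤ 2 ^ m * A.card) :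
    ∑ x ∈ (Q A B).filter (Gd a b), SIX y N (a x.1.1) (a x.2.1) (b x.1.2) (b x.2.2) ≤ 12 * (A.card ^ 2 * B.card) := by
  classical
  have hNB : 4 * N ≤ 2 ^ m * B.card := hN.trans (Nat.mul_le_mul_left _ hAB)
  have hAN : A.card ≤ 2 * N := hAB.trans hBN
  -- the outer sum
  have outer : ∀ F : (ℕ × ℕ) × (ℕ × ℕ) → ℝ, (∀ p ∈ A ×ˢ B, ∑ k ∈ A.filter (fun k => k ≤ p.1 + p.2 ∧ p.1 + p.2 - k ∈ B ∧
      Gd a b (p, (k, p.1 + p.2 - k))), F (p, (k, p.1 + p.2 - k)) ≤ 2 * A.card) →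
      ∑ x ∈ (Q A B).filter (Gd a b), F x ≤ 2 * (A.card ^ 2 * B.card) := by
    intro F hF
    rw [fib]
    calc _ ≤ ∑ _p ∈ A ×ˢ B, 2 * (A.card : ℝ) := sum_le_sum hF
      _ = _ := by
        rw [sum_const, nsmul_eq_mul, card_product]
        push_cast
        ring
  have P1 := outer (fun x => fd y N (Nat.dist (a x.1.1) (a x.2.1)) ^ 24) (by
    intro p hp
    rw [mem_product] at hp
    refine mom_dist hM _ (fun _ => a p.1) a ?_ N y m A.card (fun k _ => ha _ hp.1)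
      (fun k hk => ha k (mem_filter.1 hk).1) ?_ hm hy (card_filter_le _ _) hAN hN
    · intro i hi j hj hij
      rw [mem_coe, mem_filter] at hi hj
      apply hai hi.1 hj.1
      have : ((a p.1 : ℤ) - a i) = a p.1 - a j := hij
      omega
    · intro k hk h
      rw [mem_filter] at hk
      exact hk.2.2.2.1 (hai hk.1 hp.1 h.symm))
  have P3 := outer (fun x => fd y N (Nat.dist (a x.1.1) (b x.2.2)) ^ 24) (by
    intro p hp
    rw [mem_product] at hp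
    refine mom_dist hM _ (fun _ => a p.1) (fun k => b (p.1 + p.2 - k)) ?_ N y m A.card (fun k _ => ha _ hp.1)
      (fun k hk => hb _ (mem_filter.1 hk).2.2.1) ?_ hm hy (card_filter_le _ _) hAN hN
    · intro i hi j hj hij
      rw [mem_coe, mem_filter] at hi hj
      have h1 : ((a p.1 : ℤ) - b (p.1 + p.2 - i)) = a p.1 - b (p.1 + p.2 - j) := hij
      have h2 := hbi hi.2.2.1 hj.2.2.1 (by omega)
      have h3 := hi.2.1
      have h4 := hj.2.1
      omega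
    · intro k hk
      rw [mem_filter] at hk
      exact hk.2.2.2.2.2.1)
  have P4 := outer (fun x => fd y N (Nat.dist (a x.2.1) (b x.1.2)) ^ 24) (by
    intro p hp
    rw [mem_product] at hp
    refine mom_dist hM _ a (fun _ => b p.2) ?_ N y m A.card (fun k hk => ha k (mem_filter.1 hk).1)
      (fun k _ => hb _ hp.2) ?_ hm hy (card_filter_le _ _) hAN hN
    · intro i hi j hj hij
      rw [mem_coe, mem_filter] at hi hj
      apply hai hi.1 hj.1
      have : ((a i : ℤ) - b p.2) = a j - b p.2 := hij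
      omega
    · intro k hk
      rw [mem_filter] at hk
      exact hk.2.2.2.2.2.2.1)
  have P5 := outer (fun x => fd y N (Nat.dist (b x.1.2) (b x.2.2)) ^ 24) (by
    intro p hp
    rw [mem_product] at hp
    refine mom_dist hM _ (fun _ => b p.2) (fun k => b (p.1 + p.2 - k)) ?_ N y m A.card (fun k _ => hb _ hp.2)
      (fun k hk => hb _ (mem_filter.1 hk).2.2.1) ?_ hm hy (card_filter_le _ _) hAN hN
    · intro i hi j hj hij
      rw [mem_coe, mem_filter] at hi hj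
      have h1 : ((b p.2 : ℤ) - b (p.1 + p.2 - i)) = b p.2 - b (p.1 + p.2 - j) := hij
      have h2 := hbi hi.2.2.1 hj.2.2.1 (by omega)
      have h3 := hi.2.1
      have h4 := hj.2.1
      omega
    · intro k hk h
      rw [mem_filter] at hk
      have h2 := hbi hp.2 hk.2.2.1 h
      have h3 := hk.2.1
      have h4 : k ≠ p.1 := hk.2.2.2.1
      omega)
  have P2 : ∀ R : (ℕ × ℕ) × (ℕ × ℕ) → Prop, ∀ _ : DecidablePred R, (∀ x, R x → a x.1.1 ≠ b x.1.2) →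
      ∑ x ∈ (Q A B).filter R, fd y N (Nat.dist (a x.1.1) (b x.1.2)) ^ 24 ≤ 2 * (A.card ^ 2 * B.card) := by
    intro R _ hR
    rw [fib]
    calc _ ≤ ∑ p ∈ A ×ˢ B, (if a p.1 ≠ b p.2 then (A.card : ℝ) * fd y N (Nat.dist (a p.1) (b p.2)) ^ 24 else 0) := by
          apply sum_le_sum
          intro p hp
          show ∑ _k ∈ A.filter (fun k => k ≤ p.1 + p.2 ∧ p.1 + p.2 - k ∈ B ∧ R (p, (k, p.1 + p.2 - k))),
            fd y N (Nat.dist (a p.1) (b p.2)) ^ 24 ≤ _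
          split_ifs with hc
          · rw [sum_const, nsmul_eq_mul]
            apply mul_le_mul_of_nonneg_right _ (pow_nonneg (fd_one' _ _ _) _)
            exact_mod_cast card_filter_le _ _
          · rw [filter_false_of_mem, sum_empty]
            intro k _ hk
            exact hc (hR _ hk.2.2)
      _ = A.card * ∑ p ∈ (A ×ˢ B).filter (fun p => a p.1 ≠ b p.2), fd y N (Nat.dist (a p.1) (b p.2)) ^ 24 := by
          rw [sum_filter, mul_sum]
          apply sum_congr rfl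
          intro p _
          split_ifs
          · rfl
          · rw [mul_zero]
      _ ≤ A.card * (A.card * (2 * B.card)) :=
          mul_le_mul_of_nonneg_left (pair_sum hM A B a b N y m ha hb hbi hm hy hBN hNB) (Nat.cast_nonneg _)
      _ = _ := by ring
  have P2' := P2 (Gd a b) inferInstance (fun x hx => hx.2.1)
  have P6 : ∑ x ∈ (Q A B).filter (Gd a b), fd y N (Nat.dist (a x.2.1) (b x.2.2)) ^ 24 ≤ 2 * (A.card ^ 2 * B.card) := by
    rw [Q_swap]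
    exact P2 (fun x => Gd a b (x.2, x.1)) inferInstance (fun x hx => hx.2.2.2.2)
  unfold SIX
  rw [sum_add_distrib, sum_add_distrib, sum_add_distrib, sum_add_distrib, sum_add_distrib]
  linarith

end six

end Pool.Agent.P8H6.SS
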