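import Pool.Agent.P8H6.SS.Sums

/-!
# The same shift: the mean of the additive energy over the shifts
-/

set_option autoImplicit false

namespace Pool.Agent.P8H6.SS

open Finset Pool.Agent.H373R2.T7 Pool.Agent.Y877.SX
open scoped Pointwise Combinatorics.Additive

lemma cnt_one (A B : Finset ℕ) (R : (ℕ × ℕ) × (ℕ × ℕ) → Prop) [DecidablePred R]
    (h : ∀ p ∈ A ×ˢ B, (A.filter (fun k => k ≤ p.1 + p.2 ∧ p.1 + p.2 - k ∈ B ∧ R (p, (k, p.1 + p.2 - k)))).card ≤ 1) :
    (((Q A B).filter R).card : ℝ) ≤ A.card * B.card := by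
  have h1 : (((Q A B).filter R).card : ℝ) = ∑ _x ∈ (Q A B).filter R, (1 : ℝ) := by
    rw [sum_const, nsmul_eq_mul, mul_one]
  rw [h1, fib]
  calc _ ≤ ∑ _p ∈ A ×ˢ B, (1 : ℝ) := by
        apply sum_le_sum
        intro p hp
        rw [sum_const, nsmul_eq_mul, mul_one]
        exact_mod_cast h p hp
    _ = _ := by
        rw [sum_const, nsmul_eq_mul, mul_one, card_product]
        push_cast
        ring

lemma cnt_two (A B : Finset ℕ) (a b : ℕ → ℕ) (hbi : Set.InjOn b B) (hAB : A.card ≤ B.card) :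
    (((Q A B).filter (fun x => a x.1.1 = b x.1.2)).card : ℝ) ≤ A.card * B.card := by
  have h1 : (((Q A B).filter (fun x => a x.1.1 = b x.1.2)).card : ℝ) =
      ∑ _x ∈ (Q A B).filter (fun x => a x.1.1 = b x.1.2), (1 : ℝ) := by
    rw [sum_const, nsmul_eq_mul, mul_one]
  rw [h1, fib]
  calc _ ≤ ∑ p ∈ A ×ˢ B, (if a p.1 = b p.2 then (A.card : ℝ) else 0) := by
        apply sum_le_sum
        intro p _
        rw [sum_const, nsmul_eq_mul, mul_one]
        split_ifs with hc
        · exact_mod_cast card_filter_le _ _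
        · rw [filter_false_of_mem, card_empty, Nat.cast_zero]
          intro k _ hk
          exact hc hk.2.2
    _ = ∑ k ∈ A, ∑ l ∈ B, (if a k = b l then (A.card : ℝ) else 0) := by rw [sum_product]
    _ ≤ ∑ _k ∈ A, (A.card : ℝ) := by
        apply sum_le_sum
        intro k _
        rw [← sum_filter, sum_const, nsmul_eq_mul]
        have h2 : (B.filter (fun l => a k = b l)).card ≤ 1 := by
          rw [card_le_one]
          intro i hi j hj
          rw [mem_filter] at hi hj
          exact hbi hi.1 hj.1 (hi.2.symm.trans hj.2)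
        have h3 : ((B.filter (fun l => a k = b l)).card : ℝ) ≤ 1 := by exact_mod_cast h2
        calc ((B.filter (fun l => a k = b l)).card : ℝ) * A.card ≤ 1 * A.card :=
              mul_le_mul_of_nonneg_right h3 (Nat.cast_nonneg _)
          _ = _ := one_mul _
    _ = A.card * A.card := by rw [sum_const, nsmul_eq_mul]
    _ ≤ A.card * B.card := by
        apply mul_le_mul_of_nonneg_left _ (Nat.cast_nonneg _)
        exact_mod_cast hAB

lemma card_swap (A B : Finset ℕ) (R : (ℕ × ℕ) × (ℕ × ℕ) → Prop) [DecidablePred R] :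
    (((Q A B).filter R).card : ℝ) = (((Q A B).filter (fun x => R (x.2, x.1))).card : ℝ) := by
  have h := Q_swap A B R (fun _ => (1 : ℝ))
  rw [sum_const, sum_const, nsmul_eq_mul, nsmul_eq_mul, mul_one, mul_one] at h
  exact h

lemma bad_count (A B : Finset ℕ) (a b : ℕ → ℕ) (hai : Set.InjOn a A) (hbi : Set.InjOn b B) (hAB : A.card ≤ B.card) :
    (((Q A B).filter (fun x => ¬ Gd a b x)).card : ℝ) ≤ 5 * (A.card * B.card) := by
  classical
  have e1 := cnt_one A B (fun x => x.2.1 = x.1.1) (by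
    intro p _
    rw [card_le_one]
    intro i hi j hj
    rw [mem_filter] at hi hj
    exact hi.2.2.2.trans hj.2.2.2.symm)
  have e2 := cnt_two A B a b hbi hAB
  have e3 := cnt_one A B (fun x => a x.1.1 = b x.2.2) (by
    intro p _
    rw [card_le_one]
    intro i hi j hj
    rw [mem_filter] at hi hj
    have h1 : a p.1 = b (p.1 + p.2 - i) := hi.2.2.2
    have h2 : a p.1 = b (p.1 + p.2 - j) := hj.2.2.2
    have h3 := hbi hi.2.2.1 hj.2.2.1 (h1.symm.trans h2)
    have h4 := hi.2.1
    have h5 := hj.2.1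
    omega)
  have e4 := cnt_one A B (fun x => a x.2.1 = b x.1.2) (by
    intro p _
    rw [card_le_one]
    intro i hi j hj
    rw [mem_filter] at hi hj
    exact hai hi.1 hj.1 (hi.2.2.2.trans hj.2.2.2.symm))
  have e5 : (((Q A B).filter (fun x => a x.2.1 = b x.2.2)).card : ℝ) ≤ A.card * B.card := by
    rw [card_swap]
    exact e2
  have h0 : (((Q A B).filter (fun x => ¬ Gd a b x)).card : ℝ) ≤
      (((Q A B).filter (fun x => x.2.1 = x.1.1)).card : ℝ) + (((Q A B).filter (fun x => a x.1.1 = b x.1.2)).card : ℝ) +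
      (((Q A B).filter (fun x => a x.1.1 = b x.2.2)).card : ℝ) + (((Q A B).filter (fun x => a x.2.1 = b x.1.2)).card : ℝ) +
      (((Q A B).filter (fun x => a x.2.1 = b x.2.2)).card : ℝ) := by
    rw [natCast_card_filter, natCast_card_filter, natCast_card_filter, natCast_card_filter, natCast_card_filter,
      natCast_card_filter, ← sum_add_distrib, ← sum_add_distrib, ← sum_add_distrib, ← sum_add_distrib]
    apply sum_le_sum
    intro x _
    have pos : ∀ P : Prop, [Decidable P] → (0 : ℝ) ≤ if P then 1 else 0 := fun P _ => by split_ifs <;> norm_num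
    have p1 := pos (x.2.1 = x.1.1)
    have p2 := pos (a x.1.1 = b x.1.2)
    have p3 := pos (a x.1.1 = b x.2.2)
    have p4 := pos (a x.2.1 = b x.1.2)
    have p5 := pos (a x.2.1 = b x.2.2)
    by_cases hg : Gd a b x
    · rw [if_neg (not_not.2 hg)]
      linarith
    · rw [if_pos hg]
      by_cases c1 : x.2.1 = x.1.1
      · rw [if_pos c1]
        linarith
      · by_cases c2 : a x.1.1 = b x.1.2
        · rw [if_pos c2]
          linarith
        · by_cases c3 : a x.1.1 = b x.2.2
          · rw [if_pos c3]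
            linarith
          · by_cases c4 : a x.2.1 = b x.1.2
            · rw [if_pos c4]
              linarith
            · by_cases c5 : a x.2.1 = b x.2.2
              · rw [if_pos c5]
                linarith
              · exact absurd ⟨c1, c2, c3, c4, c5⟩ hg
  linarith

/-- the indices with `a k + h` prime -/
def AG (A : Finset ℕ) (a : ℕ → ℕ) (h : ℕ) : Finset ℕ := A.filter (fun k => (a k + h).Prime)

lemma energy_eq (A B : Finset ℕ) (a b : ℕ → ℕ) (h : ℕ) : E[AG A a h, AG B b h] =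
    ((Q A B).filter (fun x => ((a x.1.1 + h).Prime ∧ (b x.1.2 + h).Prime) ∧ ((a x.2.1 + h).Prime ∧ (b x.2.2 + h).Prime))).card := by
  rw [addEnergy_eq_card_filter]
  congr 1
  ext x
  simp only [AG, Q, mem_filter, mem_product]
  tauto

theorem energy_alg (h4 : S_S4) (hM : S_MOM) : ∃ C₀ : ℝ, 0 < C₀ ∧ ∃ G₁ : ℕ, ∀ (A B : Finset ℕ) (a b : ℕ → ℕ) (N y g₀ G m : ℕ),
    G₁ ≤ G → 17 ≤ y → Set.InjOn a A → Set.InjOn b B → (∀ k ∈ A, a k ≤ N) → (∀ k ∈ B, b k ≤ N) → 1 ≤ m → 72 * m ≤ y →
    A.card ≤ B.card → B.card ≤ 2 * N → 4 * N ≤ 2 ^ m * A.card →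
    ∑ g ∈ Icc 1 G, (E[AG A a (primorial y * (g₀ + g)), AG B b (primorial y * (g₀ + g))] : ℝ) ≤
      5 * (A.card * B.card) * G + C₀ * ((A.card ^ 2 * B.card) * (G / (Vz y * Real.log G) ^ 4)) := by
  classical
  obtain ⟨C, hC, G₀, hS⟩ := h4
  refine ⟨12 * C, by positivity, G₀, fun A B a b N y g₀ G m hG hy ha hb haN hbN hm hmy hAB hBN hN => ?_⟩
  set E₀ : ℝ := G / (Vz y * Real.log G) ^ 4 with hE
  have hE0 : 0 ≤ E₀ := div_nonneg (Nat.cast_nonneg _) (by positivity)
  have h1 : ∑ g ∈ Icc 1 G, (E[AG A a (primorial y * (g₀ + g)), AG B b (primorial y * (g₀ + g))] : ℝ) =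
      ∑ x ∈ Q A B, (((Icc 1 G).filter (fun g => ((a x.1.1 + primorial y * (g₀ + g)).Prime ∧
        (b x.1.2 + primorial y * (g₀ + g)).Prime) ∧ ((a x.2.1 + primorial y * (g₀ + g)).Prime ∧
          (b x.2.2 + primorial y * (g₀ + g)).Prime))).card : ℝ) := by
    calc _ = ∑ g ∈ Icc 1 G, ∑ x ∈ Q A B, (if ((a x.1.1 + primorial y * (g₀ + g)).Prime ∧
          (b x.1.2 + primorial y * (g₀ + g)).Prime) ∧ ((a x.2.1 + primorial y * (g₀ + g)).Prime ∧
          (b x.2.2 + primorial y * (g₀ + g)).Prime) then (1 : ℝ) else 0) := by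
          apply sum_congr rfl
          intro g _
          rw [energy_eq, natCast_card_filter]
      _ = _ := by
          rw [sum_comm]
          apply sum_congr rfl
          intro x _
          rw [natCast_card_filter]
  rw [h1, ← sum_filter_add_sum_filter_not (Q A B) (Gd a b)]
  have b1 : ∑ x ∈ (Q A B).filter (fun x => ¬ Gd a b x), (((Icc 1 G).filter (fun g => ((a x.1.1 + primorial y * (g₀ + g)).Prime ∧
        (b x.1.2 + primorial y * (g₀ + g)).Prime) ∧ ((a x.2.1 + primorial y * (g₀ + g)).Prime ∧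
          (b x.2.2 + primorial y * (g₀ + g)).Prime))).card : ℝ) ≤ 5 * (A.card * B.card) * G := by
    calc _ ≤ ∑ _x ∈ (Q A B).filter (fun x => ¬ Gd a b x), (G : ℝ) := by
          apply sum_le_sum
          intro x _
          have h2 := card_filter_le (Icc 1 G) (fun g => ((a x.1.1 + primorial y * (g₀ + g)).Prime ∧
            (b x.1.2 + primorial y * (g₀ + g)).Prime) ∧ ((a x.2.1 + primorial y * (g₀ + g)).Prime ∧
            (b x.2.2 + primorial y * (g₀ + g)).Prime))
          rw [Nat.card_Icc, Nat.add_sub_cancel] at h2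
          exact_mod_cast h2
      _ = (((Q A B).filter (fun x => ¬ Gd a b x)).card : ℝ) * G := by rw [sum_const, nsmul_eq_mul]
      _ ≤ _ := mul_le_mul_of_nonneg_right (bad_count A B a b ha hb hAB) (Nat.cast_nonneg _)
  have b2 : ∑ x ∈ (Q A B).filter (Gd a b), (((Icc 1 G).filter (fun g => ((a x.1.1 + primorial y * (g₀ + g)).Prime ∧
        (b x.1.2 + primorial y * (g₀ + g)).Prime) ∧ ((a x.2.1 + primorial y * (g₀ + g)).Prime ∧
          (b x.2.2 + primorial y * (g₀ + g)).Prime))).card : ℝ) ≤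
      C * E₀ * ∑ x ∈ (Q A B).filter (Gd a b), SIX y N (a x.1.1) (a x.2.1) (b x.1.2) (b x.2.2) := by
    rw [mul_sum]
    apply sum_le_sum
    intro x hx
    rw [mem_filter, mem_Q] at hx
    obtain ⟨⟨⟨⟨hx1, hx2⟩, hx3, hx4⟩, hx5⟩, g1, g2, g3, g4, g5⟩ := hx
    have h2 := hS G N y g₀ hG hy ![a x.1.1, a x.2.1, b x.1.2, b x.2.2] (inj4 _ _ _ _ (fun h => g1 (ha hx3 hx1 h.symm))
      g2 g3 g4 g5 (fun h => g1 (by have := hb hx2 hx4 h; omega))) (by
        intro i
        fin_cases i
        · exact haN _ hx1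
        · exact haN _ hx3
        · exact hbN _ hx2
        · exact hbN _ hx4)
    have h3 : ((Icc 1 G).filter (fun g => ((a x.1.1 + primorial y * (g₀ + g)).Prime ∧
        (b x.1.2 + primorial y * (g₀ + g)).Prime) ∧ ((a x.2.1 + primorial y * (g₀ + g)).Prime ∧
          (b x.2.2 + primorial y * (g₀ + g)).Prime))).card ≤
        ((Icc 1 G).filter (fun g => ∀ i, (![a x.1.1, a x.2.1, b x.1.2, b x.2.2] i + primorial y * (g₀ + g)).Prime)).card := by
      apply card_le_card
      intro g hg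
      rw [mem_filter] at hg ⊢
      refine ⟨hg.1, fun i => ?_⟩
      fin_cases i
      · exact hg.2.1.1
      · exact hg.2.2.1
      · exact hg.2.1.2
      · exact hg.2.2.2
    calc (((Icc 1 G).filter (fun g => ((a x.1.1 + primorial y * (g₀ + g)).Prime ∧
        (b x.1.2 + primorial y * (g₀ + g)).Prime) ∧ ((a x.2.1 + primorial y * (g₀ + g)).Prime ∧
          (b x.2.2 + primorial y * (g₀ + g)).Prime))).card : ℝ) ≤
        (((Icc 1 G).filter (fun g => ∀ i, (![a x.1.1, a x.2.1, b x.1.2, b x.2.2] i +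
          primorial y * (g₀ + g)).Prime)).card : ℝ) := by exact_mod_cast h3
      _ ≤ C * E₀ * ∏ z ∈ (univ : Finset (Fin 4 × Fin 4)).filter (fun z => z.1 < z.2),
          fd y N (Nat.dist (![a x.1.1, a x.2.1, b x.1.2, b x.2.2] z.1) (![a x.1.1, a x.2.1, b x.1.2, b x.2.2] z.2)) ^ 4 := h2
      _ ≤ _ := mul_le_mul_of_nonneg_left (prod_six _ _ _ _ _ _) (by positivity)
  have b3 := six_sum hM A B a b N y m haN hbN ha hb hm hmy hAB hBN hN
  have b4 := mul_le_mul_of_nonneg_left b3 (show 0 ≤ C * E₀ by positivity)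
  calc _ ≤ C * E₀ * ∑ x ∈ (Q A B).filter (Gd a b), SIX y N (a x.1.1) (a x.2.1) (b x.1.2) (b x.2.2) +
        5 * (A.card * B.card) * G := add_le_add b2 b1
    _ ≤ C * E₀ * (12 * (A.card ^ 2 * B.card)) + 5 * (A.card * B.card) * G := by linarith
    _ = _ := by ring

end Pool.Agent.P8H6.SS
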