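import Pool.Agent.P8H6.SS.Sums2
import Pool.Agent.P8H6.SS.S4
import Pool.Agent.P8H6.SS.Mom
import Pool.Agent.Y877.SxI

/-!
# The same shift: a positive proportion of the sums for almost all shifts
-/

set_option autoImplicit false

namespace Pool.Agent.P8H6.SS

open Finset Pool.Agent.H373R2.T7 Pool.Agent.Y877.SX
open scoped Pointwise Combinatorics.Additive

lemma params (A C G₁ K₁ : ℕ) : ∃ n₀ : ℕ, ∀ n : ℕ, n₀ ≤ n → ∀ y : ℕ,
    ((72 * (2 * (A + 6) + 1) : ℕ) : ℝ) * Real.log (Real.log n) ≤ y → (y : ℝ) ≤ K₁ * Real.log (Real.log n) →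
    ∀ g₀ G : ℕ, primorial y * (g₀ + G) ≤ n → (n : ℝ) ≤ primorial y * G * Real.log n ^ C →
    ∀ W : ℕ, (n : ℝ) ≤ W * Real.log n ^ A → ∃ m : ℕ, 1 ≤ m ∧ 72 * m ≤ y ∧ 17 ≤ y ∧ 8 * NN n ≤ 2 ^ m * W ∧
      5 * Real.log n ^ 4 ≤ W ∧ G₁ ≤ G ∧ Real.log n / 2 ≤ Real.log G ∧ 0 < G ∧ 64 ≤ Real.log n ∧ n ≤ NN n := by
  obtain ⟨m1, k1⟩ := ev_log' (2 * (C + 2 * K₁)) 1
  obtain ⟨m2, k2⟩ := NN_facts 1 one_pos
  obtain ⟨m3, k3⟩ := ev_L' 64
  obtain ⟨m4, k4⟩ := ev_log' (2 * (A + 4)) 5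
  refine ⟨m1 + m2 + m3 + m4 + G₁ ^ 2 + 3, fun n hn y hy1 hy2 g₀ G hg1 hg2 W hK => ?_⟩
  set L := Real.log n with hLd
  have hL64 : 64 ≤ L := k3 n (by omega)
  obtain ⟨hN1, hN2, -, -, -⟩ := k2 n (by omega)
  rw [← hLd] at hN2
  set N := NN n with hNd
  have hL0 : 0 < L := by linarith
  have hL1 : 1 ≤ L := by linarith
  have hlogL : 1 ≤ Real.log L := by
    rw [Real.le_log_iff_exp_le hL0]
    have := Real.exp_one_lt_d9
    linarith
  have hn0 : (0 : ℝ) < n := by exact_mod_cast (by omega : 0 < n)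
  set P := primorial y with hPd
  have hP : 0 < P := primorial_pos y
  have hPL : (P : ℝ) ≤ L ^ (2 * K₁) := primorial_le_log K₁ y L (by
    have := Real.exp_one_lt_d9
    linarith) hy2
  have hsn0 : 0 < √(n : ℝ) := Real.sqrt_pos.2 hn0
  have hsn : √(n : ℝ) * √(n : ℝ) = n := Real.mul_self_sqrt hn0.le
  have hG : √(n : ℝ) ≤ G := by
    have h1 : (n : ℝ) ≤ G * L ^ (C + 2 * K₁) := by
      calc (n : ℝ) ≤ P * G * L ^ C := hg2
        _ ≤ L ^ (2 * K₁) * G * L ^ C := by gcongr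
        _ = G * L ^ (C + 2 * K₁) := by ring
    have h2 := k1 n (by omega)
    rw [← hLd, one_mul] at h2
    have h3 : L ^ (C + 2 * K₁) ≤ √(n : ℝ) := (pow_le_pow_right₀ hL1 (by omega)).trans h2
    have h4 : √(n : ℝ) * √(n : ℝ) ≤ G * √(n : ℝ) := by
      rw [hsn]
      exact h1.trans (mul_le_mul_of_nonneg_left h3 (Nat.cast_nonneg _))
    exact le_of_mul_le_mul_right h4 hsn0
  have hG0 : (0 : ℝ) < G := hsn0.trans_le hG
  have hlogG : L / 2 ≤ Real.log G := by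
    have h1 := Real.log_le_log hsn0 hG
    rw [Real.log_sqrt hn0.le] at h1
    exact h1
  have hG₁ : G₁ ≤ G := by
    have h1 : (G₁ : ℝ) ≤ √(n : ℝ) := by
      apply Real.le_sqrt_of_sq_le
      exact_mod_cast (by omega : G₁ ^ 2 ≤ n)
    exact_mod_cast h1.trans hG
  have hKbig : 5 * L ^ 4 ≤ (W : ℝ) := by
    have h2 := k4 n (by omega)
    rw [← hLd] at h2
    have hs1 : 1 ≤ √(n : ℝ) := by
      rw [Real.one_le_sqrt]
      exact_mod_cast (by omega : 1 ≤ n)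
    have h3 : 5 * L ^ (2 * (A + 4)) ≤ n := by
      calc 5 * L ^ (2 * (A + 4)) ≤ √(n : ℝ) := h2
        _ = √(n : ℝ) * 1 := (mul_one _).symm
        _ ≤ √(n : ℝ) * √(n : ℝ) := mul_le_mul_of_nonneg_left hs1 hsn0.le
        _ = n := hsn
    have h4 : 5 * L ^ 4 * L ^ A ≤ 5 * L ^ (2 * (A + 4)) := by
      rw [mul_assoc, ← pow_add]
      exact mul_le_mul_of_nonneg_left (pow_le_pow_right₀ hL1 (by omega)) (by norm_num)
    have h5 : 5 * L ^ 4 * L ^ A ≤ W * L ^ A := h4.trans (h3.trans hK)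
    exact le_of_mul_le_mul_right h5 (by positivity)
  set m : ℕ := ⌈2 * ((A + 6 : ℕ) : ℝ) * Real.log L⌉₊ with hm
  have hm2 := two_pow_ge (A + 6) L hlogL hL0
  rw [← hm] at hm2
  have hmpos : 1 ≤ m := by
    rw [hm, Nat.one_le_ceil_iff]
    positivity
  have hm3 : (m : ℝ) ≤ (2 * (A + 6) + 1) * Real.log L := by
    have h1 : (m : ℝ) < 2 * ((A + 6 : ℕ) : ℝ) * Real.log L + 1 := Nat.ceil_lt_add_one (by positivity)
    push_cast at h1
    linarith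
  have hmy : 72 * m ≤ y := by
    have h1 : (72 : ℝ) * m ≤ y := by
      refine le_trans ?_ hy1
      push_cast
      linarith
    exact_mod_cast h1
  have hNm : 8 * N ≤ 2 ^ m * W := by
    have h1 : (8 : ℝ) * N ≤ 2 ^ m * W := by
      have h2 : (16 : ℝ) * L ^ (A + 5) * W ≤ 2 ^ m * W := by
        apply mul_le_mul_of_nonneg_right _ (Nat.cast_nonneg _)
        refine le_trans ?_ hm2
        calc 16 * L ^ (A + 5) ≤ L * L ^ (A + 5) := mul_le_mul_of_nonneg_right (by linarith) (by positivity)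
          _ = L ^ (A + 6) := by ring
      refine le_trans ?_ h2
      calc (8 : ℝ) * N ≤ 8 * (2 * n * L ^ 5) := mul_le_mul_of_nonneg_left hN2 (by norm_num)
        _ = 16 * L ^ 5 * n := by ring
        _ ≤ 16 * L ^ 5 * (W * L ^ A) := mul_le_mul_of_nonneg_left hK (by positivity)
        _ = _ := by ring
    exact_mod_cast h1
  exact ⟨m, hmpos, hmy, by omega, hNm, hKbig, hG₁, hlogG, by exact_mod_cast hG0, hL64, by exact_mod_cast hN1⟩

lemma Vz_le_one (y : ℕ) : Vz y ≤ 1 := by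
  have h1 := Vz_split 0 y (Nat.zero_le _)
  have h2 : Vz 0 ≤ 1 := by
    unfold Vz
    exact prod_le_one (fun p hp => (fac_pos (mem_pz.1 hp).2).le) (fun p hp => fac_le)
  have h3 := Vm_le 0 y
  have h4 := (Vm_pos 0 y).le
  rw [h1]
  have h5 := (Vz_pos' 0).le
  nlinarith

theorem energy_avg (h4 : S_S4) (hM : S_MOM) : ∃ C' : ℝ, 0 < C' ∧ ∀ A C : ℕ, ∃ K₀ : ℕ, ∀ K₁ : ℕ, ∃ n₀ : ℕ,
    ∀ n : ℕ, n₀ ≤ n → ∀ y : ℕ, K₀ * Real.log (Real.log n) ≤ y → (y : ℝ) ≤ K₁ * Real.log (Real.log n) →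
    ∀ g₀ G : ℕ, primorial y * (g₀ + G) ≤ n → (n : ℝ) ≤ primorial y * G * Real.log n ^ C →
    ∀ U V : Finset ℕ, (n : ℝ) ≤ U.card * Real.log n ^ A → U.card ≤ V.card → V.card ≤ n → ∀ a b : ℕ → ℕ,
    (∀ k ∈ U, (a k : ℝ) ≤ n * Real.log n ^ 5) → (∀ k ∈ V, (b k : ℝ) ≤ n * Real.log n ^ 5) →
    Set.InjOn a U → Set.InjOn b V →
    ∑ g ∈ Icc 1 G, (E[AG U a (primorial y * (g₀ + g)), AG V b (primorial y * (g₀ + g))] : ℝ) ≤
      C' * ((U.card ^ 2 * V.card) * (G / (Vz y * Real.log n) ^ 4)) := by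
  obtain ⟨C₀, hC₀, G₁, hS⟩ := energy_alg h4 hM
  refine ⟨16 * C₀ + 1, by positivity, fun A C => ⟨72 * (2 * (A + 6) + 1), fun K₁ => ?_⟩⟩
  obtain ⟨n₀, hn₀⟩ := params A C G₁ K₁
  refine ⟨n₀, fun n hn y hy1 hy2 g₀ G hg1 hg2 U V hU hUV hVn a b ha hb hai hbi => ?_⟩
  obtain ⟨m, hm, hmy, hy17, hNm, hKbig, hG₁, hlogG, hG0', hL64, hnN⟩ := hn₀ n hn y hy1 hy2 g₀ G hg1 hg2 U.card hU
  set L := Real.log n with hLd
  set N := NN n with hNd
  have hL0 : 0 < L := by linarith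
  have hG0 : (0 : ℝ) < G := by exact_mod_cast hG0'
  have hcN : ∀ T : Finset ℕ, ∀ c : ℕ → ℕ, (∀ k ∈ T, (c k : ℝ) ≤ n * L ^ 5) → ∀ k ∈ T, c k ≤ N := by
    intro T c hc k hk
    have h2 : (c k : ℝ) ≤ ⌈(n : ℝ) * Real.log n ^ 5⌉₊ := (hc k hk).trans (Nat.le_ceil _)
    have h3 : c k ≤ ⌈(n : ℝ) * Real.log n ^ 5⌉₊ := by exact_mod_cast h2
    rw [hNd]
    unfold NN
    omega
  have hmain := hS U V a b N y g₀ G m hG₁ hy17 hai hbi (hcN U a ha) (hcN V b hb) hm hmy hUV (by omega) (by omega)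
  refine hmain.trans ?_
  have hV0 := Vz_pos' y
  have hV1 := Vz_le_one y
  have hVL : 0 < Vz y * L := by positivity
  have hVL4 : (Vz y * L) ^ 4 ≤ L ^ 4 := by
    apply pow_le_pow_left₀ hVL.le
    nlinarith
  set X : ℝ := (U.card ^ 2 * V.card) * (G / (Vz y * L) ^ 4) with hX
  have e1 : 5 * ((U.card : ℝ) * V.card) * G ≤ X := by
    rw [hX, ← mul_div_assoc, le_div_iff₀ (by positivity)]
    have h1 : 5 * (Vz y * L) ^ 4 ≤ (U.card : ℝ) := by linarith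
    calc 5 * ((U.card : ℝ) * V.card) * G * (Vz y * L) ^ 4 = ((U.card : ℝ) * V.card * G) * (5 * (Vz y * L) ^ 4) := by ring
      _ ≤ ((U.card : ℝ) * V.card * G) * U.card := mul_le_mul_of_nonneg_left h1 (by positivity)
      _ = _ := by ring
  have e2 : ((U.card : ℝ) ^ 2 * V.card) * (G / (Vz y * Real.log G) ^ 4) ≤ 16 * X := by
    have h1 : (Vz y * L) ^ 4 / 16 ≤ (Vz y * Real.log G) ^ 4 := by
      have h2 : (Vz y * (L / 2)) ^ 4 ≤ (Vz y * Real.log G) ^ 4 := by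
        apply pow_le_pow_left₀ (by positivity)
        exact mul_le_mul_of_nonneg_left hlogG hV0.le
      refine le_trans (le_of_eq ?_) h2
      ring
    have h3 : (G : ℝ) / (Vz y * Real.log G) ^ 4 ≤ G / ((Vz y * L) ^ 4 / 16) :=
      div_le_div_of_nonneg_left hG0.le (by positivity) h1
    calc ((U.card : ℝ) ^ 2 * V.card) * (G / (Vz y * Real.log G) ^ 4) ≤ (U.card ^ 2 * V.card) * (G / ((Vz y * L) ^ 4 / 16)) :=
          mul_le_mul_of_nonneg_left h3 (by positivity)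
      _ = 16 * X := by
          rw [hX]
          field_simp
  have e3 := mul_le_mul_of_nonneg_left e2 hC₀.le
  linarith

/-- Markov -/
lemma markov (G : ℕ) (X : ℕ → ℝ) (hX : ∀ g, 0 ≤ X g) (M η : ℝ) (hM : 0 < M) (hη : 0 < η)
    (h : ∑ g ∈ Icc 1 G, X g ≤ M * G) : (((Icc 1 G).filter (fun g => M / η < X g)).card : ℝ) ≤ η * G := by
  have h1 : (((Icc 1 G).filter (fun g => M / η < X g)).card : ℝ) * (M / η) ≤ M * G := by
    refine le_trans ?_ h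
    rw [← nsmul_eq_mul, ← sum_const]
    calc ∑ _g ∈ (Icc 1 G).filter (fun g => M / η < X g), M / η ≤ ∑ g ∈ (Icc 1 G).filter (fun g => M / η < X g), X g :=
          sum_le_sum (fun g hg => (mem_filter.1 hg).2.le)
      _ ≤ _ := sum_le_sum_of_subset_of_nonneg (filter_subset _ _) (fun g _ _ => hX g)
  have h2 : (((Icc 1 G).filter (fun g => M / η < X g)).card : ℝ) * (M / η) =
      ((((Icc 1 G).filter (fun g => M / η < X g)).card : ℝ) / η) * M := by ring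
  rw [h2] at h1
  have h3 : (((Icc 1 G).filter (fun g => M / η < X g)).card : ℝ) / η ≤ G := by
    rw [mul_comm M] at h1
    exact le_of_mul_le_mul_right h1 hM
  rw [div_le_iff₀ hη] at h3
  linarith

end Pool.Agent.P8H6.SS
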