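import Pool.Agent.P8H6.SS.Sums3

/-!
# The same shift: a positive proportion of the sums for almost all shifts, conclusion
-/

set_option autoImplicit false

namespace Pool.Agent.P8H6.SS

open Finset Pool.Agent.H373R2.T7 Pool.Agent.Y877.SX
open scoped Pointwise Combinatorics.Additive

lemma final_alg (s e u v r D η C' : ℝ) (hs : s < η / (16 * C') * v) (hC : 0 < C') (hη : 0 < η) (hu : 0 < u)
    (hv : 0 < v) (hD : 0 < D) (he : e ≤ C' * ((u ^ 2 * v) * (1 / D ^ 4)) / η) (hs0 : 0 ≤ s) (hr : r ≤ s * e)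
    (hr2 : (u / (2 * D)) ^ 2 * (v / (2 * D)) ^ 2 ≤ r) : False := by
  have hX : 0 < C' * ((u ^ 2 * v) * (1 / D ^ 4)) / η := by positivity
  have h1 : s * e ≤ s * (C' * ((u ^ 2 * v) * (1 / D ^ 4)) / η) := mul_le_mul_of_nonneg_left he hs0
  have h2 : s * (C' * ((u ^ 2 * v) * (1 / D ^ 4)) / η) < (η / (16 * C') * v) * (C' * ((u ^ 2 * v) * (1 / D ^ 4)) / η) :=
    mul_lt_mul_of_pos_right hs hX
  have h3 : (η / (16 * C') * v) * (C' * ((u ^ 2 * v) * (1 / D ^ 4)) / η) = (u / (2 * D)) ^ 2 * (v / (2 * D)) ^ 2 := by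
    field_simp
    ring
  linarith

theorem sums_half : ∃ c : ℝ, 0 < c ∧ ∀ (A C : ℕ) (ε : ℝ), 0 < ε → ε ≤ 1 → ∃ K₀ : ℕ, ∀ K₁ : ℕ, ∃ n₀ : ℕ, ∀ n : ℕ, n₀ ≤ n →
    ∀ y : ℕ, K₀ * Real.log (Real.log n) ≤ y → (y : ℝ) ≤ K₁ * Real.log (Real.log n) →
    ∀ g₀ G : ℕ, primorial y * (g₀ + G) ≤ n → (n : ℝ) ≤ primorial y * G * Real.log n ^ C →
    ∀ U V : Finset ℕ, (n : ℝ) ≤ U.card * Real.log n ^ A → U.card ≤ V.card → V.card ≤ n → ∀ a b : ℕ → ℕ,
    (∀ k ∈ U, (a k).Prime ∧ (a k : ℝ) ≤ n * Real.log n ^ 5) → (∀ k ∈ V, (b k).Prime ∧ (b k : ℝ) ≤ n * Real.log n ^ 5) →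
    Set.InjOn a U → Set.InjOn b V →
      (((Icc 1 G).filter (fun g => ((AG U a (primorial y * (g₀ + g)) + AG V b (primorial y * (g₀ + g))).card : ℝ) <
        c * ε * V.card)).card : ℝ) ≤ ε * G := by
  classical
  obtain ⟨C', hC', havg⟩ := energy_avg s4_thm mom_thm
  refine ⟨1 / (32 * C'), by positivity, fun A C ε hε hε1 => ?_⟩
  obtain ⟨k1, f1⟩ := step 1 (Or.inl rfl) A 5 C (ε / 4) (by linarith) (by linarith)
  obtain ⟨k2, f2⟩ := havg A C
  refine ⟨k1 + k2, fun K₁ => ?_⟩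
  obtain ⟨n1, g1⟩ := f1 K₁
  obtain ⟨n2, g2⟩ := f2 K₁
  obtain ⟨n3, g3⟩ := ev_L' 4
  refine ⟨n1 + n2 + n3 + 3, fun n hn y hy1 hy2 g₀ G hg1 hg2 U V hU hUV hVn a b ha hb hai hbi => ?_⟩
  set L := Real.log n with hLd
  have hL4 : 4 ≤ L := g3 n (by omega)
  have hL0 : 0 < L := by linarith
  have hlogL0 : 0 ≤ Real.log L := Real.log_nonneg (by linarith)
  have hn0 : (0 : ℝ) < n := by exact_mod_cast (by omega : 0 < n)
  have hyk1 : (k1 : ℝ) * Real.log L ≤ y := by
    refine le_trans (mul_le_mul_of_nonneg_right ?_ hlogL0) hy1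
    push_cast
    have : (0 : ℝ) ≤ k2 := Nat.cast_nonneg _
    linarith
  have hyk2 : (k2 : ℝ) * Real.log L ≤ y := by
    refine le_trans (mul_le_mul_of_nonneg_right ?_ hlogL0) hy1
    push_cast
    have : (0 : ℝ) ≤ k1 := Nat.cast_nonneg _
    linarith
  have hVc : (n : ℝ) ≤ V.card * L ^ A := by
    refine hU.trans (mul_le_mul_of_nonneg_right ?_ (by positivity))
    exact_mod_cast hUV
  have q1 := g1 n (by omega) y hyk1 hy2 U hU a hai ha g₀ G (by rw [pow_one]; exact hg1) (by rw [pow_one]; exact hg2)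
  have q2 := g1 n (by omega) y hyk1 hy2 V hVc b hbi hb g₀ G (by rw [pow_one]; exact hg1) (by rw [pow_one]; exact hg2)
  have q3 := g2 n (by omega) y hyk2 hy2 g₀ G hg1 hg2 U V hU hUV hVn a b (fun k hk => (ha k hk).2) (fun k hk => (hb k hk).2)
    hai hbi
  rw [← hLd] at q1 q2 q3
  simp only [pow_one, Nat.cast_one, one_mul] at q1 q2
  have hV0 := Vz_pos' y
  have hUpos : (0 : ℝ) < U.card := by
    have h5 : (0 : ℝ) < U.card * L ^ A := hn0.trans_le hU
    by_contra h6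
    have h7 : (U.card : ℝ) = 0 := le_antisymm (not_lt.1 h6) (Nat.cast_nonneg _)
    rw [h7, zero_mul] at h5
    exact lt_irrefl _ h5
  have hVpos : (0 : ℝ) < V.card := hUpos.trans_le (by exact_mod_cast hUV)
  set D := Vz y * L with hD
  have hD0 : 0 < D := by positivity
  have q3' := markov G (fun g => (E[AG U a (primorial y * (g₀ + g)), AG V b (primorial y * (g₀ + g))] : ℝ))
    (fun g => Nat.cast_nonneg _) (C' * (((U.card : ℝ) ^ 2 * V.card) * (1 / D ^ 4))) (ε / 2) (by positivity) (by positivity)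
    (by
      refine q3.trans (le_of_eq ?_)
      ring)
  have hsub : (Icc 1 G).filter (fun g => ((AG U a (primorial y * (g₀ + g)) + AG V b (primorial y * (g₀ + g))).card : ℝ) <
        1 / (32 * C') * ε * V.card) ⊆
      ((Icc 1 G).filter (fun g => ((U.filter (fun j => (a j + primorial y * (g₀ + g)).Prime)).card : ℝ) <
        (1 - ε / 4) * (U.card / D)) ∪
      (Icc 1 G).filter (fun g => ((V.filter (fun j => (b j + primorial y * (g₀ + g)).Prime)).card : ℝ) <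
        (1 - ε / 4) * (V.card / D))) ∪
      (Icc 1 G).filter (fun g => C' * (((U.card : ℝ) ^ 2 * V.card) * (1 / D ^ 4)) / (ε / 2) <
        (E[AG U a (primorial y * (g₀ + g)), AG V b (primorial y * (g₀ + g))] : ℝ)) := by
    intro g hg
    rw [mem_filter] at hg
    by_contra hcon
    rw [mem_union, mem_union, not_or, not_or, mem_filter, mem_filter, mem_filter] at hcon
    obtain ⟨⟨c1, c2⟩, c3⟩ := hcon
    have d1 : (1 - ε / 4) * ((U.card : ℝ) / D) ≤ ((U.filter (fun j => (a j + primorial y * (g₀ + g)).Prime)).card : ℝ) :=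
      not_lt.1 (fun h => c1 ⟨hg.1, h⟩)
    have d2 : (1 - ε / 4) * ((V.card : ℝ) / D) ≤ ((V.filter (fun j => (b j + primorial y * (g₀ + g)).Prime)).card : ℝ) :=
      not_lt.1 (fun h => c2 ⟨hg.1, h⟩)
    have d3 : (E[AG U a (primorial y * (g₀ + g)), AG V b (primorial y * (g₀ + g))] : ℝ) ≤
        C' * (((U.card : ℝ) ^ 2 * V.card) * (1 / D ^ 4)) / (ε / 2) := not_lt.1 (fun h => c3 ⟨hg.1, h⟩)
    have hcs := le_card_add_mul_addEnergy (AG U a (primorial y * (g₀ + g))) (AG V b (primorial y * (g₀ + g)))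
    have hcs' : ((AG U a (primorial y * (g₀ + g))).card : ℝ) ^ 2 * ((AG V b (primorial y * (g₀ + g))).card : ℝ) ^ 2 ≤
        ((AG U a (primorial y * (g₀ + g)) + AG V b (primorial y * (g₀ + g))).card : ℝ) *
          (E[AG U a (primorial y * (g₀ + g)), AG V b (primorial y * (g₀ + g))] : ℝ) := by exact_mod_cast hcs
    have half : ∀ x : ℝ, 0 < x → x / (2 * D) ≤ (1 - ε / 4) * (x / D) := by
      intro x hx
      have h1 : x / (2 * D) = (1 / 2) * (x / D) := by
        field_simp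
      rw [h1]
      exact mul_le_mul_of_nonneg_right (by linarith) (by positivity)
    refine final_alg _ _ (U.card : ℝ) (V.card : ℝ) _ D (ε / 2) C' ?_ hC' (by positivity) hUpos hVpos hD0 d3
      (Nat.cast_nonneg _) hcs' ?_
    · refine lt_of_lt_of_eq hg.2 ?_
      field_simp
      ring
    · apply mul_le_mul _ _ (by positivity) (by positivity)
      · exact pow_le_pow_left₀ (by positivity) ((half _ hUpos).trans d1) 2
      · exact pow_le_pow_left₀ (by positivity) ((half _ hVpos).trans d2) 2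
  have hc1 := card_le_card hsub
  have hc2 := card_union_le ((Icc 1 G).filter (fun g => ((U.filter (fun j => (a j + primorial y * (g₀ + g)).Prime)).card : ℝ) <
        (1 - ε / 4) * (U.card / D)) ∪
      (Icc 1 G).filter (fun g => ((V.filter (fun j => (b j + primorial y * (g₀ + g)).Prime)).card : ℝ) <
        (1 - ε / 4) * (V.card / D))) ((Icc 1 G).filter (fun g => C' * (((U.card : ℝ) ^ 2 * V.card) * (1 / D ^ 4)) / (ε / 2) <
        (E[AG U a (primorial y * (g₀ + g)), AG V b (primorial y * (g₀ + g))] : ℝ)))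
  have hc3 := card_union_le ((Icc 1 G).filter (fun g => ((U.filter (fun j => (a j + primorial y * (g₀ + g)).Prime)).card : ℝ) <
        (1 - ε / 4) * (U.card / D)))
      ((Icc 1 G).filter (fun g => ((V.filter (fun j => (b j + primorial y * (g₀ + g)).Prime)).card : ℝ) <
        (1 - ε / 4) * (V.card / D)))
  have hc4 := hc1.trans (hc2.trans (Nat.add_le_add_right hc3 _))
  have hc5 := (Nat.cast_le (α := ℝ)).2 hc4
  rw [Nat.cast_add, Nat.cast_add] at hc5
  linarith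

/-- a positive proportion of the sums for almost all shifts -/
theorem sums_thm : ∃ c : ℝ, 0 < c ∧ ∀ (A C : ℕ) (ε : ℝ), 0 < ε → ε ≤ 1 → ∃ K₀ : ℕ, ∀ K₁ : ℕ, ∃ n₀ : ℕ, ∀ n : ℕ, n₀ ≤ n →
    ∀ y : ℕ, K₀ * Real.log (Real.log n) ≤ y → (y : ℝ) ≤ K₁ * Real.log (Real.log n) →
    ∀ g₀ G : ℕ, primorial y * (g₀ + G) ≤ n → (n : ℝ) ≤ primorial y * G * Real.log n ^ C →
    ∀ U V : Finset ℕ, (n : ℝ) ≤ U.card * Real.log n ^ A → (n : ℝ) ≤ V.card * Real.log n ^ A → U.card ≤ n → V.card ≤ n →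
    ∀ a b : ℕ → ℕ,
    (∀ k ∈ U, (a k).Prime ∧ (a k : ℝ) ≤ n * Real.log n ^ 5) → (∀ k ∈ V, (b k).Prime ∧ (b k : ℝ) ≤ n * Real.log n ^ 5) →
    Set.InjOn a U → Set.InjOn b V →
      (((Icc 1 G).filter (fun g => ((AG U a (primorial y * (g₀ + g)) + AG V b (primorial y * (g₀ + g))).card : ℝ) <
        c * ε * max (U.card : ℝ) V.card)).card : ℝ) ≤ ε * G := by
  obtain ⟨c, hc, h⟩ := sums_half
  refine ⟨c, hc, fun A C ε hε hε1 => ?_⟩
  obtain ⟨K₀, h1⟩ := h A C ε hε hε1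
  refine ⟨K₀, fun K₁ => ?_⟩
  obtain ⟨n₀, h2⟩ := h1 K₁
  refine ⟨n₀, fun n hn y hy1 hy2 g₀ G hg1 hg2 U V hU hV hUn hVn a b ha hb hai hbi => ?_⟩
  rcases le_total U.card V.card with hUV | hUV
  · have e : max (U.card : ℝ) V.card = V.card := max_eq_right (by exact_mod_cast hUV)
    rw [e]
    exact h2 n hn y hy1 hy2 g₀ G hg1 hg2 U V hU hUV hVn a b ha hb hai hbi
  · have e : max (U.card : ℝ) V.card = U.card := max_eq_left (by exact_mod_cast hUV)
    rw [e]
    have h3 := h2 n hn y hy1 hy2 g₀ G hg1 hg2 V U hV hUV hUn b a hb ha hbi hai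
    have e2 : ∀ g, AG V b (primorial y * (g₀ + g)) + AG U a (primorial y * (g₀ + g)) =
        AG U a (primorial y * (g₀ + g)) + AG V b (primorial y * (g₀ + g)) := fun g => add_comm _ _
    simp only [e2] at h3
    exact h3

end Pool.Agent.P8H6.SS
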